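import Mathlib

/-!
# A1. The form `⟨f,g⟩ = ∫ (f g - f' g')` on the circle: parts, positivity, Minkowski inequality
-/

set_option autoImplicit false

open MeasureTheory Set
open Real

namespace Pool.Agent.Helper16.Buoy

section Wirtinger

open intervalIntegral Filter Topology

/-- A continuously differentiable function which vanishes at `0` is at most linear there. -/
theorem lin_bound {g g' : ℝ → ℝ} (hg : ∀ θ, HasDerivAt g (g' θ) θ) (hg' : Continuous g') :
    ∃ C : ℝ, 0 ≤ C ∧ ∀ x ∈ Icc (0 : ℝ) π, ∀ y ∈ Icc (0 : ℝ) π, |g x - g y| ≤ C * |x - y| := by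
  obtain ⟨C, hC⟩ := isCompact_Icc.exists_bound_of_continuousOn (s := Icc (0 : ℝ) π)
    (f := g') hg'.continuousOn
  refine ⟨C, le_trans (norm_nonneg _) (hC 0 ⟨le_rfl, pi_pos.le⟩), ?_⟩
  intro x hx y hy
  have := (convex_Icc (0 : ℝ) π).norm_image_sub_le_of_norm_hasDerivWithin_le
    (f := g) (f' := g') (C := C) (fun z hz => (hg z).hasDerivWithinAt)
    (fun z hz => hC z hz) hy hx
  simpa [Real.norm_eq_abs] using this

/-- Bound for `g / sin` on `(0, π)`. -/
theorem div_sin_bound {g g' : ℝ → ℝ} (hg : ∀ θ, HasDerivAt g (g' θ) θ) (hg' : Continuous g')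
    (h0 : g 0 = 0) (h1 : g π = 0) :
    ∃ B : ℝ, 0 ≤ B ∧ ∀ x ∈ Ioo (0 : ℝ) π, |g x / sin x| ≤ B := by
  obtain ⟨C, hC0, hC⟩ := lin_bound hg hg'
  refine ⟨C * (π / 2), by positivity, ?_⟩
  intro x hx
  have hs : 0 < sin x := sin_pos_of_pos_of_lt_pi hx.1 hx.2
  rw [abs_div, abs_of_pos hs, div_le_iff₀ hs]
  rcases le_total x (π / 2) with h | h
  · have h2 : 2 / π * x ≤ sin x := mul_le_sin hx.1.le h
    have h3 := hC x ⟨hx.1.le, hx.2.le⟩ 0 ⟨le_rfl, pi_pos.le⟩
    rw [h0, sub_zero, sub_zero, abs_of_pos hx.1] at h3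
    calc |g x| ≤ C * x := h3
      _ = C * (π / 2) * (2 / π * x) := by field_simp
      _ ≤ C * (π / 2) * sin x := by gcongr
  · have h2 : 2 / π * (π - x) ≤ sin (π - x) := mul_le_sin (by linarith [hx.2]) (by linarith)
    rw [sin_pi_sub] at h2
    have h3 := hC x ⟨hx.1.le, hx.2.le⟩ π ⟨pi_pos.le, le_rfl⟩
    rw [h1, sub_zero, abs_sub_comm, abs_of_pos (by linarith [hx.2] : 0 < π - x)] at h3
    calc |g x| ≤ C * (π - x) := h3
      _ = C * (π / 2) * (2 / π * (π - x)) := by field_simp
      _ ≤ C * (π / 2) * sin x := by gcongr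

/-- The identity `∫ (g'² - g²) = ∫ (g' - g cot)²`. -/
theorem wirtinger_identity {g g' : ℝ → ℝ} (hg : ∀ θ, HasDerivAt g (g' θ) θ)
    (hg' : Continuous g') (h0 : g 0 = 0) (h1 : g π = 0) :
    IntervalIntegrable (fun x => (g' x - g x / sin x * cos x) ^ 2) volume 0 π ∧
    ∫ x in (0 : ℝ)..π, (g' x ^ 2 - g x ^ 2) =
      ∫ x in (0 : ℝ)..π, (g' x - g x / sin x * cos x) ^ 2 := by
  have hgc : Continuous g := continuous_iff_continuousAt.2 fun x => (hg x).continuousAt
  obtain ⟨B, hB0, hB⟩ := div_sin_bound hg hg' h0 h1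
  obtain ⟨C, hC0, hC⟩ := lin_bound hg hg'
  obtain ⟨D, hD⟩ := isCompact_Icc.exists_bound_of_continuousOn (s := Icc (0 : ℝ) π)
    (f := g') hg'.continuousOn
  have hD0 : 0 ≤ D := le_trans (norm_nonneg _) (hD 0 ⟨le_rfl, pi_pos.le⟩)
  -- integrability of the square
  have hmeas : Measurable (fun x => (g' x - g x / sin x * cos x) ^ 2) := by
    have := hg'.measurable
    have := hgc.measurable
    fun_prop
  have hint : IntervalIntegrable (fun x => (g' x - g x / sin x * cos x) ^ 2) volume 0 π := by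
    rw [intervalIntegrable_iff_integrableOn_Ioo_of_le pi_pos.le]
    refine Measure.integrableOn_of_bounded (M := (D + B) ^ 2) (by simp) hmeas.aestronglyMeasurable ?_
    rw [ae_restrict_iff' measurableSet_Ioo]
    refine Eventually.of_forall fun x hx => ?_
    rw [Real.norm_eq_abs, abs_pow]
    have hd := hD x ⟨hx.1.le, hx.2.le⟩
    rw [Real.norm_eq_abs] at hd
    have hb := hB x hx
    have : |g' x - g x / sin x * cos x| ≤ D + B := by
      calc |g' x - g x / sin x * cos x| ≤ |g' x| + |g x / sin x * cos x| := abs_sub _ _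
        _ = |g' x| + |g x / sin x| * |cos x| := by rw [abs_mul]
        _ ≤ D + B * 1 := by
            gcongr
            exact abs_cos_le_one x
        _ = D + B := by ring
    exact pow_le_pow_left₀ (abs_nonneg _) this 2
  refine ⟨hint, ?_⟩
  have hint2 : IntervalIntegrable (fun x => g' x ^ 2 - g x ^ 2) volume 0 π :=
    ((hg'.pow 2).sub (hgc.pow 2)).intervalIntegrable _ _
  -- F = g * (g / sin * cos)
  have hFcont : ContinuousOn (fun x => g x * (g x / sin x * cos x)) (Icc 0 π) := by
    have key : ∀ x ∈ Icc (0 : ℝ) π, |g x / sin x * cos x| ≤ B := by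
      intro x hx
      rcases eq_or_lt_of_le hx.1 with h | h
      · rw [← h]; simpa [h0] using hB0
      rcases eq_or_lt_of_le hx.2 with h' | h'
      · rw [h']; simpa [h1] using hB0
      rw [abs_mul]
      calc |g x / sin x| * |cos x| ≤ B * 1 := by
            gcongr
            · exact hB x ⟨h, h'⟩
            · exact abs_cos_le_one x
        _ = B := mul_one B
    intro x hx
    rcases eq_or_lt_of_le hx.1 with h | h
    · subst h
      have hval : g 0 * (g 0 / sin 0 * cos 0) = 0 := by rw [h0]; ring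
      rw [ContinuousWithinAt, hval]
      have hz : Tendsto (fun x => |g x| * B) (𝓝[Icc 0 π] 0) (𝓝 0) := by
        have : Tendsto (fun x => |g x| * B) (𝓝 0) (𝓝 (|g 0| * B)) :=
          ((hgc.abs.mul continuous_const).tendsto 0)
        rw [h0, abs_zero, zero_mul] at this
        exact this.mono_left nhdsWithin_le_nhds
      refine squeeze_zero_norm' ?_ hz
      filter_upwards [self_mem_nhdsWithin] with y hy
      rw [Real.norm_eq_abs, abs_mul]
      exact mul_le_mul_of_nonneg_left (key y hy) (abs_nonneg _)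
    rcases eq_or_lt_of_le hx.2 with h' | h'
    · subst h'
      have hval : g π * (g π / sin π * cos π) = 0 := by rw [h1]; ring
      rw [ContinuousWithinAt, hval]
      have hz : Tendsto (fun x => |g x| * B) (𝓝[Icc 0 π] π) (𝓝 0) := by
        have : Tendsto (fun x => |g x| * B) (𝓝 π) (𝓝 (|g π| * B)) :=
          ((hgc.abs.mul continuous_const).tendsto π)
        rw [h1, abs_zero, zero_mul] at this
        exact this.mono_left nhdsWithin_le_nhds
      refine squeeze_zero_norm' ?_ hz
      filter_upwards [self_mem_nhdsWithin] with y hy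
      rw [Real.norm_eq_abs, abs_mul]
      exact mul_le_mul_of_nonneg_left (key y hy) (abs_nonneg _)
    · have hs : sin x ≠ 0 := (sin_pos_of_pos_of_lt_pi h h').ne'
      refine ContinuousAt.continuousWithinAt ?_
      have h3 : ContinuousAt g x := hgc.continuousAt
      exact h3.mul ((h3.div continuous_sin.continuousAt hs).mul continuous_cos.continuousAt)
  have hFderiv : ∀ x ∈ Ioo (0 : ℝ) π, HasDerivAt (fun x => g x * (g x / sin x * cos x))
      ((g' x ^ 2 - g x ^ 2) - (g' x - g x / sin x * cos x) ^ 2) x := by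
    intro x hx
    have hs : sin x ≠ 0 := (sin_pos_of_pos_of_lt_pi hx.1 hx.2).ne'
    have h3 := (hg x).mul (((hg x).div (hasDerivAt_sin x) hs).mul (hasDerivAt_cos x))
    refine h3.congr_deriv ?_
    have hc : cos x ^ 2 = 1 - sin x ^ 2 := by rw [cos_sq']
    simp only [Pi.mul_apply, Pi.div_apply]
    field_simp
    ring
  have h := intervalIntegral.integral_eq_sub_of_hasDerivAt_of_le pi_pos.le hFcont hFderiv
    (hint2.sub hint)
  rw [intervalIntegral.integral_sub hint2 hint, h0, h1] at h
  linarith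

/-- Wirtinger's inequality on `[0, π]`. -/
theorem wirtinger_le {g g' : ℝ → ℝ} (hg : ∀ θ, HasDerivAt g (g' θ) θ)
    (hg' : Continuous g') (h0 : g 0 = 0) (h1 : g π = 0) :
    ∫ x in (0 : ℝ)..π, (g x ^ 2 - g' x ^ 2) ≤ 0 := by
  obtain ⟨hi, h⟩ := wirtinger_identity hg hg' h0 h1
  have h2 : ∫ x in (0 : ℝ)..π, (g x ^ 2 - g' x ^ 2) =
      - ∫ x in (0 : ℝ)..π, (g' x ^ 2 - g x ^ 2) := by
    rw [← intervalIntegral.integral_neg]
    congr 1
    ext x
    ring
  rw [h2, h]
  have := intervalIntegral.integral_nonneg (μ := volume) (f := fun x => (g' x - g x / sin x * cos x) ^ 2)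
    pi_pos.le (fun x _ => sq_nonneg _)
  linarith

/-- Equality case in Wirtinger's inequality on `[0, π]`. -/
theorem wirtinger_eq {g g' : ℝ → ℝ} (hg : ∀ θ, HasDerivAt g (g' θ) θ)
    (hg' : Continuous g') (h0 : g 0 = 0) (h1 : g π = 0)
    (he : 0 ≤ ∫ x in (0 : ℝ)..π, (g x ^ 2 - g' x ^ 2)) :
    ∃ c : ℝ, ∀ x ∈ Icc (0 : ℝ) π, g x = c * sin x := by
  have hgc : Continuous g := continuous_iff_continuousAt.2 fun x => (hg x).continuousAt
  obtain ⟨hi, h⟩ := wirtinger_identity hg hg' h0 h1
  have h2 : ∫ x in (0 : ℝ)..π, (g x ^ 2 - g' x ^ 2) =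
      - ∫ x in (0 : ℝ)..π, (g' x ^ 2 - g x ^ 2) := by
    rw [← intervalIntegral.integral_neg]
    congr 1
    ext x
    ring
  have h3 : ∫ x in (0 : ℝ)..π, (g' x - g x / sin x * cos x) ^ 2 = 0 := by
    have := intervalIntegral.integral_nonneg (μ := volume)
      (f := fun x => (g' x - g x / sin x * cos x) ^ 2) pi_pos.le (fun x _ => sq_nonneg _)
    rw [h2, h] at he
    linarith
  -- the function vanishes on the open interval
  have h4 : ∀ x ∈ Ioo (0 : ℝ) π, g' x - g x / sin x * cos x = 0 := by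
    rw [intervalIntegral.integral_of_le pi_pos.le, integral_Ioc_eq_integral_Ioo,
      setIntegral_eq_zero_iff_of_nonneg_ae (Eventually.of_forall fun x => sq_nonneg _)
        ((intervalIntegrable_iff_integrableOn_Ioo_of_le pi_pos.le).1 hi)] at h3
    have hcont : ContinuousOn (fun x => (g' x - g x / sin x * cos x) ^ 2) (Ioo 0 π) := by
      intro x hx
      have hs : sin x ≠ 0 := (sin_pos_of_pos_of_lt_pi hx.1 hx.2).ne'
      exact (((hg'.continuousAt).sub ((hgc.continuousAt.div continuous_sin.continuousAt hs).mul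
        continuous_cos.continuousAt)).pow 2).continuousWithinAt
    have h5 := MeasureTheory.Measure.eqOn_open_of_ae_eq h3 isOpen_Ioo hcont continuousOn_const
    intro x hx
    have h6 := h5 hx
    simpa using h6
  -- hence `g / sin` is constant
  have h5 : ∀ x ∈ Ioo (0 : ℝ) π, HasDerivAt (fun x => g x / sin x) 0 x := by
    intro x hx
    have hs : sin x ≠ 0 := (sin_pos_of_pos_of_lt_pi hx.1 hx.2).ne'
    refine ((hg x).div (hasDerivAt_sin x) hs).congr_deriv ?_
    have h6 := h4 x hx
    have h7 : g' x = g x / sin x * cos x := by linarith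
    rw [h7]
    field_simp
    ring
  have hmid : (π / 2) ∈ Ioo (0 : ℝ) π := ⟨by positivity, by linarith [pi_pos]⟩
  refine ⟨g (π / 2), fun x hx => ?_⟩
  rcases eq_or_lt_of_le hx.1 with h | h
  · rw [← h, h0, sin_zero, mul_zero]
  rcases eq_or_lt_of_le hx.2 with h' | h'
  · rw [h', h1, sin_pi, mul_zero]
  have h6 : g x / sin x = g (π / 2) / sin (π / 2) := by
    refine IsOpen.is_const_of_deriv_eq_zero isOpen_Ioo isPreconnected_Ioo
      (f := fun x => g x / sin x) (s := Ioo 0 π)
      (fun y hy => (h5 y hy).differentiableAt.differentiableWithinAt) ?_ ⟨h, h'⟩ hmid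
    intro y hy
    exact (h5 y hy).deriv
  rw [sin_pi_div_two, div_one, div_eq_iff (sin_pos_of_pos_of_lt_pi h h').ne'] at h6
  exact h6


/-- Wirtinger on `[0, 2π]` for functions vanishing at `0, π, 2π`. -/
theorem wirtinger_full {g g' : ℝ → ℝ} (hg : ∀ θ, HasDerivAt g (g' θ) θ) (hg' : Continuous g')
    (h0 : g 0 = 0) (h1 : g π = 0) (hp : Function.Periodic g (2 * π)) :
    ∫ x in (0 : ℝ)..(2 * π), (g x ^ 2 - g' x ^ 2) ≤ 0 ∧
    (0 ≤ ∫ x in (0 : ℝ)..(2 * π), (g x ^ 2 - g' x ^ 2) → ∃ c : ℝ, ∀ x, g x = c * sin x) := by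
  have hgc : Continuous g := continuous_iff_continuousAt.2 fun x => (hg x).continuousAt
  have h2 : g (2 * π) = 0 := by
    have := hp 0
    rw [zero_add] at this
    rw [this, h0]
  -- the shifted function
  have hs : ∀ θ, HasDerivAt (fun x => g (x + π)) (g' (θ + π)) θ := fun θ =>
    (hg (θ + π)).comp_add_const θ π
  have hs' : Continuous (fun x => g' (x + π)) := by fun_prop
  have hs0 : (fun x => g (x + π)) 0 = 0 := by simpa using h1
  have hs1 : (fun x => g (x + π)) π = 0 := by
    show g (π + π) = 0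
    rw [← two_mul]; exact h2
  have hci : ∀ a b : ℝ, IntervalIntegrable (fun x => g x ^ 2 - g' x ^ 2) volume a b := fun a b =>
    ((hgc.pow 2).sub (hg'.pow 2)).intervalIntegrable _ _
  have hsplit : ∫ x in (0 : ℝ)..(2 * π), (g x ^ 2 - g' x ^ 2) =
      (∫ x in (0 : ℝ)..π, (g x ^ 2 - g' x ^ 2)) +
        ∫ x in (0 : ℝ)..π, (g (x + π) ^ 2 - g' (x + π) ^ 2) := by
    rw [intervalIntegral.integral_comp_add_right (fun x => g x ^ 2 - g' x ^ 2) π, zero_add,
      ← two_mul, intervalIntegral.integral_add_adjacent_intervals (hci _ _) (hci _ _)]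
  have hA := wirtinger_le hg hg' h0 h1
  have hB := wirtinger_le hs hs' hs0 hs1
  refine ⟨by rw [hsplit]; linarith, fun he => ?_⟩
  rw [hsplit] at he
  obtain ⟨c, hc⟩ := wirtinger_eq hg hg' h0 h1 (by linarith)
  obtain ⟨d, hd⟩ := wirtinger_eq hs hs' hs0 hs1 (by linarith)
  have hd' : ∀ x ∈ Icc π (2 * π), g x = -d * sin x := by
    intro x hx
    have := hd (x - π) ⟨by linarith [hx.1], by linarith [hx.2]⟩
    simp only [sub_add_cancel, sin_sub_pi] at this
    rw [this]; ring
  -- derivatives at `π`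
  have e1 : g' π = -c := by
    have u1 : HasDerivWithinAt g (g' π) (Icc 0 π) π := (hg π).hasDerivWithinAt
    have u2 : HasDerivWithinAt (fun x => c * sin x) (c * cos π) (Icc 0 π) π :=
      ((hasDerivAt_sin π).const_mul c).hasDerivWithinAt
    have u3 : HasDerivWithinAt g (c * cos π) (Icc 0 π) π :=
      u2.congr hc (hc π ⟨pi_pos.le, le_rfl⟩)
    have := (uniqueDiffOn_Icc pi_pos π ⟨pi_pos.le, le_rfl⟩).eq_deriv _ u1 u3
    rw [this, cos_pi]; ring
  have e2 : g' π = d := by
    have hlt : π < 2 * π := by linarith [pi_pos]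
    have u1 : HasDerivWithinAt g (g' π) (Icc π (2 * π)) π := (hg π).hasDerivWithinAt
    have u2 : HasDerivWithinAt (fun x => -d * sin x) (-d * cos π) (Icc π (2 * π)) π :=
      ((hasDerivAt_sin π).const_mul (-d)).hasDerivWithinAt
    have u3 : HasDerivWithinAt g (-d * cos π) (Icc π (2 * π)) π :=
      u2.congr hd' (hd' π ⟨le_rfl, hlt.le⟩)
    have := (uniqueDiffOn_Icc hlt π ⟨le_rfl, hlt.le⟩).eq_deriv _ u1 u3
    rw [this, cos_pi]; ring
  have hcd : d = -c := by linarith
  refine ⟨c, fun x => ?_⟩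
  obtain ⟨y, hy, hxy⟩ := hp.exists_mem_Ico₀ (by positivity) x
  have hgy : g y = c * sin y := by
    rcases le_total y π with h | h
    · exact hc y ⟨hy.1, h⟩
    · rw [hd' y ⟨h, hy.2.le⟩, hcd]; ring
  have hper : Function.Periodic (fun x => g x - c * sin x) (2 * π) := by
    intro z
    show g (z + 2 * π) - c * sin (z + 2 * π) = g z - c * sin z
    rw [hp z, sin_add_two_pi]
  obtain ⟨y', hy', hxy'⟩ := hper.exists_mem_Ico₀ (by positivity) x
  have hgy' : g y' = c * sin y' := by
    rcases le_total y' π with h | h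
    · exact hc y' ⟨hy'.1, h⟩
    · rw [hd' y' ⟨h, hy'.2.le⟩, hcd]; ring
  have : g x - c * sin x = g y' - c * sin y' := hxy'
  rw [hgy', sub_self] at this
  linarith

/-- `∫ (f cos + f' sin) = 0` for periodic `f`. -/
theorem form_cos {f f' : ℝ → ℝ} (hf : ∀ θ, HasDerivAt f (f' θ) θ) (hf' : Continuous f') :
    ∫ x in (0 : ℝ)..(2 * π), (f x * cos x + f' x * sin x) = 0 := by
  have hfc : Continuous f := continuous_iff_continuousAt.2 fun x => (hf x).continuousAt
  have h := intervalIntegral.integral_eq_sub_of_hasDerivAt (a := 0) (b := 2 * π)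
    (f := fun x => f x * sin x) (f' := fun x => f' x * sin x + f x * cos x)
    (fun x _ => (hf x).mul (hasDerivAt_sin x))
    (Continuous.intervalIntegrable (by fun_prop) _ _)
  rw [sin_two_pi, sin_zero, mul_zero, mul_zero, sub_zero] at h
  rw [← h]
  congr 1
  ext x
  ring

/-- `∫ (f sin - f' cos) = 0` for periodic `f`. -/
theorem form_sin {f f' : ℝ → ℝ} (hf : ∀ θ, HasDerivAt f (f' θ) θ) (hf' : Continuous f')
    (hp : f (2 * π) = f 0) :
    ∫ x in (0 : ℝ)..(2 * π), (f x * sin x - f' x * cos x) = 0 := by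
  have hfc : Continuous f := continuous_iff_continuousAt.2 fun x => (hf x).continuousAt
  have h := intervalIntegral.integral_eq_sub_of_hasDerivAt (a := 0) (b := 2 * π)
    (f := fun x => -(f x * cos x)) (f' := fun x => -(f' x * cos x + f x * -sin x))
    (fun x _ => ((hf x).mul (hasDerivAt_cos x)).neg)
    (Continuous.intervalIntegrable (by fun_prop) _ _)
  rw [cos_two_pi, cos_zero, mul_one, mul_one, hp, sub_self] at h
  rw [← h]
  congr 1
  ext x
  ring

/-- Planar Minkowski inequality with its equality case. -/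
theorem minkowski_core {H k τ m : ℝ → ℝ} (hH : ∀ θ, HasDerivAt H (k θ) θ) (hk : Continuous k)
    (hτ : ∀ θ, HasDerivAt τ (m θ) θ) (hm : Continuous m)
    (pH : Function.Periodic H (2 * π)) (pτ : Function.Periodic τ (2 * π))
    (hpos : 0 < H 0 + H π) {ρ Q e : ℝ} (hρ : ρ = ∫ x in (0 : ℝ)..(2 * π), (H x ^ 2 - k x ^ 2))
    (hρ0 : 0 < ρ) (hQ : Q = ∫ x in (0 : ℝ)..(2 * π), (H x * τ x - k x * m x))
    (he : e = ∫ x in (0 : ℝ)..(2 * π), (τ x ^ 2 - m x ^ 2)) :
    ρ * e ≤ Q ^ 2 ∧
    (Q ^ 2 ≤ ρ * e → ∃ a b : ℝ, ∀ θ, τ θ = Q / ρ * H θ + a * cos θ + b * sin θ) := by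
  have hHc : Continuous H := continuous_iff_continuousAt.2 fun x => (hH x).continuousAt
  have hτc : Continuous τ := continuous_iff_continuousAt.2 fun x => (hτ x).continuousAt
  set κ : ℝ := (τ 0 + τ π) / (H 0 + H π) with hκ
  set a : ℝ := τ 0 - κ * H 0 with ha
  have hκ' : κ * (H 0 + H π) = τ 0 + τ π := by rw [hκ, div_mul_cancel₀ _ hpos.ne']
  let g : ℝ → ℝ := fun x => τ x - κ * H x - a * cos x
  let g' : ℝ → ℝ := fun x => m x - κ * k x + a * sin x
  have hg : ∀ θ, HasDerivAt g (g' θ) θ := by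
    intro θ
    have := ((hτ θ).sub ((hH θ).const_mul κ)).sub ((hasDerivAt_cos θ).const_mul a)
    refine this.congr_deriv ?_
    simp only [g']
    ring
  have hg' : Continuous g' := by simp only [g']; fun_prop
  have hg0 : g 0 = 0 := by simp only [g, cos_zero, ha]; ring
  have hg1 : g π = 0 := by simp only [g, cos_pi, ha]; linarith
  have hgp : Function.Periodic g (2 * π) := by
    intro x
    simp only [g]
    rw [pτ x, pH x, cos_add_two_pi]
  obtain ⟨hle, heq⟩ := wirtinger_full hg hg' hg0 hg1 hgp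
  have hval : ∫ x in (0 : ℝ)..(2 * π), (g x ^ 2 - g' x ^ 2) = e - 2 * κ * Q + κ ^ 2 * ρ := by
    -- kernel computations
    have p1 := form_cos hτ hm
    have p2 := form_cos hH hk
    have p3 := form_cos (f := cos) (f' := fun x => -sin x) hasDerivAt_cos (by fun_prop)
    have i1 : IntervalIntegrable (fun x => H x ^ 2 - k x ^ 2) volume 0 (2 * π) :=
      Continuous.intervalIntegrable (by fun_prop) _ _
    have i2 : IntervalIntegrable (fun x => H x * τ x - k x * m x) volume 0 (2 * π) :=
      Continuous.intervalIntegrable (by fun_prop) _ _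
    have i3 : IntervalIntegrable (fun x => τ x ^ 2 - m x ^ 2) volume 0 (2 * π) :=
      Continuous.intervalIntegrable (by fun_prop) _ _
    have i4 : IntervalIntegrable (fun x => τ x * cos x + m x * sin x) volume 0 (2 * π) :=
      Continuous.intervalIntegrable (by fun_prop) _ _
    have i5 : IntervalIntegrable (fun x => H x * cos x + k x * sin x) volume 0 (2 * π) :=
      Continuous.intervalIntegrable (by fun_prop) _ _
    have i6 : IntervalIntegrable (fun x => cos x * cos x + -sin x * sin x) volume 0 (2 * π) :=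
      Continuous.intervalIntegrable (by fun_prop) _ _
    have hfun : (fun x => g x ^ 2 - g' x ^ 2) = fun x =>
        (τ x ^ 2 - m x ^ 2) - (2 * κ) * (H x * τ x - k x * m x) + κ ^ 2 * (H x ^ 2 - k x ^ 2)
        - (2 * a) * (τ x * cos x + m x * sin x) + (2 * κ * a) * (H x * cos x + k x * sin x)
        + a ^ 2 * (cos x * cos x + -sin x * sin x) := by
      ext x
      simp only [g, g']
      ring
    rw [hfun, intervalIntegral.integral_add ((((i3.sub (i2.const_mul _)).add (i1.const_mul _)).sub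
        (i4.const_mul _)).add (i5.const_mul _)) (i6.const_mul _),
      intervalIntegral.integral_add (((i3.sub (i2.const_mul _)).add (i1.const_mul _)).sub
        (i4.const_mul _)) (i5.const_mul _),
      intervalIntegral.integral_sub ((i3.sub (i2.const_mul _)).add (i1.const_mul _))
        (i4.const_mul _),
      intervalIntegral.integral_add (i3.sub (i2.const_mul _)) (i1.const_mul _),
      intervalIntegral.integral_sub i3 (i2.const_mul _),
      intervalIntegral.integral_const_mul, intervalIntegral.integral_const_mul,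
      intervalIntegral.integral_const_mul, intervalIntegral.integral_const_mul,
      intervalIntegral.integral_const_mul, p1, p2, p3, ← hρ, ← hQ, ← he]
    ring
  rw [hval] at hle heq
  have hkey : (κ * ρ - Q) ^ 2 - (Q ^ 2 - ρ * e) = ρ * (e - 2 * κ * Q + κ ^ 2 * ρ) := by ring
  have hle' : ρ * (e - 2 * κ * Q + κ ^ 2 * ρ) ≤ 0 := mul_nonpos_of_nonneg_of_nonpos hρ0.le hle
  refine ⟨by nlinarith [sq_nonneg (κ * ρ - Q)], fun hW => ?_⟩
  have h1 : (κ * ρ - Q) ^ 2 = 0 := by
    have := sq_nonneg (κ * ρ - Q)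
    nlinarith
  have h2 : κ * ρ = Q := by
    have := pow_eq_zero_iff (two_ne_zero) |>.1 h1
    linarith
  have h3 : κ = Q / ρ := by rw [eq_div_iff hρ0.ne', h2]
  have h4 : 0 ≤ e - 2 * κ * Q + κ ^ 2 * ρ := by
    have : 0 ≤ ρ * (e - 2 * κ * Q + κ ^ 2 * ρ) := by rw [← hkey, h1]; linarith
    exact nonneg_of_mul_nonneg_right this hρ0
  obtain ⟨c, hc⟩ := heq h4
  refine ⟨a, c, fun θ => ?_⟩
  have := hc θ
  simp only [g] at this
  rw [← h3]
  linarith


end Wirtinger

/-- The Lorentzian form on periodic functions (the derivatives are passed explicitly). -/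
noncomputable def form (f f' g g' : ℝ → ℝ) : ℝ := ∫ θ in (0:ℝ)..(2 * π), (f θ * g θ - f' θ * g' θ)

/-- Integration by parts. -/
theorem form_parts {f f' R g g' : ℝ → ℝ} (hf' : ∀ θ, HasDerivAt f' (R θ - f θ) θ)
    (hfc : Continuous f) (hR : Continuous R) (hg : ∀ θ, HasDerivAt g (g' θ) θ) (hg' : Continuous g')
    (pf' : f' (2 * π) = f' 0) (pg : g (2 * π) = g 0) :
    form f f' g g' = ∫ θ in (0:ℝ)..(2 * π), R θ * g θ := by
  have hgc : Continuous g := continuous_iff_continuousAt.2 fun x => (hg x).continuousAt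
  have hf'c : Continuous f' := continuous_iff_continuousAt.2 fun x => (hf' x).continuousAt
  have h := intervalIntegral.integral_eq_sub_of_hasDerivAt (a := 0) (b := 2 * π)
    (f := fun x => f' x * g x) (f' := fun x => (R x - f x) * g x + f' x * g' x)
    (fun x _ => (hf' x).mul (hg x))
    (Continuous.intervalIntegrable (by fun_prop) _ _)
  rw [pf', pg, sub_self] at h
  have h2 : form f f' g g' + ∫ x in (0:ℝ)..(2 * π), ((R x - f x) * g x + f' x * g' x) =
      ∫ θ in (0:ℝ)..(2 * π), R θ * g θ := by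
    unfold form
    rw [← intervalIntegral.integral_add (Continuous.intervalIntegrable (by fun_prop) _ _)
      (Continuous.intervalIntegrable (by fun_prop) _ _)]
    congr 1
    ext x
    ring
  rw [← h2, h, add_zero]

/-- Linear functions are in the kernel of the form. -/
theorem form_linear {g g' : ℝ → ℝ} (a b : ℝ) (hg : ∀ θ, HasDerivAt g (g' θ) θ)
    (hg' : Continuous g') (pg : g (2 * π) = g 0) :
    form (fun θ => a * cos θ + b * sin θ) (fun θ => -a * sin θ + b * cos θ) g g' = 0 := by
  have hgc : Continuous g := continuous_iff_continuousAt.2 fun x => (hg x).continuousAt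
  have h := form_parts (f := fun θ => a * cos θ + b * sin θ)
    (f' := fun θ => -a * sin θ + b * cos θ) (R := fun _ => 0) (g := g) (g' := g')
    (fun θ => by
      have := ((hasDerivAt_sin θ).const_mul (-a)).add ((hasDerivAt_cos θ).const_mul b)
      refine this.congr_deriv ?_
      ring) (by fun_prop) continuous_const hg hg' (by simp) pg
  rw [h]
  simp

/-- The support function lies above its tangent linear function at `0`, on `(0, 2π)`. -/
theorem above_tangent {f f' R : ℝ → ℝ} (hf : ∀ θ, HasDerivAt f (f' θ) θ)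
    (hf' : ∀ θ, HasDerivAt f' (R θ - f θ) θ) (hR : Continuous R) (hRpos : ∀ θ, 0 < R θ)
    (pf : ∀ θ, f (θ + 2 * π) = f θ) (θ : ℝ) (h0 : 0 < θ) (h2 : θ < 2 * π) :
    0 < f θ - (f 0 * cos θ + f' 0 * sin θ) := by
  have hfc : Continuous f := continuous_iff_continuousAt.2 fun x => (hf x).continuousAt
  have hf'c : Continuous f' := continuous_iff_continuousAt.2 fun x => (hf' x).continuousAt
  have hc : ∀ x : ℝ, HasDerivAt (fun t : ℝ => cos (θ - t)) (sin (θ - x)) x := fun x => by
    have := (hasDerivAt_cos (θ - x)).comp x ((hasDerivAt_id x).const_sub θ)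
    refine this.congr_deriv ?_
    ring
  have hs : ∀ x : ℝ, HasDerivAt (fun t : ℝ => sin (θ - t)) (-cos (θ - x)) x := fun x => by
    have := (hasDerivAt_sin (θ - x)).comp x ((hasDerivAt_id x).const_sub θ)
    refine this.congr_deriv ?_
    ring
  have hF : ∀ x, HasDerivAt (fun t => f' t * sin (θ - t) + f t * cos (θ - t))
      (R x * sin (θ - x)) x := by
    intro x
    have := ((hf' x).mul (hs x)).add ((hf x).mul (hc x))
    refine this.congr_deriv ?_
    ring
  have hint : ∀ a b : ℝ, IntervalIntegrable (fun x => R x * sin (θ - x)) volume a b := fun a b =>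
    Continuous.intervalIntegrable (by fun_prop) _ _
  have pf' : f' (2 * π) = f' 0 := by
    have h1 : HasDerivAt (fun x => f (x + 2 * π)) (f' (0 + 2 * π)) 0 :=
      (hf (0 + 2 * π)).comp_add_const 0 (2 * π)
    have h3 : (fun x => f (x + 2 * π)) = f := funext pf
    rw [h3, zero_add] at h1
    exact h1.unique (hf 0)
  have pf0 : f (2 * π) = f 0 := by
    have := pf 0
    rwa [zero_add] at this
  rcases le_or_gt θ π with hle | hgt
  · have h := intervalIntegral.integral_eq_sub_of_hasDerivAt (a := 0) (b := θ)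
      (fun x _ => hF x) (hint _ _)
    have hpos : 0 < ∫ x in (0:ℝ)..θ, R x * sin (θ - x) := by
      refine intervalIntegral.intervalIntegral_pos_of_pos_on (hint _ _) ?_ h0
      intro x hx
      exact mul_pos (hRpos x) (sin_pos_of_pos_of_lt_pi (by linarith [hx.2]) (by linarith [hx.1]))
    rw [h] at hpos
    simp only [sub_self, sin_zero, cos_zero, sub_zero] at hpos
    linarith
  · have h := intervalIntegral.integral_eq_sub_of_hasDerivAt (a := θ) (b := 2 * π)
      (fun x _ => hF x) (hint _ _)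
    have hpos : 0 < ∫ x in θ..(2 * π), -(R x * sin (θ - x)) := by
      refine intervalIntegral.intervalIntegral_pos_of_pos_on (hint _ _).neg ?_ h2
      intro x hx
      have : 0 < sin (x - θ) :=
        sin_pos_of_pos_of_lt_pi (by linarith [hx.1]) (by linarith [hx.2])
      have h5 : sin (θ - x) = - sin (x - θ) := by rw [← sin_neg, neg_sub]
      rw [h5]
      have := mul_pos (hRpos x) this
      linarith
    rw [intervalIntegral.integral_neg, h] at hpos
    have e1 : sin (θ - 2 * π) = sin θ := by rw [sin_sub_two_pi]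
    have e2 : cos (θ - 2 * π) = cos θ := by rw [cos_sub_two_pi]
    simp only [sub_self, sin_zero, cos_zero, e1, e2, pf', pf0] at hpos
    linarith

/-- The form is positive on support functions of convex curves. -/
theorem form_self_pos {f f' R : ℝ → ℝ} (hf : ∀ θ, HasDerivAt f (f' θ) θ)
    (hf' : ∀ θ, HasDerivAt f' (R θ - f θ) θ) (hR : Continuous R) (hRpos : ∀ θ, 0 < R θ)
    (pf : ∀ θ, f (θ + 2 * π) = f θ) : 0 < form f f' f f' := by
  have hfc : Continuous f := continuous_iff_continuousAt.2 fun x => (hf x).continuousAt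
  have hf'c : Continuous f' := continuous_iff_continuousAt.2 fun x => (hf' x).continuousAt
  have pf' : f' (2 * π) = f' 0 := by
    have h1 : HasDerivAt (fun x => f (x + 2 * π)) (f' (0 + 2 * π)) 0 :=
      (hf (0 + 2 * π)).comp_add_const 0 (2 * π)
    have h3 : (fun x => f (x + 2 * π)) = f := funext pf
    rw [h3, zero_add] at h1
    exact h1.unique (hf 0)
  have pf0 : f (2 * π) = f 0 := by
    have := pf 0
    rwa [zero_add] at this
  set a := f 0 with ha
  set b := f' 0 with hb
  have hl : ∀ θ, HasDerivAt (fun θ => a * cos θ + b * sin θ) (-a * sin θ + b * cos θ) θ := by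
    intro θ
    have := ((hasDerivAt_cos θ).const_mul a).add ((hasDerivAt_sin θ).const_mul b)
    refine this.congr_deriv ?_
    ring
  have e1 := form_parts (f := f) (f' := f') (R := R) (g := f) (g' := f') hf' hfc hR hf hf'c pf' pf0
  have e2 := form_parts (f := f) (f' := f') (R := R) (g := fun θ => a * cos θ + b * sin θ)
    (g' := fun θ => -a * sin θ + b * cos θ) hf' hfc hR hl (by fun_prop) pf' (by simp)
  have e3 := form_linear a b hf hf'c pf0
  have e4 : form f f' (fun θ => a * cos θ + b * sin θ) (fun θ => -a * sin θ + b * cos θ) = 0 := by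
    rw [← e3]
    unfold form
    congr 1
    ext x
    ring
  have hsub : form f f' f f' = ∫ θ in (0:ℝ)..(2 * π), R θ * (f θ - (a * cos θ + b * sin θ)) := by
    have : ∫ θ in (0:ℝ)..(2 * π), R θ * (f θ - (a * cos θ + b * sin θ)) =
        (∫ θ in (0:ℝ)..(2 * π), R θ * f θ) -
          ∫ θ in (0:ℝ)..(2 * π), R θ * (a * cos θ + b * sin θ) := by
      rw [← intervalIntegral.integral_sub (Continuous.intervalIntegrable (by fun_prop) _ _)
        (Continuous.intervalIntegrable (by fun_prop) _ _)]
      congr 1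
      ext x
      ring
    rw [this, ← e1, ← e2, e4, sub_zero]
  rw [hsub]
  refine intervalIntegral.intervalIntegral_pos_of_pos_on
    (Continuous.intervalIntegrable (by fun_prop) _ _) ?_ (by positivity)
  intro x hx
  exact mul_pos (hRpos x) (above_tangent hf hf' hR hRpos pf x hx.1 hx.2)

/-- Minkowski's inequality, with the equality case. -/
theorem minkowski {f f' R g g' : ℝ → ℝ} (hf : ∀ θ, HasDerivAt f (f' θ) θ)
    (hf' : ∀ θ, HasDerivAt f' (R θ - f θ) θ) (hR : Continuous R) (hRpos : ∀ θ, 0 < R θ)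
    (pf : ∀ θ, f (θ + 2 * π) = f θ)
    (hg : ∀ θ, HasDerivAt g (g' θ) θ) (hg' : Continuous g') (pg : ∀ θ, g (θ + 2 * π) = g θ) :
    form f f' f f' * form g g' g g' ≤ form f f' g g' ^ 2 ∧
    (form f f' g g' ^ 2 = form f f' f f' * form g g' g g' →
      ∃ a b : ℝ, ∀ θ, g θ = form f f' g g' / form f f' f f' * f θ + a * cos θ + b * sin θ) := by
  have hf'c : Continuous f' := continuous_iff_continuousAt.2 fun x => (hf' x).continuousAt
  have hpos : 0 < f 0 + f π := by
    have := above_tangent hf hf' hR hRpos pf π pi_pos (by linarith [pi_pos])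
    rw [cos_pi, sin_pi] at this
    linarith
  have h0 := form_self_pos hf hf' hR hRpos pf
  have e1 : form f f' f f' = ∫ x in (0 : ℝ)..(2 * π), (f x ^ 2 - f' x ^ 2) := by
    unfold form; congr 1; ext x; ring
  have e2 : form g g' g g' = ∫ x in (0 : ℝ)..(2 * π), (g x ^ 2 - g' x ^ 2) := by
    unfold form; congr 1; ext x; ring
  obtain ⟨h1, h2⟩ := minkowski_core hf hf'c hg hg' pf pg hpos e1 h0 (Q := form f f' g g') rfl e2
  exact ⟨h1, fun h => h2 h.le⟩

end Pool.Agent.Helper16.Buoy
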