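import Mathlib

/-!
# A2. The rigidity ODE `G + G'' = c G⁻³`
-/

set_option autoImplicit false

open Set
open Real

namespace Pool.Agent.Helper16.Buoy

/-- Solutions of `z'' = -4 z`. -/
theorem ode_four {z z' : ℝ → ℝ} (hz : ∀ θ, HasDerivAt z (z' θ) θ)
    (hz' : ∀ θ, HasDerivAt z' (-4 * z θ) θ) (θ : ℝ) :
    z θ = z 0 * cos (2 * θ) + z' 0 / 2 * sin (2 * θ) := by
  have hc : ∀ θ : ℝ, HasDerivAt (fun x : ℝ => cos (2 * x)) (-sin (2 * θ) * 2) θ := fun θ => by
    have := (hasDerivAt_cos (2 * θ)).comp θ ((hasDerivAt_id θ).const_mul 2)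
    refine this.congr_deriv ?_
    ring
  have hs : ∀ θ : ℝ, HasDerivAt (fun x : ℝ => sin (2 * x)) (cos (2 * θ) * 2) θ := fun θ => by
    have := (hasDerivAt_sin (2 * θ)).comp θ ((hasDerivAt_id θ).const_mul 2)
    refine this.congr_deriv ?_
    ring
  have hα : ∀ x, HasDerivAt (fun x => z x * cos (2 * x) - z' x / 2 * sin (2 * x)) 0 x := by
    intro x
    have := ((hz x).mul (hc x)).sub (((hz' x).div_const 2).mul (hs x))
    refine this.congr_deriv ?_
    ring
  have hβ : ∀ x, HasDerivAt (fun x => z x * sin (2 * x) + z' x / 2 * cos (2 * x)) 0 x := by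
    intro x
    have := ((hz x).mul (hs x)).add (((hz' x).div_const 2).mul (hc x))
    refine this.congr_deriv ?_
    ring
  have h1 := is_const_of_deriv_eq_zero (fun x => (hα x).differentiableAt)
    (fun x => (hα x).deriv) θ 0
  have h2 := is_const_of_deriv_eq_zero (fun x => (hβ x).differentiableAt)
    (fun x => (hβ x).deriv) θ 0
  simp only [mul_zero, cos_zero, mul_one, sin_zero, sub_zero, zero_add] at h1 h2
  rw [← h1, ← h2]
  have h3 := sin_sq_add_cos_sq (2 * θ)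
  linear_combination (-z θ) * h3

/-- A positive solution of `G + G'' = c / G ^ 3` is the square root of a positive definite
quadratic form in `(cos θ, sin θ)`, and `c > 0`. -/
theorem ode_final {G G' : ℝ → ℝ} (c : ℝ) (hG : ∀ θ, HasDerivAt G (G' θ) θ)
    (hG' : ∀ θ, HasDerivAt G' (c / G θ ^ 3 - G θ) θ) (hpos : ∀ θ, 0 < G θ) :
    0 < c ∧ ∃ α β γ : ℝ, 0 < α ∧ β ^ 2 < α * γ ∧
      ∀ θ, G θ ^ 2 = α * cos θ ^ 2 + 2 * β * (cos θ * sin θ) + γ * sin θ ^ 2 := by
  -- `P = G²`, `P' = 2 G G'`, `P'' = 2 G'² + 2 c / G² - 2 G²`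
  have hP : ∀ θ, HasDerivAt (fun x => G x ^ 2) (2 * G θ * G' θ) θ := by
    intro θ
    have := (hG θ).pow 2
    refine this.congr_deriv ?_
    ring
  have hP' : ∀ θ, HasDerivAt (fun x => 2 * G x * G' x)
      (2 * G' θ ^ 2 + 2 * c / G θ ^ 2 - 2 * G θ ^ 2) θ := by
    intro θ
    have := ((hG θ).const_mul 2).mul (hG' θ)
    refine this.congr_deriv ?_
    have := (hpos θ).ne'
    field_simp
    ring
  have hK : ∀ θ, HasDerivAt
      (fun x => (2 * G' x ^ 2 + 2 * c / G x ^ 2 - 2 * G x ^ 2) + 4 * G x ^ 2) 0 θ := by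
    intro θ
    have hne := (hpos θ).ne'
    have h1 := ((hG' θ).pow 2).const_mul 2
    have h2 := (hasDerivAt_const θ (2 * c)).div ((hG θ).pow 2) (pow_ne_zero 2 hne)
    have h3 := ((hG θ).pow 2).const_mul 2
    have h4 := ((hG θ).pow 2).const_mul 4
    have := ((h1.add h2).sub h3).add h4
    refine this.congr_deriv ?_
    simp only [Pi.pow_apply]
    field_simp
    ring
  obtain ⟨q, hq⟩ : ∃ q : ℝ, ∀ θ,
      (2 * G' θ ^ 2 + 2 * c / G θ ^ 2 - 2 * G θ ^ 2) + 4 * G θ ^ 2 = 4 * q := by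
    refine ⟨((2 * G' 0 ^ 2 + 2 * c / G 0 ^ 2 - 2 * G 0 ^ 2) + 4 * G 0 ^ 2) / 4, fun θ => ?_⟩
    rw [is_const_of_deriv_eq_zero (fun x => (hK x).differentiableAt) (fun x => (hK x).deriv) θ 0]
    ring
  have hz : ∀ θ, HasDerivAt (fun x => G x ^ 2 - q) (2 * G θ * G' θ) θ := fun θ =>
    (hP θ).sub_const q
  have hz' : ∀ θ, HasDerivAt (fun x => 2 * G x * G' x) (-4 * (G θ ^ 2 - q)) θ := by
    intro θ
    refine (hP' θ).congr_deriv ?_
    have := hq θ
    linarith
  have hsol := ode_four hz hz'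
  have hform : ∀ θ, G θ ^ 2 =
      q + (G 0 ^ 2 - q) * cos (2 * θ) + (G 0 * G' 0) * sin (2 * θ) := by
    intro θ
    have := hsol θ
    linarith
  have hα : 0 < G 0 ^ 2 := pow_pos (hpos 0) 2
  -- the value of `c`
  have hcval : c = q ^ 2 - (G 0 ^ 2 - q) ^ 2 - (G 0 * G' 0) ^ 2 := by
    have h0 := hq 0
    have hne := (hpos 0).ne'
    field_simp at h0
    linear_combination (1 / 2) * h0
  -- positivity of the quadratic form
  have hdisc : (G 0 * G' 0) ^ 2 < G 0 ^ 2 * (2 * q - G 0 ^ 2) := by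
    -- pick the direction in which the form is smallest along `α x + β y = 0`
    set α : ℝ := G 0 ^ 2 with hαdef
    set β : ℝ := G 0 * G' 0 with hβdef
    -- `w = -β + α i`
    set w : ℂ := ⟨-β, α⟩ with hw
    have hwne : 0 < ‖w‖ := by
      rw [norm_pos_iff]
      intro h
      have := congrArg Complex.im h
      simp [hw] at this
      exact hα.ne' this
    have hn : ‖w‖ * cos (Complex.arg w) = -β := by rw [Complex.norm_mul_cos_arg]
    have hm : ‖w‖ * sin (Complex.arg w) = α := by rw [Complex.norm_mul_sin_arg]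
    have h1 := hform (Complex.arg w)
    have h2 : 0 < G (Complex.arg w) ^ 2 := pow_pos (hpos _) 2
    rw [cos_two_mul, sin_two_mul] at h1
    have h3 := sin_sq_add_cos_sq (Complex.arg w)
    have h4 : 0 < ‖w‖ ^ 2 * G (Complex.arg w) ^ 2 := by positivity
    have h5 : ‖w‖ ^ 2 * G (Complex.arg w) ^ 2 =
        α * (-β) ^ 2 + 2 * β * (-β * α) + (2 * q - α) * α ^ 2 := by
      calc ‖w‖ ^ 2 * G (Complex.arg w) ^ 2
          = α * (‖w‖ * cos (Complex.arg w)) ^ 2
            + 2 * β * ((‖w‖ * cos (Complex.arg w)) * (‖w‖ * sin (Complex.arg w)))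
            + (2 * q - α) * (‖w‖ * sin (Complex.arg w)) ^ 2 := by
            rw [h1]
            linear_combination (-(‖w‖ ^ 2 * (2 * q - α))) * h3
        _ = α * (-β) ^ 2 + 2 * β * (-β * α) + (2 * q - α) * α ^ 2 := by rw [hn, hm]
    rw [h5] at h4
    have h6 : α * (-β) ^ 2 + 2 * β * (-β * α) + (2 * q - α) * α ^ 2 =
        α * (α * (2 * q - α) - β ^ 2) := by ring
    rw [h6] at h4
    have := (mul_pos_iff_of_pos_left hα).1 h4
    linarith
  refine ⟨?_, G 0 ^ 2, G 0 * G' 0, 2 * q - G 0 ^ 2, hα, hdisc, fun θ => ?_⟩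
  · rw [hcval]
    nlinarith
  · rw [hform θ, cos_two_mul, sin_two_mul]
    have h3 := sin_sq_add_cos_sq θ
    linear_combination (2 * q - G 0 ^ 2) * (-h3)

end Pool.Agent.Helper16.Buoy
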