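import Mathlib

/-!
# A3a. Parametric integrals: continuity, Leibniz rule, derivative along the diagonal
-/

open MeasureTheory Set Filter Topology

namespace Pool.Agent.Helper16.Buoy

/-- Continuity of a parametric integral. -/
theorem param_cont {X : Type*} [TopologicalSpace X] [FirstCountableTopology X]
    [LocallyCompactSpace X] {F : ℝ → X → ℝ} {U : Set X} (hU : IsOpen U)
    (hF : ContinuousOn (fun p : ℝ × X => F p.1 p.2) (univ ×ˢ U)) (a b : ℝ) :
    ContinuousOn (fun x => ∫ θ in a..b, F θ x) U := by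
  have : LocallyCompactSpace U := hU.locallyCompactSpace
  rw [continuousOn_iff_continuous_domRestrict]
  have h : Continuous (Function.uncurry (fun (x : U) (θ : ℝ) => F θ x)) := by
    rw [continuous_iff_continuousAt]
    rintro ⟨⟨x, hx⟩, θ⟩
    have h1 : ContinuousAt (fun p : ℝ × X => F p.1 p.2) (θ, x) :=
      hF.continuousAt ((isOpen_univ.prod hU).mem_nhds ⟨mem_univ _, hx⟩)
    exact ContinuousAt.comp (f := fun p : U × ℝ => (p.2, (p.1 : X)))
      (g := fun p : ℝ × X => F p.1 p.2) h1 (by fun_prop)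
  exact intervalIntegral.continuous_parametric_intervalIntegral_of_continuous' h a b

/-- Continuity in `θ` at fixed parameter. -/
theorem slice_cont {X : Type*} [TopologicalSpace X] {F : ℝ → X → ℝ} {U : Set X} (hU : IsOpen U)
    (hF : ContinuousOn (fun p : ℝ × X => F p.1 p.2) (univ ×ˢ U)) {x : X} (hx : x ∈ U) :
    Continuous (fun θ => F θ x) := by
  rw [continuous_iff_continuousAt]
  intro θ
  have h1 : ContinuousAt (fun p : ℝ × X => F p.1 p.2) (θ, x) :=
    hF.continuousAt ((isOpen_univ.prod hU).mem_nhds ⟨mem_univ _, hx⟩)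
  exact ContinuousAt.comp (f := fun θ : ℝ => (θ, x))
      (g := fun p : ℝ × X => F p.1 p.2) h1 (by fun_prop)

/-- Leibniz rule. -/
theorem leibniz {F F' : ℝ → ℝ → ℝ} {U : Set ℝ} (hU : IsOpen U) {s0 : ℝ} (hs0 : s0 ∈ U)
    (hd : ∀ θ, ∀ s ∈ U, HasDerivAt (fun s => F θ s) (F' θ s) s)
    (hF : ∀ s ∈ U, Continuous (fun θ => F θ s))
    (hF' : ContinuousOn (fun p : ℝ × ℝ => F' p.1 p.2) (univ ×ˢ U)) (a b : ℝ) :
    HasDerivAt (fun s => ∫ θ in a..b, F θ s) (∫ θ in a..b, F' θ s0) s0 := by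
  obtain ⟨ε, hε, hb⟩ := Metric.isOpen_iff.1 hU s0 hs0
  have hb2 : Metric.closedBall s0 (ε / 2) ⊆ U :=
    (Metric.closedBall_subset_ball (by linarith)).trans hb
  have hcomp : IsCompact (uIcc a b ×ˢ Metric.closedBall s0 (ε / 2)) :=
    isCompact_uIcc.prod (isCompact_closedBall _ _)
  obtain ⟨C, hC⟩ := hcomp.exists_bound_of_continuousOn
    (hF'.mono (prod_mono (subset_univ _) hb2))
  have hcF' : Continuous (fun θ => F' θ s0) := slice_cont hU hF' hs0
  refine (intervalIntegral.hasDerivAt_integral_of_dominated_loc_of_deriv_le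
    (F := fun s θ => F θ s) (F' := fun s θ => F' θ s) (bound := fun _ => C)
    (s := Metric.ball s0 (ε / 2)) (Metric.ball_mem_nhds _ (by positivity)) ?_ ?_ ?_ ?_ ?_ ?_).2
  · filter_upwards [Metric.ball_mem_nhds s0 (by positivity : 0 < ε / 2)] with s hs
    exact (hF s (hb2 (Metric.ball_subset_closedBall hs))).aestronglyMeasurable
  · exact (hF s0 hs0).intervalIntegrable _ _
  · exact hcF'.aestronglyMeasurable
  · refine Eventually.of_forall (fun θ hθ s hs => ?_)
    exact hC (θ, s) ⟨uIoc_subset_uIcc hθ, Metric.ball_subset_closedBall hs⟩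
  · exact intervalIntegrable_const
  · refine Eventually.of_forall (fun θ _ s hs => ?_)
    exact hd θ s (hb2 (Metric.ball_subset_closedBall hs))

/-- Derivative along the diagonal. -/
theorem diag_deriv {P E : ℝ → ℝ → ℝ} {U : Set ℝ} (hU : IsOpen U) {s0 b : ℝ} (hs0 : s0 ∈ U)
    (h1 : ∀ s' ∈ U, ∀ s ∈ U, HasDerivAt (fun s => P s s') (E s s') s)
    (hE : ContinuousAt (fun p : ℝ × ℝ => E p.1 p.2) (s0, s0))
    (h2 : HasDerivAt (fun s' => P s0 s') b s0) :
    HasDerivAt (fun s => P s s) (E s0 s0 + b) s0 := by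
  have key : HasDerivAt (fun s => P s s - P s0 s) (E s0 s0) s0 := by
    rw [hasDerivAt_iff_isLittleO, Asymptotics.isLittleO_iff]
    intro c hc
    have h3 := Metric.continuousAt_iff.1 hE c hc
    obtain ⟨δ, hδ, h3⟩ := h3
    obtain ⟨ε, hε, hb⟩ := Metric.isOpen_iff.1 hU s0 hs0
    filter_upwards [Metric.ball_mem_nhds s0 (lt_min hδ hε)] with s hs
    have hsU : s ∈ U := hb (Metric.ball_subset_ball (min_le_right _ _) hs)
    have hsub : ∀ x ∈ uIcc s0 s, x ∈ Metric.ball s0 (min δ ε) := by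
      intro x hx
      have h5 : |x - s0| ≤ |s - s0| := by
        rcases le_total s0 s with h | h
        · rw [uIcc_of_le h] at hx
          rw [abs_of_nonneg (by linarith [hx.1]), abs_of_nonneg (by linarith)]; linarith [hx.2]
        · rw [uIcc_of_ge h] at hx
          rw [abs_of_nonpos (by linarith [hx.2]), abs_of_nonpos (by linarith)]; linarith [hx.1]
      rw [Metric.mem_ball, Real.dist_eq] at hs ⊢
      linarith
    have h4 : ∀ x ∈ uIcc s0 s, HasDerivWithinAt (fun x => P x s - x * E s0 s0)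
        (E x s - E s0 s0) (uIcc s0 s) x := by
      intro x hx
      have hxU : x ∈ U := hb (Metric.ball_subset_ball (min_le_right _ _) (hsub x hx))
      have := (h1 s hsU x hxU).sub ((hasDerivAt_id' x).mul_const (E s0 s0))
      rw [one_mul] at this
      exact this.hasDerivWithinAt
    have h5 : ∀ x ∈ uIcc s0 s, ‖E x s - E s0 s0‖ ≤ c := by
      intro x hx
      have hx1 := hsub x hx
      have : dist ((x, s) : ℝ × ℝ) (s0, s0) < δ := by
        rw [Prod.dist_eq]
        exact max_lt (lt_of_lt_of_le hx1 (min_le_left _ _)) (lt_of_lt_of_le hs (min_le_left _ _))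
      exact (h3 this).le
    have h6 := (convex_uIcc s0 s).norm_image_sub_le_of_norm_hasDerivWithin_le h4 h5
      left_mem_uIcc right_mem_uIcc
    have e : P s s - P s0 s - (P s0 s0 - P s0 s0) - (s - s0) • E s0 s0
        = (P s s - s * E s0 s0) - (P s0 s - s0 * E s0 s0) := by
      rw [smul_eq_mul]; ring
    rw [e]
    exact h6
  have h7 := key.add h2
  refine h7.congr_of_eventuallyEq (Eventually.of_forall fun s => ?_)
  simp

/-- Joint continuity from continuity in `θ` and a bounded `s`-derivative. -/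
theorem joint_cont {H T : ℝ → ℝ → ℝ} {A D : ℝ}
    (hd : ∀ θ, ∀ s ∈ Ioo 0 A, HasDerivAt (fun s => H θ s) (T θ s) s)
    (hT : ∀ θ, ∀ s ∈ Ioo 0 A, |T θ s| ≤ D)
    (hc : ∀ s ∈ Ioo 0 A, Continuous (fun θ => H θ s)) :
    ContinuousOn (fun p : ℝ × ℝ => H p.1 p.2) (univ ×ˢ Ioo 0 A) := by
  rintro ⟨θ0, s0⟩ ⟨-, hs0⟩
  apply ContinuousAt.continuousWithinAt
  have hs0' : s0 ∈ Ioo 0 A := hs0
  have hb : ∀ θ, ∀ s ∈ Ioo 0 A, |H θ s - H θ s0| ≤ D * |s - s0| := by
    intro θ s hs
    exact (convex_Ioo 0 A).norm_image_sub_le_of_norm_hasDerivWithin_le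
      (fun x hx => (hd θ x hx).hasDerivWithinAt) (fun x hx => hT θ x hx) hs0' hs
  rw [ContinuousAt]
  have h1 : Tendsto (fun p : ℝ × ℝ => H p.1 s0) (𝓝 (θ0, s0)) (𝓝 (H θ0 s0)) :=
    ((hc s0 hs0').comp continuous_fst).continuousAt
  have h2 : Tendsto (fun p : ℝ × ℝ => H p.1 p.2 - H p.1 s0) (𝓝 (θ0, s0)) (𝓝 0) := by
    have h3 : Tendsto (fun p : ℝ × ℝ => D * |p.2 - s0|) (𝓝 (θ0, s0)) (𝓝 0) := by
      have : Continuous (fun p : ℝ × ℝ => D * |p.2 - s0|) := by fun_prop
      have h4 := this.tendsto (θ0, s0)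
      simpa using h4
    apply squeeze_zero_norm' _ h3
    have hev : ∀ᶠ p : ℝ × ℝ in 𝓝 (θ0, s0), p.2 ∈ Ioo 0 A :=
      (continuous_snd.continuousAt (x := (θ0, s0))).preimage_mem_nhds (isOpen_Ioo.mem_nhds hs0')
    filter_upwards [hev] with p hp
    exact hb p.1 p.2 hp
  have h5 := h2.add h1
  simpa using h5

end Pool.Agent.Helper16.Buoy
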