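import Pool.Agent.Helper16.Buoy.A1
import Pool.Agent.Helper16.Buoy.A3a

/-!
# A3b. The flow calculus: `ρ' = 2 Q`, `Q' = e - S / 12`, `(e + S / 4)' = 0`
-/

open MeasureTheory Set Filter Topology
open Real

namespace Pool.Agent.Helper16.Buoy

/-- Analytic data of the flow of caps of a convex body, as functions of `(θ, s)`. -/
structure Flow (A D : ℝ) (H k τ m l : ℝ → ℝ → ℝ) : Prop where
  A_pos : 0 < A
  Hs : ∀ θ, ∀ s ∈ Ioo 0 A, HasDerivAt (fun s => H θ s) (τ θ s) s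
  ks : ∀ θ, ∀ s ∈ Ioo 0 A, HasDerivAt (fun s => k θ s) (m θ s) s
  τs : ∀ θ, ∀ s ∈ Ioo 0 A, HasDerivAt (fun s => τ θ s) (-1 / l θ s) s
  Hθ : ∀ θ, ∀ s ∈ Ioo 0 A, HasDerivAt (fun θ => H θ s) (k θ s) θ
  kθ : ∀ θ, ∀ s ∈ Ioo 0 A, HasDerivAt (fun θ => k θ s) (l θ s ^ 3 / 12 - H θ s) θ
  τθ : ∀ θ, ∀ s ∈ Ioo 0 A, HasDerivAt (fun θ => τ θ s) (m θ s) θ
  lpos : ∀ θ, ∀ s ∈ Ioo 0 A, 0 < l θ s
  τc : ContinuousOn (fun p : ℝ × ℝ => τ p.1 p.2) (univ ×ˢ Ioo 0 A)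
  mc : ContinuousOn (fun p : ℝ × ℝ => m p.1 p.2) (univ ×ˢ Ioo 0 A)
  lc : ContinuousOn (fun p : ℝ × ℝ => l p.1 p.2) (univ ×ˢ Ioo 0 A)
  bτ : ∀ θ, ∀ s ∈ Ioo 0 A, |τ θ s| ≤ D
  bm : ∀ θ, ∀ s ∈ Ioo 0 A, |m θ s| ≤ D
  bl : ∀ θ, ∀ s ∈ Ioo 0 A, l θ s ≤ D
  bH : ∀ θ, ∀ s ∈ Ioo 0 A, |H θ s| ≤ D * s
  bk : ∀ θ, ∀ s ∈ Ioo 0 A, |k θ s| ≤ D * s
  perH : ∀ θ, ∀ s ∈ Ioo 0 A, H (θ + 2 * π) s = H θ s
  perk : ∀ θ, ∀ s ∈ Ioo 0 A, k (θ + 2 * π) s = k θ s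
  perτ : ∀ θ, ∀ s ∈ Ioo 0 A, τ (θ + 2 * π) s = τ θ s
  symH : ∃ a b : ℝ, ∀ θ, ∀ s ∈ Ioo 0 A, H (θ + π) (A - s) = H θ s - (a * cos θ + b * sin θ)

namespace Flow

variable {A D : ℝ} {H k τ m l : ℝ → ℝ → ℝ}

/-- `ρ = ⟨H, H⟩`. -/
noncomputable def rho (H k : ℝ → ℝ → ℝ) (s : ℝ) : ℝ :=
  form (fun θ => H θ s) (fun θ => k θ s) (fun θ => H θ s) (fun θ => k θ s)

/-- `⟨f(s), g(s')⟩`. -/
noncomputable def form2 (f f' g g' : ℝ → ℝ → ℝ) (s s' : ℝ) : ℝ :=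
  form (fun θ => f θ s) (fun θ => f' θ s) (fun θ => g θ s') (fun θ => g' θ s')

/-- `Q = ⟨H, τ⟩`. -/
noncomputable def QQ (H k τ m : ℝ → ℝ → ℝ) (s : ℝ) : ℝ := form2 H k τ m s s

/-- `e = ⟨τ, τ⟩`. -/
noncomputable def ee (τ m : ℝ → ℝ → ℝ) (s : ℝ) : ℝ := form2 τ m τ m s s

/-- `S = ∫ l²`. -/
noncomputable def SS (l : ℝ → ℝ → ℝ) (s : ℝ) : ℝ := ∫ θ in (0:ℝ)..(2 * π), l θ s ^ 2

theorem Hc (F : Flow A D H k τ m l) :
    ContinuousOn (fun p : ℝ × ℝ => H p.1 p.2) (univ ×ˢ Ioo 0 A) :=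
  joint_cont F.Hs F.bτ (fun s hs => continuous_iff_continuousAt.2
    (fun θ => (F.Hθ θ s hs).continuousAt))

theorem kc (F : Flow A D H k τ m l) :
    ContinuousOn (fun p : ℝ × ℝ => k p.1 p.2) (univ ×ˢ Ioo 0 A) :=
  joint_cont F.ks F.bm (fun s hs => continuous_iff_continuousAt.2
    (fun θ => (F.kθ θ s hs).continuousAt))

theorem cH (F : Flow A D H k τ m l) {s : ℝ} (hs : s ∈ Ioo 0 A) : Continuous (fun θ => H θ s) :=
  slice_cont isOpen_Ioo F.Hc hs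
theorem ck (F : Flow A D H k τ m l) {s : ℝ} (hs : s ∈ Ioo 0 A) : Continuous (fun θ => k θ s) :=
  slice_cont isOpen_Ioo F.kc hs
theorem cτ (F : Flow A D H k τ m l) {s : ℝ} (hs : s ∈ Ioo 0 A) : Continuous (fun θ => τ θ s) :=
  slice_cont isOpen_Ioo F.τc hs
theorem cm (F : Flow A D H k τ m l) {s : ℝ} (hs : s ∈ Ioo 0 A) : Continuous (fun θ => m θ s) :=
  slice_cont isOpen_Ioo F.mc hs
theorem cl (F : Flow A D H k τ m l) {s : ℝ} (hs : s ∈ Ioo 0 A) : Continuous (fun θ => l θ s) :=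
  slice_cont isOpen_Ioo F.lc hs

theorem rho_deriv (F : Flow A D H k τ m l) {s0 : ℝ} (hs0 : s0 ∈ Ioo 0 A) :
    HasDerivAt (rho H k) (2 * QQ H k τ m s0) s0 := by
  have h := leibniz (F := fun θ s => H θ s * H θ s - k θ s * k θ s)
    (F' := fun θ s => 2 * (H θ s * τ θ s - k θ s * m θ s)) isOpen_Ioo hs0
    (fun θ s hs => by
      have := ((F.Hs θ s hs).mul (F.Hs θ s hs)).sub ((F.ks θ s hs).mul (F.ks θ s hs))
      refine this.congr_deriv ?_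
      ring)
    (fun s hs => ((F.cH hs).mul (F.cH hs)).sub ((F.ck hs).mul (F.ck hs)))
    (continuousOn_const.mul ((F.Hc.mul F.τc).sub (F.kc.mul F.mc))) 0 (2 * π)
  refine h.congr_deriv ?_
  rw [intervalIntegral.integral_const_mul]; rfl

/-- Joint continuity of a product of values at two parameters. -/
theorem two_cont {f g : ℝ → ℝ → ℝ}
    (hf : ContinuousOn (fun p : ℝ × ℝ => f p.1 p.2) (univ ×ˢ Ioo 0 A))
    (hg : ContinuousOn (fun p : ℝ × ℝ => g p.1 p.2) (univ ×ˢ Ioo 0 A)) :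
    ContinuousOn (fun p : ℝ × (ℝ × ℝ) => f p.1 p.2.1 * g p.1 p.2.2)
      (univ ×ˢ (Ioo 0 A ×ˢ Ioo 0 A)) := by
  apply ContinuousOn.mul
  · exact hf.comp (f := fun p : ℝ × (ℝ × ℝ) => (p.1, p.2.1)) (by fun_prop)
      (fun p hp => ⟨mem_univ _, hp.2.1⟩)
  · exact hg.comp (f := fun p : ℝ × (ℝ × ℝ) => (p.1, p.2.2)) (by fun_prop)
      (fun p hp => ⟨mem_univ _, hp.2.2⟩)

theorem E_cont (F : Flow A D H k τ m l) {s0 : ℝ} (hs0 : s0 ∈ Ioo 0 A) :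
    ContinuousAt (fun p : ℝ × ℝ => form2 τ m τ m p.1 p.2) (s0, s0) := by
  have h := param_cont (F := fun (θ : ℝ) (p : ℝ × ℝ) => τ θ p.1 * τ θ p.2 - m θ p.1 * m θ p.2)
    (isOpen_Ioo.prod isOpen_Ioo) ((two_cont F.τc F.τc).sub (two_cont F.mc F.mc)) 0 (2 * π)
  exact h.continuousAt ((isOpen_Ioo.prod isOpen_Ioo).mem_nhds ⟨hs0, hs0⟩)

theorem P_eq (F : Flow A D H k τ m l) {s s' : ℝ} (hs : s ∈ Ioo 0 A) (hs' : s' ∈ Ioo 0 A) :
    form2 H k τ m s s' = ∫ θ in (0:ℝ)..(2 * π), l θ s ^ 3 / 12 * τ θ s' := by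
  apply form_parts (R := fun θ => l θ s ^ 3 / 12) (fun θ => F.kθ θ s hs) (F.cH hs)
    (((F.cl hs).pow 3).div_const 12) (fun θ => F.τθ θ s' hs') (F.cm hs')
  · have := F.perk 0 s hs; rwa [zero_add] at this
  · have := F.perτ 0 s' hs'; rwa [zero_add] at this

theorem P_deriv (F : Flow A D H k τ m l) {s s' : ℝ} (hs : s ∈ Ioo 0 A) (hs' : s' ∈ Ioo 0 A) :
    HasDerivAt (fun s => form2 H k τ m s s') (form2 τ m τ m s s') s := by
  have h := leibniz (F := fun θ s => H θ s * τ θ s' - k θ s * m θ s')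
    (F' := fun θ s => τ θ s * τ θ s' - m θ s * m θ s') isOpen_Ioo hs
    (fun θ s hs => ((F.Hs θ s hs).mul_const _).sub ((F.ks θ s hs).mul_const _))
    (fun s hs => ((F.cH hs).mul (F.cτ hs')).sub ((F.ck hs).mul (F.cm hs')))
    ((F.τc.mul (((F.cτ hs').comp continuous_fst).continuousOn)).sub
      (F.mc.mul (((F.cm hs').comp continuous_fst).continuousOn))) 0 (2 * π)
  exact h

theorem QQ_deriv (F : Flow A D H k τ m l) {s0 : ℝ} (hs0 : s0 ∈ Ioo 0 A) :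
    HasDerivAt (QQ H k τ m) (ee τ m s0 - SS l s0 / 12) s0 := by
  have h2 : HasDerivAt (fun s' => form2 H k τ m s0 s') (-SS l s0 / 12) s0 := by
    have h := leibniz (F := fun θ s' => l θ s0 ^ 3 / 12 * τ θ s')
      (F' := fun θ s' => l θ s0 ^ 3 / 12 * (-1 / l θ s')) isOpen_Ioo hs0
      (fun θ s hs => (F.τs θ s hs).const_mul _)
      (fun s hs => (((F.cl hs0).pow 3).div_const 12).mul (F.cτ hs))
      (((((F.cl hs0).comp continuous_fst).pow 3).div_const 12).continuousOn.mul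
        (continuousOn_const.div F.lc (fun p hp => (F.lpos p.1 p.2 hp.2).ne'))) 0 (2 * π)
    have h3 : HasDerivAt (fun s' => ∫ θ in (0:ℝ)..(2 * π), l θ s0 ^ 3 / 12 * τ θ s')
        (-SS l s0 / 12) s0 := by
      refine h.congr_deriv ?_
      have e : ∀ θ, l θ s0 ^ 3 / 12 * (-1 / l θ s0) = (-1 / 12) * (l θ s0 ^ 2) := by
        intro θ
        have := F.lpos θ s0 hs0
        field_simp
      simp_rw [e]
      rw [intervalIntegral.integral_const_mul]; unfold SS; ring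
    refine h3.congr_of_eventuallyEq ?_
    filter_upwards [isOpen_Ioo.mem_nhds hs0] with s' hs'
    exact F.P_eq hs0 hs'
  have h := diag_deriv (P := fun s s' => form2 H k τ m s s') (E := fun s s' => form2 τ m τ m s s')
    isOpen_Ioo hs0 (fun s' hs' s hs => F.P_deriv hs hs') (F.E_cont hs0) h2
  refine h.congr_deriv ?_
  unfold ee; ring

theorem form2_comm (f f' : ℝ → ℝ → ℝ) (s s' : ℝ) : form2 f f' f f' s s' = form2 f f' f f' s' s := by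
  unfold form2 form
  congr 1; funext θ; ring

theorem E_eq (F : Flow A D H k τ m l) {ls : ℝ → ℝ → ℝ}
    (hls : ∀ θ, ∀ s ∈ Ioo 0 A, HasDerivAt (fun s => l θ s) (ls θ s) s)
    (hlc : ContinuousOn (fun p : ℝ × ℝ => ls p.1 p.2) (univ ×ˢ Ioo 0 A))
    {s s' : ℝ} (hs : s ∈ Ioo 0 A) (hs' : s' ∈ Ioo 0 A) :
    form2 τ m τ m s s' = ∫ θ in (0:ℝ)..(2 * π), (l θ s ^ 2 * ls θ s / 4) * τ θ s' := by
  have h := leibniz (F := fun θ s => l θ s ^ 3 / 12 * τ θ s')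
    (F' := fun θ s => (l θ s ^ 2 * ls θ s / 4) * τ θ s') isOpen_Ioo hs
    (fun θ s hs => by
      have := (((hls θ s hs).pow 3).div_const 12).mul_const (τ θ s')
      refine this.congr_deriv ?_
      push_cast; ring)
    (fun s hs => (((F.cl hs).pow 3).div_const 12).mul (F.cτ hs'))
    ((((F.lc.pow 2).mul hlc).div_const 4).mul (((F.cτ hs').comp continuous_fst).continuousOn))
    0 (2 * π)
  have h2 : HasDerivAt (fun s => form2 H k τ m s s')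
      (∫ θ in (0:ℝ)..(2 * π), (l θ s ^ 2 * ls θ s / 4) * τ θ s') s := by
    refine h.congr_of_eventuallyEq ?_
    filter_upwards [isOpen_Ioo.mem_nhds hs] with x hx
    exact F.P_eq hx hs'
  exact (F.P_deriv hs hs').unique h2

theorem ee_deriv (F : Flow A D H k τ m l) {ls : ℝ → ℝ → ℝ}
    (hls : ∀ θ, ∀ s ∈ Ioo 0 A, HasDerivAt (fun s => l θ s) (ls θ s) s)
    (hlc : ContinuousOn (fun p : ℝ × ℝ => ls p.1 p.2) (univ ×ˢ Ioo 0 A))
    {s0 : ℝ} (hs0 : s0 ∈ Ioo 0 A) :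
    HasDerivAt (ee τ m) (-(∫ θ in (0:ℝ)..(2 * π), l θ s0 * ls θ s0) / 2) s0 := by
  have hw : ContinuousOn (fun p : ℝ × ℝ => l p.1 p.2 ^ 2 * ls p.1 p.2 / 4) (univ ×ˢ Ioo 0 A) :=
    ((F.lc.pow 2).mul hlc).div_const 4
  have hcw : ∀ s ∈ Ioo 0 A, Continuous (fun θ => l θ s ^ 2 * ls θ s / 4) := fun s hs =>
    slice_cont (F := fun θ s => l θ s ^ 2 * ls θ s / 4) isOpen_Ioo hw hs
  -- derivative in the second variable
  have hd2 : ∀ s ∈ Ioo 0 A, ∀ s' ∈ Ioo 0 A, HasDerivAt (fun s' => form2 τ m τ m s s')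
      (∫ θ in (0:ℝ)..(2 * π), (l θ s ^ 2 * ls θ s / 4) * (-1 / l θ s')) s' := by
    intro s hs s' hs'
    have h := leibniz (F := fun θ s' => (l θ s ^ 2 * ls θ s / 4) * τ θ s')
      (F' := fun θ s' => (l θ s ^ 2 * ls θ s / 4) * (-1 / l θ s')) isOpen_Ioo hs'
      (fun θ s hs => (F.τs θ s hs).const_mul _)
      (fun s' hs' => (hcw s hs).mul (F.cτ hs'))
      ((((hcw s hs).comp continuous_fst).continuousOn).mul
        (continuousOn_const.div F.lc (fun p hp => (F.lpos p.1 p.2 hp.2).ne'))) 0 (2 * π)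
    refine h.congr_of_eventuallyEq ?_
    filter_upwards [isOpen_Ioo.mem_nhds hs'] with x hx
    exact F.E_eq hls hlc hs hx
  -- derivative in the first variable
  have hd1 : ∀ s' ∈ Ioo 0 A, ∀ s ∈ Ioo 0 A, HasDerivAt (fun s => form2 τ m τ m s s')
      (∫ θ in (0:ℝ)..(2 * π), (l θ s' ^ 2 * ls θ s' / 4) * (-1 / l θ s)) s := by
    intro s' hs' s hs
    have h := hd2 s' hs' s hs
    refine h.congr_of_eventuallyEq (Eventually.of_forall fun x => ?_)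
    exact form2_comm _ _ _ _
  have hcont : ContinuousAt (fun p : ℝ × ℝ =>
      ∫ θ in (0:ℝ)..(2 * π), (l θ p.2 ^ 2 * ls θ p.2 / 4) * (-1 / l θ p.1)) (s0, s0) := by
    have hinv : ContinuousOn (fun p : ℝ × ℝ => -1 / l p.1 p.2) (univ ×ˢ Ioo 0 A) :=
      continuousOn_const.div F.lc (fun p hp => (F.lpos p.1 p.2 hp.2).ne')
    have h := param_cont (F := fun (θ : ℝ) (p : ℝ × ℝ) =>
      (-1 / l θ p.1) * (l θ p.2 ^ 2 * ls θ p.2 / 4))
      (isOpen_Ioo.prod isOpen_Ioo)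
      (two_cont (f := fun θ s => -1 / l θ s) (g := fun θ s => l θ s ^ 2 * ls θ s / 4) hinv hw)
      0 (2 * π)
    have h2 := h.continuousAt ((isOpen_Ioo.prod isOpen_Ioo).mem_nhds
      (show ((s0, s0) : ℝ × ℝ) ∈ Ioo 0 A ×ˢ Ioo 0 A from ⟨hs0, hs0⟩))
    simpa only [mul_comm] using h2
  have h := diag_deriv (P := fun s s' => form2 τ m τ m s s')
    (E := fun s s' => ∫ θ in (0:ℝ)..(2 * π), (l θ s' ^ 2 * ls θ s' / 4) * (-1 / l θ s))
    isOpen_Ioo hs0 hd1 hcont (hd2 s0 hs0 s0 hs0)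
  refine h.congr_deriv ?_
  have e : ∀ θ, (l θ s0 ^ 2 * ls θ s0 / 4) * (-1 / l θ s0) = (-1 / 4) * (l θ s0 * ls θ s0) := by
    intro θ
    have := F.lpos θ s0 hs0
    field_simp
  simp_rw [e]
  rw [intervalIntegral.integral_const_mul]; ring

theorem SS_deriv (F : Flow A D H k τ m l) {ls : ℝ → ℝ → ℝ}
    (hls : ∀ θ, ∀ s ∈ Ioo 0 A, HasDerivAt (fun s => l θ s) (ls θ s) s)
    (hlc : ContinuousOn (fun p : ℝ × ℝ => ls p.1 p.2) (univ ×ˢ Ioo 0 A))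
    {s0 : ℝ} (hs0 : s0 ∈ Ioo 0 A) :
    HasDerivAt (SS l) (2 * ∫ θ in (0:ℝ)..(2 * π), l θ s0 * ls θ s0) s0 := by
  have h := leibniz (F := fun θ s => l θ s ^ 2)
    (F' := fun θ s => 2 * (l θ s * ls θ s)) isOpen_Ioo hs0
    (fun θ s hs => by
      have := (hls θ s hs).pow 2
      refine this.congr_deriv ?_
      push_cast; ring)
    (fun s hs => (F.cl hs).pow 2)
    (continuousOn_const.mul (F.lc.mul hlc)) 0 (2 * π)
  refine h.congr_deriv ?_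
  rw [intervalIntegral.integral_const_mul]

theorem SS_cont (F : Flow A D H k τ m l) : ContinuousOn (SS l) (Ioo 0 A) :=
  param_cont (F := fun θ s => l θ s ^ 2) isOpen_Ioo (F.lc.pow 2) 0 (2 * π)

/-- The conserved energy. -/
theorem energy (F : Flow A D H k τ m l) {ls : ℝ → ℝ → ℝ}
    (hls : ∀ θ, ∀ s ∈ Ioo 0 A, HasDerivAt (fun s => l θ s) (ls θ s) s)
    (hlc : ContinuousOn (fun p : ℝ × ℝ => ls p.1 p.2) (univ ×ˢ Ioo 0 A))
    {s s' : ℝ} (hs : s ∈ Ioo 0 A) (hs' : s' ∈ Ioo 0 A) :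
    ee τ m s + SS l s / 4 = ee τ m s' + SS l s' / 4 := by
  have hd : ∀ x ∈ Ioo 0 A, HasDerivWithinAt (fun s => ee τ m s + SS l s / 4) 0 (Ioo 0 A) x := by
    intro x hx
    have h := (F.ee_deriv hls hlc hx).add ((F.SS_deriv hls hlc hx).div_const 4)
    refine (h.congr_deriv ?_).hasDerivWithinAt
    ring
  have h := (convex_Ioo 0 A).norm_image_sub_le_of_norm_hasDerivWithin_le (C := 0) hd
    (fun x _ => by simp) hs' hs
  rw [zero_mul] at h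
  have := norm_le_zero_iff.1 h
  linarith

end Flow

end Pool.Agent.Helper16.Buoy
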