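import Pool.Agent.Helper16.Buoy.A3b

/-!
# A3c. Limits of `ρ, Q, e, S` as `s → 0`
-/

open MeasureTheory Set Filter Topology
open Real

namespace Pool.Agent.Helper16.Buoy

/-- dominated convergence on `[0, 2π]` as `s → 0+` -/
theorem dct {A C : ℝ} (hA : 0 < A) {F : ℝ → ℝ → ℝ} {f : ℝ → ℝ}
    (hc : ∀ s ∈ Ioo 0 A, Continuous (fun θ => F θ s))
    (hb : ∀ θ ∈ Icc 0 (2 * π), ∀ s ∈ Ioo 0 A, |F θ s| ≤ C)
    (hl : ∀ θ, Tendsto (fun s => F θ s) (𝓝[>] 0) (𝓝 (f θ))) :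
    Tendsto (fun s => ∫ θ in (0:ℝ)..(2 * π), F θ s) (𝓝[>] 0)
      (𝓝 (∫ θ in (0:ℝ)..(2 * π), f θ)) := by
  have h2pi : (0:ℝ) ≤ 2 * π := by positivity
  refine intervalIntegral.tendsto_integral_filter_of_dominated_convergence (fun _ => C) ?_ ?_ ?_ ?_
  · filter_upwards [Ioo_mem_nhdsGT hA] with s hs
    exact (hc s hs).aestronglyMeasurable
  · filter_upwards [Ioo_mem_nhdsGT hA] with s hs
    refine Eventually.of_forall fun θ hθ => ?_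
    rw [uIoc_of_le h2pi] at hθ
    exact hb θ ⟨hθ.1.le, hθ.2⟩ s hs
  · exact intervalIntegrable_const
  · exact Eventually.of_forall fun θ _ => hl θ

/-- a function with bounded derivative of size `O(s)`: quotient limit -/
theorem quot_lim {A D : ℝ} (hA : 0 < A) {f g : ℝ → ℝ} {c : ℝ}
    (hd : ∀ s ∈ Ioo 0 A, HasDerivAt f (g s) s) (hb : ∀ s ∈ Ioo 0 A, |f s| ≤ D * s)
    (hg : Tendsto g (𝓝[>] 0) (𝓝 c)) : Tendsto (fun s => f s / s) (𝓝[>] 0) (𝓝 c) := by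
  have hid : Tendsto (fun s : ℝ => s) (𝓝[>] 0) (𝓝 0) := tendsto_id.mono_left nhdsWithin_le_nhds
  refine HasDerivAt.lhopital_zero_nhdsGT (f' := g) (g' := fun _ => 1) ?_ ?_ ?_ ?_ hid ?_
  · filter_upwards [Ioo_mem_nhdsGT hA] with s hs
    exact hd s hs
  · exact Eventually.of_forall fun s => hasDerivAt_id s
  · exact Eventually.of_forall fun s => one_ne_zero
  · have h1 : Tendsto (fun s : ℝ => D * s) (𝓝[>] 0) (𝓝 0) := by
      have := hid.const_mul D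
      rwa [mul_zero] at this
    refine squeeze_zero_norm' ?_ h1
    filter_upwards [Ioo_mem_nhdsGT hA] with s hs
    exact hb s hs
  · refine hg.congr fun s => ?_
    rw [div_one]

namespace Flow

variable {A D : ℝ} {H k τ m l : ℝ → ℝ → ℝ}

theorem H_lim (F : Flow A D H k τ m l) {h : ℝ → ℝ}
    (hτ : ∀ θ, Tendsto (fun s => τ θ s) (𝓝[>] 0) (𝓝 (h θ))) (θ : ℝ) :
    Tendsto (fun s => H θ s / s) (𝓝[>] 0) (𝓝 (h θ)) :=
  quot_lim F.A_pos (F.Hs θ) (F.bH θ) (hτ θ)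

theorem k_lim (F : Flow A D H k τ m l) {h' : ℝ → ℝ}
    (hm : ∀ θ, Tendsto (fun s => m θ s) (𝓝[>] 0) (𝓝 (h' θ))) (θ : ℝ) :
    Tendsto (fun s => k θ s / s) (𝓝[>] 0) (𝓝 (h' θ)) :=
  quot_lim F.A_pos (F.ks θ) (F.bk θ) (hm θ)

theorem D_nonneg (F : Flow A D H k τ m l) : 0 ≤ D := by
  have := F.bτ 0 (A / 2) ⟨by linarith [F.A_pos], by linarith [F.A_pos]⟩
  exact (abs_nonneg _).trans this

theorem abs_H_div (F : Flow A D H k τ m l) (θ : ℝ) {s : ℝ} (hs : s ∈ Ioo 0 A) :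
    |H θ s / s| ≤ D := by
  rw [abs_div, abs_of_pos hs.1, div_le_iff₀ hs.1]
  exact F.bH θ s hs

theorem abs_k_div (F : Flow A D H k τ m l) (θ : ℝ) {s : ℝ} (hs : s ∈ Ioo 0 A) :
    |k θ s / s| ≤ D := by
  rw [abs_div, abs_of_pos hs.1, div_le_iff₀ hs.1]
  exact F.bk θ s hs

theorem abs_comb {a b c d D : ℝ} (hD : 0 ≤ D) (ha : |a| ≤ D) (hb : |b| ≤ D) (hc : |c| ≤ D)
    (hd : |d| ≤ D) : |a * b - c * d| ≤ 2 * D ^ 2 := by
  have h1 : |a * b| ≤ D * D := by rw [abs_mul]; exact mul_le_mul ha hb (abs_nonneg _) hD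
  have h2 : |c * d| ≤ D * D := by rw [abs_mul]; exact mul_le_mul hc hd (abs_nonneg _) hD
  calc |a * b - c * d| ≤ |a * b| + |c * d| := abs_sub _ _
    _ ≤ 2 * D ^ 2 := by nlinarith

theorem Q_lim (F : Flow A D H k τ m l) {h h' : ℝ → ℝ}
    (hτ : ∀ θ, Tendsto (fun s => τ θ s) (𝓝[>] 0) (𝓝 (h θ)))
    (hm : ∀ θ, Tendsto (fun s => m θ s) (𝓝[>] 0) (𝓝 (h' θ))) :
    Tendsto (fun s => QQ H k τ m s / s) (𝓝[>] 0) (𝓝 (form h h' h h')) := by
  have h1 := dct (F := fun θ s => H θ s / s * τ θ s - k θ s / s * m θ s)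
    (f := fun θ => h θ * h θ - h' θ * h' θ) (C := 2 * D ^ 2) F.A_pos
    (fun s hs => (((F.cH hs).div_const s).mul (F.cτ hs)).sub (((F.ck hs).div_const s).mul (F.cm hs)))
    (fun θ _ s hs => abs_comb F.D_nonneg (F.abs_H_div θ hs) (F.bτ θ s hs) (F.abs_k_div θ hs)
      (F.bm θ s hs))
    (fun θ => ((F.H_lim hτ θ).mul (hτ θ)).sub ((F.k_lim hm θ).mul (hm θ)))
  refine h1.congr' ?_
  filter_upwards [Ioo_mem_nhdsGT F.A_pos] with s hs
  unfold QQ form2 form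
  rw [← intervalIntegral.integral_div]
  congr 1; funext θ
  ring

theorem rho_lim (F : Flow A D H k τ m l) {h h' : ℝ → ℝ}
    (hτ : ∀ θ, Tendsto (fun s => τ θ s) (𝓝[>] 0) (𝓝 (h θ)))
    (hm : ∀ θ, Tendsto (fun s => m θ s) (𝓝[>] 0) (𝓝 (h' θ))) :
    Tendsto (fun s => rho H k s / s ^ 2) (𝓝[>] 0) (𝓝 (form h h' h h')) := by
  have h1 := dct (F := fun θ s => H θ s / s * (H θ s / s) - k θ s / s * (k θ s / s))
    (f := fun θ => h θ * h θ - h' θ * h' θ) (C := 2 * D ^ 2) F.A_pos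
    (fun s hs => (((F.cH hs).div_const s).mul ((F.cH hs).div_const s)).sub
      (((F.ck hs).div_const s).mul ((F.ck hs).div_const s)))
    (fun θ _ s hs => abs_comb F.D_nonneg (F.abs_H_div θ hs) (F.abs_H_div θ hs) (F.abs_k_div θ hs)
      (F.abs_k_div θ hs))
    (fun θ => ((F.H_lim hτ θ).mul (F.H_lim hτ θ)).sub ((F.k_lim hm θ).mul (F.k_lim hm θ)))
  refine h1.congr' ?_
  filter_upwards [Ioo_mem_nhdsGT F.A_pos] with s hs
  unfold rho form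
  rw [← intervalIntegral.integral_div]
  congr 1; funext θ
  have := hs.1.ne'
  field_simp

theorem e_lim (F : Flow A D H k τ m l) {h h' : ℝ → ℝ}
    (hτ : ∀ θ, Tendsto (fun s => τ θ s) (𝓝[>] 0) (𝓝 (h θ)))
    (hm : ∀ θ, Tendsto (fun s => m θ s) (𝓝[>] 0) (𝓝 (h' θ))) :
    Tendsto (ee τ m) (𝓝[>] 0) (𝓝 (form h h' h h')) :=
  dct (F := fun θ s => τ θ s * τ θ s - m θ s * m θ s)
    (f := fun θ => h θ * h θ - h' θ * h' θ) (C := 2 * D ^ 2) F.A_pos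
    (fun s hs => ((F.cτ hs).mul (F.cτ hs)).sub ((F.cm hs).mul (F.cm hs)))
    (fun θ _ s hs => abs_comb F.D_nonneg (F.bτ θ s hs) (F.bτ θ s hs) (F.bm θ s hs) (F.bm θ s hs))
    (fun θ => ((hτ θ).mul (hτ θ)).sub ((hm θ).mul (hm θ)))

theorem S_lim (F : Flow A D H k τ m l)
    (hl : ∀ θ, Tendsto (fun s => l θ s) (𝓝[>] 0) (𝓝 0)) :
    Tendsto (SS l) (𝓝[>] 0) (𝓝 0) := by
  have h1 := dct (F := fun θ s => l θ s ^ 2) (f := fun _ => (0:ℝ) ^ 2) (C := D ^ 2) F.A_pos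
    (fun _ hs => (F.cl hs).pow 2)
    (fun θ _ s hs => by
      rw [abs_of_nonneg (sq_nonneg _)]
      exact pow_le_pow_left₀ (F.lpos θ s hs).le (F.bl θ s hs) 2)
    (fun θ => (hl θ).pow 2)
  rw [zero_pow two_ne_zero, intervalIntegral.integral_zero] at h1
  exact h1

/-- Lower asymptotics of `S` (dominated convergence for the minimum of the integrand and its
limit). -/
theorem S_lower (F : Flow A D H k τ m l) {R : ℝ → ℝ} (hR : Continuous R) (hRpos : ∀ θ, 0 < R θ)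
    (hl : ∀ θ, Tendsto (fun s => l θ s ^ 3 / s) (𝓝[>] 0) (𝓝 (12 * R θ))) :
    ∀ ε > 0, ∀ᶠ s in 𝓝[>] (0:ℝ),
      ((∫ θ in (0:ℝ)..(2 * π), (12 * R θ) ^ (2 / 3 : ℝ)) - ε) * s ^ (2 / 3 : ℝ) ≤ SS l s := by
  intro ε hε
  have h2pi : (0:ℝ) ≤ 2 * π := by positivity
  have hcR : Continuous (fun θ => (12 * R θ) ^ (2 / 3 : ℝ)) :=
    (continuous_const.mul hR).rpow_const fun θ => Or.inr (by norm_num)
  obtain ⟨C, hC⟩ := (isCompact_Icc (a := (0:ℝ)) (b := 2 * π)).exists_bound_of_continuousOn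
    hcR.continuousOn
  have hpos : ∀ θ, 0 ≤ (12 * R θ) ^ (2 / 3 : ℝ) := fun θ =>
    Real.rpow_nonneg (by linarith [hRpos θ]) _
  have hcl : ∀ s ∈ Ioo 0 A, Continuous (fun θ => (l θ s ^ 3 / s) ^ (2 / 3 : ℝ)) := fun s hs =>
    (((F.cl hs).pow 3).div_const s).rpow_const fun θ => Or.inr (by norm_num)
  have hlnn : ∀ θ, ∀ s ∈ Ioo 0 A, 0 ≤ (l θ s ^ 3 / s) ^ (2 / 3 : ℝ) := fun θ s hs =>
    Real.rpow_nonneg (div_nonneg (pow_nonneg (F.lpos θ s hs).le 3) hs.1.le) _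
  have h1 := dct (F := fun θ s => min ((l θ s ^ 3 / s) ^ (2 / 3 : ℝ)) ((12 * R θ) ^ (2 / 3 : ℝ)))
    (f := fun θ => min ((12 * R θ) ^ (2 / 3 : ℝ)) ((12 * R θ) ^ (2 / 3 : ℝ))) (C := C) F.A_pos
    (fun s hs => (hcl s hs).min hcR)
    (fun θ hθ s hs => by
      rw [abs_of_nonneg (le_min (hlnn θ s hs) (hpos θ))]
      refine (min_le_right _ _).trans ?_
      have := hC θ hθ
      rwa [Real.norm_of_nonneg (hpos θ)] at this)
    (fun θ => ((hl θ).rpow_const (Or.inr (by norm_num))).min tendsto_const_nhds)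
  simp only [min_self] at h1
  have h2 := h1.eventually (lt_mem_nhds (show (∫ θ in (0:ℝ)..(2 * π), (12 * R θ) ^ (2 / 3 : ℝ)) - ε
    < ∫ θ in (0:ℝ)..(2 * π), (12 * R θ) ^ (2 / 3 : ℝ) by linarith))
  filter_upwards [Ioo_mem_nhdsGT F.A_pos, h2] with s hs h3
  have hs0 : 0 < s := hs.1
  have h4 : (∫ θ in (0:ℝ)..(2 * π), min ((l θ s ^ 3 / s) ^ (2 / 3 : ℝ)) ((12 * R θ) ^ (2 / 3 : ℝ)))
      ≤ ∫ θ in (0:ℝ)..(2 * π), (l θ s ^ 3 / s) ^ (2 / 3 : ℝ) :=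
    intervalIntegral.integral_mono_on h2pi (((hcl s hs).min hcR).intervalIntegrable _ _)
      ((hcl s hs).intervalIntegrable _ _) fun θ _ => min_le_left _ _
  have h5 : (∫ θ in (0:ℝ)..(2 * π), (l θ s ^ 3 / s) ^ (2 / 3 : ℝ)) * s ^ (2 / 3 : ℝ) = SS l s := by
    unfold SS
    rw [← intervalIntegral.integral_mul_const]
    congr 1; funext θ
    rw [← Real.mul_rpow (div_nonneg (pow_nonneg (F.lpos θ s hs).le 3) hs0.le) hs0.le,
      div_mul_cancel₀ _ hs0.ne', ← Real.rpow_natCast, ← Real.rpow_mul (F.lpos θ s hs).le]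
    norm_num
  rw [← h5]
  exact mul_le_mul_of_nonneg_right (h3.le.trans h4) (Real.rpow_nonneg hs0.le _)

end Flow

end Pool.Agent.Helper16.Buoy
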