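import Mathlib

/-!
# A4. The one-dimensional argument: the monotone quantity `Φ = (e₀ ρ - Q²) / ρ ^ (4/3)`
-/

set_option autoImplicit false

open MeasureTheory Set Filter Topology

namespace Pool.Agent.Helper16.Buoy

/-- Monotonicity from the sign of the derivative on `(0, a)`. -/
theorem mono_of_deriv {F F' : ℝ → ℝ} {a : ℝ} (hF : ∀ s ∈ Ioo 0 a, HasDerivAt F (F' s) s)
    (hF' : ∀ s ∈ Ioo 0 a, 0 ≤ F' s) : MonotoneOn F (Ioo 0 a) := by
  refine monotoneOn_of_deriv_nonneg (convex_Ioo 0 a)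
    (fun s hs => (hF s hs).continuousAt.continuousWithinAt) ?_ ?_
  · rw [interior_Ioo]
    exact fun s hs => (hF s hs).differentiableAt.differentiableWithinAt
  · rw [interior_Ioo]
    intro s hs
    rw [(hF s hs).deriv]
    exact hF' s hs

/-- Strict version. -/
theorem strictAnti_of_deriv {F F' : ℝ → ℝ} {a : ℝ} (hF : ∀ s ∈ Ioo 0 a, HasDerivAt F (F' s) s)
    (hF' : ∀ s ∈ Ioo 0 a, F' s < 0) : StrictAntiOn F (Ioo 0 a) := by
  refine strictAntiOn_of_deriv_neg (convex_Ioo 0 a)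
    (fun s hs => (hF s hs).continuousAt.continuousWithinAt) ?_
  rw [interior_Ioo]
  intro s hs
  rw [(hF s hs).deriv]
  exact hF' s hs

/-- A function with nonnegative derivative on `(0, a)` and limit `0` at `0` is nonnegative. -/
theorem nonneg_of_deriv {F F' : ℝ → ℝ} {a : ℝ} (hF : ∀ s ∈ Ioo 0 a, HasDerivAt F (F' s) s)
    (hF' : ∀ s ∈ Ioo 0 a, 0 ≤ F' s) (h0 : Tendsto F (𝓝[>] 0) (𝓝 0)) :
    ∀ s ∈ Ioo 0 a, 0 ≤ F s := by
  intro s hs
  have hmono := mono_of_deriv hF hF'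
  refine le_of_tendsto h0 ?_
  filter_upwards [Ioo_mem_nhdsGT hs.1] with t ht
  exact hmono ⟨ht.1, ht.2.trans hs.2⟩ hs ht.2.le

/-- If `ρ' = 2 Q`, `Q' = e₀ - S / 3`, `W = ρ S / 4 - (e₀ ρ - Q²) ≥ 0`, `ρ` symmetric about `A / 2`,
with the asymptotics of a convex body as `s → 0` and the fixed point relation at `d ≤ A / 2`, then
`Q > 0` and `W = 0` on `(0, d)`. -/
theorem phi_rigid {A e0 c d : ℝ} {ρ Q S : ℝ → ℝ} (hA : 0 < A)
    (hρ : ∀ s ∈ Ioo 0 A, HasDerivAt ρ (2 * Q s) s)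
    (hQ : ∀ s ∈ Ioo 0 A, HasDerivAt Q (e0 - S s / 3) s)
    (hρpos : ∀ s ∈ Ioo 0 A, 0 < ρ s) (hSpos : ∀ s ∈ Ioo 0 A, 0 < S s)
    (hS : ContinuousOn S (Ioo 0 A))
    (hW : ∀ s ∈ Ioo 0 A, 0 ≤ ρ s * S s / 4 - (e0 * ρ s - Q s ^ 2))
    (hsym : ∀ s ∈ Ioo 0 A, ρ (A - s) = ρ s)
    (hQ0 : Tendsto (fun s => Q s / s) (𝓝[>] 0) (𝓝 e0))
    (hρ0 : Tendsto (fun s => ρ s / s ^ 2) (𝓝[>] 0) (𝓝 e0))
    (hc : 0 < c) (hS0 : ∀ ε > 0, ∀ᶠ s in 𝓝[>] (0:ℝ), (c - ε) * s ^ (2 / 3 : ℝ) ≤ S s)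
    (hd0 : 0 < d) (hd : d ≤ A / 2)
    (hfix : S d = c / e0 ^ (1 / 3 : ℝ) * ρ d ^ (1 / 3 : ℝ)) :
    0 < e0 ∧ (∀ s ∈ Ioo 0 (A / 2), 0 < Q s) ∧
      ∀ s ∈ Ioo 0 d, ρ s * S s / 4 - (e0 * ρ s - Q s ^ 2) = 0 := by
  have hmid : A / 2 ∈ Ioo 0 A := ⟨by linarith, by linarith⟩
  -- `Q (A / 2) = 0`
  have hQmid : Q (A / 2) = 0 := by
    have h1 : HasDerivAt (fun s => ρ (A - s)) (-(2 * Q (A - A / 2))) (A / 2) := by
      have h2 : HasDerivAt (fun s : ℝ => A - s) (-1) (A / 2) := by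
        simpa using (hasDerivAt_id (A / 2)).const_sub A
      have h3 : HasDerivAt ρ (2 * Q (A - A / 2)) (A - A / 2) :=
        hρ _ ⟨by linarith, by linarith⟩
      have := h3.comp (A / 2) h2
      refine this.congr_deriv ?_
      ring
    have h4 : HasDerivAt (fun s => ρ (A - s)) (2 * Q (A / 2)) (A / 2) := by
      refine (hρ _ hmid).congr_of_eventuallyEq ?_
      filter_upwards [Ioo_mem_nhds hmid.1 hmid.2] with s hs
      exact hsym s hs
    have h5 := h1.unique h4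
    have h6 : A - A / 2 = A / 2 := by ring
    rw [h6] at h5
    linarith
  -- `Q / √ρ` is strictly decreasing
  have hQpos : ∀ s ∈ Ioo 0 (A / 2), 0 < Q s := by
    have hanti : StrictAntiOn (fun s => Q s / √(ρ s)) (Ioo 0 A) := by
      refine strictAnti_of_deriv
        (F' := fun s => ((e0 - S s / 3) * √(ρ s) - Q s * (2 * Q s / (2 * √(ρ s)))) / √(ρ s) ^ 2)
        ?_ ?_
      · intro s hs
        exact (hQ s hs).div ((hρ s hs).sqrt (hρpos s hs).ne')
          (Real.sqrt_ne_zero'.2 (hρpos s hs))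
      · intro s hs
        have hr := hρpos s hs
        have hsq : 0 < √(ρ s) := Real.sqrt_pos.2 hr
        have hsq2 : √(ρ s) ^ 2 = ρ s := Real.sq_sqrt hr.le
        have h1 : ((e0 - S s / 3) * √(ρ s) - Q s * (2 * Q s / (2 * √(ρ s)))) / √(ρ s) ^ 2 =
            -((ρ s * S s / 4 - (e0 * ρ s - Q s ^ 2)) + ρ s * S s / 12) / √(ρ s) ^ 3 := by
          field_simp
          rw [show √(ρ s) ^ 2 = ρ s from hsq2]
          ring
        rw [h1]
        refine div_neg_of_neg_of_pos ?_ (by positivity)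
        have h2 := hW s hs
        have h3 : 0 < ρ s * S s := mul_pos hr (hSpos s hs)
        linarith
    intro s hs
    have h1 := hanti ⟨hs.1, by linarith [hs.2]⟩ hmid hs.2
    simp only at h1
    rw [hQmid, zero_div] at h1
    exact (div_pos_iff_of_pos_right (Real.sqrt_pos.2 (hρpos s ⟨hs.1, by linarith [hs.2]⟩))).1 h1
  -- limits at zero
  have hid : Tendsto (fun s : ℝ => s) (𝓝[>] 0) (𝓝 0) := tendsto_id.mono_left nhdsWithin_le_nhds
  have hQlim : Tendsto Q (𝓝[>] 0) (𝓝 0) := by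
    have h1 := hQ0.mul hid
    rw [mul_zero] at h1
    refine h1.congr' ?_
    filter_upwards [self_mem_nhdsWithin] with s hs
    have : (s : ℝ) ≠ 0 := (mem_Ioi.1 hs).ne'
    field_simp
  have hρlim : Tendsto ρ (𝓝[>] 0) (𝓝 0) := by
    have h1 := hρ0.mul (hid.pow 2)
    rw [zero_pow two_ne_zero, mul_zero] at h1
    refine h1.congr' ?_
    filter_upwards [self_mem_nhdsWithin] with s hs
    have : (s : ℝ) ≠ 0 := (mem_Ioi.1 hs).ne'
    field_simp
  have hNlim : Tendsto (fun s => e0 * ρ s - Q s ^ 2) (𝓝[>] 0) (𝓝 0) := by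
    have := (hρlim.const_mul e0).sub (hQlim.pow 2)
    simpa using this
  -- positivity of `e0`
  have he0 : 0 < e0 := by
    by_contra hcon
    push Not at hcon
    have h1 : ∀ s ∈ Ioo 0 A, 0 ≤ -Q s := by
      refine nonneg_of_deriv (F := fun s => -Q s) (F' := fun s => -(e0 - S s / 3))
        (fun s hs => (hQ s hs).neg) (fun s hs => ?_) ?_
      · have := hSpos s hs
        linarith
      · simpa using hQlim.neg
    have h2 := h1 (A / 4) ⟨by linarith, by linarith⟩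
    have h3 := hQpos (A / 4) ⟨by linarith, by linarith⟩
    linarith
  refine ⟨he0, hQpos, ?_⟩
  -- `N = e0 ρ - Q²`
  have hN : ∀ s ∈ Ioo 0 A, HasDerivAt (fun s => e0 * ρ s - Q s ^ 2) (2 / 3 * (Q s * S s)) s := by
    intro s hs
    have := ((hρ s hs).const_mul e0).sub ((hQ s hs).pow 2)
    refine this.congr_deriv ?_
    ring
  have hQnonneg : ∀ s ∈ Ioc 0 (A / 2), 0 ≤ Q s := by
    intro s hs
    rcases eq_or_lt_of_le hs.2 with h | h
    · rw [h, hQmid]
    · exact (hQpos s ⟨hs.1, h⟩).le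
  have hNpos : ∀ s ∈ Ioo 0 (A / 2), 0 ≤ e0 * ρ s - Q s ^ 2 := by
    refine nonneg_of_deriv (F' := fun s => 2 / 3 * (Q s * S s))
      (fun s hs => hN s ⟨hs.1, by linarith [hs.2]⟩) (fun s hs => ?_) hNlim
    have h1 := hQpos s hs
    have h2 := hSpos s ⟨hs.1, by linarith [hs.2]⟩
    positivity
  -- `Ψ = N³ / ρ⁴`
  set Ψ : ℝ → ℝ := fun s => (e0 * ρ s - Q s ^ 2) ^ 3 / ρ s ^ 4 with hΨ
  have hΨ' : ∀ s ∈ Ioo 0 A, HasDerivAt Ψ
      (8 * Q s * (e0 * ρ s - Q s ^ 2) ^ 2 * (ρ s * S s / 4 - (e0 * ρ s - Q s ^ 2)) / ρ s ^ 5) s := by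
    intro s hs
    have hr := hρpos s hs
    have := ((hN s hs).pow 3).div ((hρ s hs).pow 4) (pow_ne_zero 4 hr.ne')
    refine this.congr_deriv ?_
    simp only [Pi.pow_apply]
    field_simp
    ring
  have hΨmono : MonotoneOn Ψ (Ioo 0 (A / 2)) := by
    refine mono_of_deriv (fun s hs => hΨ' s ⟨hs.1, by linarith [hs.2]⟩) (fun s hs => ?_)
    have h1 := hQpos s hs
    have h2 := hW s ⟨hs.1, by linarith [hs.2]⟩
    have h3 := hρpos s ⟨hs.1, by linarith [hs.2]⟩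
    positivity
  -- upper bound at `d`
  have hdA : d ∈ Ioo 0 A := ⟨hd0, by linarith⟩
  have hNd : 0 ≤ e0 * ρ d - Q d ^ 2 := by
    have hcont : ContinuousWithinAt (fun s => e0 * ρ s - Q s ^ 2) (Iio d) d :=
      (hN d hdA).continuousAt.continuousWithinAt
    refine ge_of_tendsto hcont ?_
    filter_upwards [Ioo_mem_nhdsLT hd0] with t ht
    exact hNpos t ⟨ht.1, by linarith [ht.2]⟩
  have hΨd : Ψ d ≤ c ^ 3 / (64 * e0) := by
    have hr := hρpos d hdA
    have h1 := hW d hdA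
    have h2 : (e0 * ρ d - Q d ^ 2) ^ 3 ≤ (ρ d * S d / 4) ^ 3 :=
      pow_le_pow_left₀ hNd (by linarith) 3
    have h3 : S d ^ 3 = c ^ 3 / e0 * ρ d := by
      rw [hfix, mul_pow, div_pow]
      rw [← Real.rpow_natCast (e0 ^ (1 / 3 : ℝ)) 3, ← Real.rpow_mul he0.le,
        ← Real.rpow_natCast (ρ d ^ (1 / 3 : ℝ)) 3, ← Real.rpow_mul hr.le]
      norm_num
    calc Ψ d ≤ (ρ d * S d / 4) ^ 3 / ρ d ^ 4 := by
          simp only [hΨ]
          gcongr
      _ = S d ^ 3 / (64 * ρ d) := by field_simp; ring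
      _ = c ^ 3 / (64 * e0) := by rw [h3]; field_simp
  -- lower bound near zero
  have hlow : ∀ s ∈ Ioo 0 (A / 2), c ^ 3 / (64 * e0) ≤ Ψ s := by
    intro s hs
    -- for small `ε`
    have hev : ∀ ε ∈ Ioo 0 (min c e0), (e0 - ε) ^ 3 * (c - ε) ^ 3 / (64 * (e0 + ε) ^ 4) ≤ Ψ s := by
      intro ε hε
      have hεc : ε < c := hε.2.trans_le (min_le_left _ _)
      have hεe : ε < e0 := hε.2.trans_le (min_le_right _ _)
      have e1 : ∀ᶠ t in 𝓝[>] (0:ℝ), e0 - ε < Q t / t :=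
        hQ0.eventually (lt_mem_nhds (by linarith [hε.1]))
      have e2 : ∀ᶠ t in 𝓝[>] (0:ℝ), ρ t / t ^ 2 < e0 + ε :=
        hρ0.eventually (gt_mem_nhds (by linarith [hε.1]))
      have e3 := hS0 ε hε.1
      obtain ⟨η, hη0, hη⟩ := mem_nhdsGT_iff_exists_Ioo_subset.1 ((e1.and (e2.and e3)))
      have hη0' : (0:ℝ) < η := hη0
      set η' := min η (A / 2) with hη'
      have hη'0 : 0 < η' := lt_min hη0' (by linarith)
      have hprop : ∀ t ∈ Ioo 0 η', e0 - ε < Q t / t ∧ ρ t / t ^ 2 < e0 + ε ∧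
          (c - ε) * t ^ (2 / 3 : ℝ) ≤ S t := fun t ht =>
        hη ⟨ht.1, ht.2.trans_le (min_le_left _ _)⟩
      have hη'A : ∀ t ∈ Ioo 0 η', t ∈ Ioo 0 (A / 2) := fun t ht =>
        ⟨ht.1, ht.2.trans_le (min_le_right _ _)⟩
      set κ := (e0 - ε) * (c - ε) / 4 with hκ
      have hκ0 : 0 < κ := by
        have h1 : 0 < e0 - ε := by linarith
        have h2 : 0 < c - ε := by linarith
        positivity
      have hNlow : ∀ t ∈ Ioo 0 η', κ * t ^ (8 / 3 : ℝ) ≤ e0 * ρ t - Q t ^ 2 := by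
        have h1 : ∀ t ∈ Ioo 0 η', 0 ≤ (e0 * ρ t - Q t ^ 2) - κ * t ^ (8 / 3 : ℝ) := by
          refine nonneg_of_deriv (F := fun t => (e0 * ρ t - Q t ^ 2) - κ * t ^ (8 / 3 : ℝ))
            (F' := fun t => 2 / 3 * (Q t * S t) - κ * (8 / 3 * t ^ (8 / 3 - 1 : ℝ))) ?_ ?_ ?_
          · intro t ht
            have ht' := hη'A t ht
            have h2 := Real.hasDerivAt_rpow_const (x := t) (p := 8 / 3) (Or.inl ht.1.ne')
            exact (hN t ⟨ht'.1, by linarith [ht'.2]⟩).sub (h2.const_mul κ)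
          · intro t ht
            obtain ⟨p1, p2, p3⟩ := hprop t ht
            have ht0 : 0 < t := ht.1
            rw [lt_div_iff₀ ht0] at p1
            have h2 : (e0 - ε) * t * ((c - ε) * t ^ (2 / 3 : ℝ)) ≤ Q t * S t := by
              have h3 : 0 ≤ (c - ε) * t ^ (2 / 3 : ℝ) := by
                have : 0 < c - ε := by linarith
                positivity
              have h4 : 0 ≤ Q t := (hQpos t (hη'A t ht)).le
              exact mul_le_mul p1.le p3 h3 h4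
            have h5 : t ^ (8 / 3 - 1 : ℝ) = t * t ^ (2 / 3 : ℝ) := by
              rw [← Real.rpow_one_add' ht0.le (by norm_num)]
              norm_num
            rw [h5, hκ]
            nlinarith
          · have h2 : Tendsto (fun t : ℝ => t ^ (8 / 3 : ℝ)) (𝓝[>] 0) (𝓝 0) := by
              have h3 : ContinuousAt (fun t : ℝ => t ^ (8 / 3 : ℝ)) 0 :=
                Real.continuousAt_rpow_const 0 (8 / 3) (Or.inr (by norm_num))
              have h4 : Tendsto (fun t : ℝ => t ^ (8 / 3 : ℝ)) (𝓝 0) (𝓝 ((0:ℝ) ^ (8 / 3 : ℝ))) := h3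
              rw [Real.zero_rpow (by norm_num)] at h4
              exact h4.mono_left nhdsWithin_le_nhds
            have := hNlim.sub (h2.const_mul κ)
            simpa using this
        intro t ht
        linarith [h1 t ht]
      -- pick a point `t < s` in the window
      set t := min (η' / 2) (s / 2) with ht
      have ht0 : 0 < t := lt_min (by linarith) (by linarith [hs.1])
      have ht1 : t ∈ Ioo 0 η' := ⟨ht0, (min_le_left _ _).trans_lt (by linarith)⟩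
      have ht2 : t ≤ s := (min_le_right _ _).trans (by linarith [hs.1])
      obtain ⟨p1, p2, p3⟩ := hprop t ht1
      have htA := hη'A t ht1
      have hr := hρpos t ⟨htA.1, by linarith [htA.2]⟩
      rw [div_lt_iff₀ (by positivity)] at p2
      have h1 := hNlow t ht1
      have h2 : (κ * t ^ (8 / 3 : ℝ)) ^ 3 ≤ (e0 * ρ t - Q t ^ 2) ^ 3 :=
        pow_le_pow_left₀ (by positivity) h1 3
      have h3 : (t ^ (8 / 3 : ℝ)) ^ 3 = t ^ 8 := by
        rw [← Real.rpow_natCast, ← Real.rpow_mul ht0.le]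
        norm_num
      have h4 : ρ t ^ 4 ≤ ((e0 + ε) * t ^ 2) ^ 4 := pow_le_pow_left₀ hr.le p2.le 4
      refine le_trans ?_ (hΨmono htA hs ht2)
      simp only [hΨ]
      have hεpos : 0 < ε := hε.1
      calc (e0 - ε) ^ 3 * (c - ε) ^ 3 / (64 * (e0 + ε) ^ 4)
          = (κ * t ^ (8 / 3 : ℝ)) ^ 3 / ((e0 + ε) * t ^ 2) ^ 4 := by
            rw [mul_pow, h3, hκ]
            field_simp
            ring
        _ ≤ (e0 * ρ t - Q t ^ 2) ^ 3 / ρ t ^ 4 := by
            have hnn : 0 ≤ (e0 * ρ t - Q t ^ 2) ^ 3 := pow_nonneg (hNpos t htA) 3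
            gcongr
    have hlim : Tendsto (fun ε : ℝ => (e0 - ε) ^ 3 * (c - ε) ^ 3 / (64 * (e0 + ε) ^ 4)) (𝓝[>] 0)
        (𝓝 (c ^ 3 / (64 * e0))) := by
      have h1 : ContinuousAt
          (fun ε : ℝ => (e0 - ε) ^ 3 * (c - ε) ^ 3 / (64 * (e0 + ε) ^ 4)) 0 := by
        refine ContinuousAt.div (by fun_prop) (by fun_prop) ?_
        rw [add_zero]; positivity
      have h2 : Tendsto (fun ε : ℝ => (e0 - ε) ^ 3 * (c - ε) ^ 3 / (64 * (e0 + ε) ^ 4)) (𝓝 0)
          (𝓝 ((e0 - 0) ^ 3 * (c - 0) ^ 3 / (64 * (e0 + 0) ^ 4))) := h1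
      have h3 : (e0 - 0) ^ 3 * (c - 0) ^ 3 / (64 * (e0 + 0) ^ 4) = c ^ 3 / (64 * e0) := by
        rw [sub_zero, sub_zero, add_zero]
        field_simp
      rw [h3] at h2
      exact h2.mono_left nhdsWithin_le_nhds
    refine le_of_tendsto hlim ?_
    filter_upwards [Ioo_mem_nhdsGT (lt_min hc he0)] with ε hε
    exact hev ε hε
  -- `Ψ` is constant on `(0, d)`
  have hΨcd : ∀ s ∈ Ioo 0 d, Ψ s = c ^ 3 / (64 * e0) := by
    intro s hs
    have hsA : s ∈ Ioo 0 (A / 2) := ⟨hs.1, by linarith [hs.2]⟩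
    refine le_antisymm ?_ (hlow s hsA)
    refine le_trans ?_ hΨd
    -- `Ψ s ≤ Ψ d`
    have hcont : ContinuousWithinAt Ψ (Iio d) d := (hΨ' d hdA).continuousAt.continuousWithinAt
    refine ge_of_tendsto hcont ?_
    filter_upwards [Ioo_mem_nhdsLT hs.2] with t ht
    exact hΨmono hsA ⟨hs.1.trans ht.1, by linarith [ht.2]⟩ ht.1.le
  intro s hs
  have hsA : s ∈ Ioo 0 (A / 2) := ⟨hs.1, by linarith [hs.2]⟩
  have hsA' : s ∈ Ioo 0 A := ⟨hs.1, by linarith [hs.2]⟩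
  have h1 : HasDerivAt Ψ 0 s := by
    have h2 : HasDerivAt (fun _ : ℝ => c ^ 3 / (64 * e0)) 0 s := hasDerivAt_const s _
    refine h2.congr_of_eventuallyEq ?_
    filter_upwards [Ioo_mem_nhds hs.1 hs.2] with t ht
    exact hΨcd t ht
  have h3 := (hΨ' s hsA').unique h1
  have hr := hρpos s hsA'
  have hq := hQpos s hsA
  have hNs : e0 * ρ s - Q s ^ 2 ≠ 0 := by
    intro h0
    have h4 := hΨcd s hs
    simp only [hΨ] at h4
    rw [h0] at h4
    have : 0 < c ^ 3 / (64 * e0) := by positivity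
    rw [← h4] at this
    simp at this
  rw [div_eq_zero_iff] at h3
  rcases h3 with h3 | h3
  · rcases mul_eq_zero.1 h3 with h4 | h4
    · exfalso
      have : 0 < 8 * Q s * (e0 * ρ s - Q s ^ 2) ^ 2 := by positivity
      rw [h4] at this
      exact lt_irrefl _ this
    · exact h4
  · exact absurd h3 (pow_ne_zero 5 hr.ne')

end Pool.Agent.Helper16.Buoy
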