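import Pool.Agent.Helper16.Buoy.A3b
import Pool.Agent.Helper16.Buoy.A2

/-!
# A5. Rigidity: equality in Minkowski's inequality on a time interval
-/

open MeasureTheory Set Filter Topology
open Real

namespace Pool.Agent.Helper16.Buoy

/-- A function with zero derivative on an open interval is constant. -/
theorem const_of_deriv {f : ℝ → ℝ} {a b : ℝ} (h : ∀ x ∈ Ioo a b, HasDerivAt f 0 x) {x y : ℝ}
    (hx : x ∈ Ioo a b) (hy : y ∈ Ioo a b) : f x = f y := by
  have h1 := (convex_Ioo a b).norm_image_sub_le_of_norm_hasDerivWithin_le (C := 0)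
    (fun x hx => (h x hx).hasDerivWithinAt) (fun x _ => by simp) hy hx
  rw [zero_mul] at h1
  have := norm_le_zero_iff.1 h1
  linarith

namespace Flow

variable {A D : ℝ} {H k τ m l : ℝ → ℝ → ℝ}

theorem rho_pos (F : Flow A D H k τ m l) {s : ℝ} (hs : s ∈ Ioo 0 A) : 0 < rho H k s :=
  form_self_pos (R := fun θ => l θ s ^ 3 / 12) (fun θ => F.Hθ θ s hs) (fun θ => F.kθ θ s hs)
    (((F.cl hs).pow 3).div_const 12) (fun θ => by have := F.lpos θ s hs; positivity)
    (fun θ => F.perH θ s hs)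

theorem mink (F : Flow A D H k τ m l) {s : ℝ} (hs : s ∈ Ioo 0 A) :
    rho H k s * ee τ m s ≤ QQ H k τ m s ^ 2 ∧
    (QQ H k τ m s ^ 2 = rho H k s * ee τ m s →
      ∃ a b : ℝ, ∀ θ, τ θ s = QQ H k τ m s / rho H k s * H θ s + a * cos θ + b * sin θ) :=
  minkowski (R := fun θ => l θ s ^ 3 / 12) (fun θ => F.Hθ θ s hs) (fun θ => F.kθ θ s hs)
    (((F.cl hs).pow 3).div_const 12) (fun θ => by have := F.lpos θ s hs; positivity)
    (fun θ => F.perH θ s hs) (fun θ => F.τθ θ s hs) (F.cm hs) (fun θ => F.perτ θ s hs)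

theorem rigid (F : Flow A D H k τ m l) {d : ℝ} (hd0 : 0 < d) (hdA : d ≤ A)
    (hW : ∀ s ∈ Ioo 0 d, QQ H k τ m s ^ 2 = rho H k s * ee τ m s) :
    ∃ s0 ∈ Ioo 0 d, ∃ c α β γ a b : ℝ, 0 < c ∧ 0 < α ∧ β ^ 2 < α * γ ∧
      (∀ θ, H θ s0 = c * Real.sqrt (α * cos θ ^ 2 + 2 * β * (cos θ * sin θ) + γ * sin θ ^ 2)
        + (a * cos θ + b * sin θ)) ∧
      ∀ s ∈ Ioo 0 d, ∃ f : ℝ, 0 < f ∧ ∀ θ, l θ s = f * l θ s0 := by
  have hin : ∀ s ∈ Ioo 0 d, s ∈ Ioo 0 A := fun s hs => ⟨hs.1, hs.2.trans_le hdA⟩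
  set κ : ℝ → ℝ := fun s => QQ H k τ m s / rho H k s with hκ
  set r : ℝ → ℝ := fun s => Real.sqrt (rho H k s) with hr
  have hrpos : ∀ s ∈ Ioo 0 d, 0 < r s := fun s hs => Real.sqrt_pos.2 (F.rho_pos (hin s hs))
  have hrd : ∀ s ∈ Ioo 0 d, HasDerivAt r (κ s * r s) s := by
    intro s hs
    have hp := F.rho_pos (hin s hs)
    have h := (F.rho_deriv (hin s hs)).sqrt hp.ne'
    refine h.congr_deriv ?_
    have h2 : r s * r s = rho H k s := Real.mul_self_sqrt hp.le
    have h3 := hrpos s hs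
    show 2 * QQ H k τ m s / (2 * r s) = QQ H k τ m s / rho H k s * r s
    rw [← h2]; field_simp
  have hτ : ∀ s ∈ Ioo 0 d, ∃ a b : ℝ, ∀ θ, τ θ s = κ s * H θ s + a * cos θ + b * sin θ :=
    fun s hs => (F.mink (hin s hs)).2 (hW s hs)
  -- projection killing linear functions
  have hPD : ∀ θ, ∀ s ∈ Ioo 0 d, HasDerivAt
      (fun s => (H θ s - cos θ * H 0 s - sin θ * H (π / 2) s) / r s) 0 s := by
    intro θ s hs
    have h1 := (((F.Hs θ s (hin s hs)).sub ((F.Hs 0 s (hin s hs)).const_mul (cos θ))).sub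
      ((F.Hs (π / 2) s (hin s hs)).const_mul (sin θ))).div (hrd s hs) (hrpos s hs).ne'
    refine h1.congr_deriv ?_
    obtain ⟨a, b, hab⟩ := hτ s hs
    have h3 := hrpos s hs
    rw [hab θ, hab 0, hab (π / 2)]
    simp only [cos_zero, sin_zero, cos_pi_div_two, sin_pi_div_two, Pi.sub_apply]
    have h4 := h3.ne'
    field_simp
    ring
  set s0 := d / 2 with hs0def
  have hs0 : s0 ∈ Ioo 0 d := ⟨by positivity, by rw [hs0def]; linarith⟩
  have hr0 := hrpos s0 hs0
  have hH : ∀ s ∈ Ioo 0 d, ∃ a b : ℝ, ∀ θ,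
      H θ s = r s / r s0 * H θ s0 + a * cos θ + b * sin θ := by
    intro s hs
    refine ⟨H 0 s - r s / r s0 * H 0 s0, H (π / 2) s - r s / r s0 * H (π / 2) s0, fun θ => ?_⟩
    have h1 := const_of_deriv (hPD θ) hs hs0
    have h2 := hrpos s hs
    rw [div_eq_div_iff h2.ne' hr0.ne'] at h1
    field_simp
    linear_combination h1
  have hl3 : ∀ s ∈ Ioo 0 d, ∀ θ, l θ s ^ 3 = r s / r s0 * l θ s0 ^ 3 := by
    intro s hs
    obtain ⟨a, b, hab⟩ := hH s hs
    have hk : ∀ θ, k θ s = r s / r s0 * k θ s0 - a * sin θ + b * cos θ := by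
      intro θ
      have h1 : HasDerivAt (fun θ => H θ s) (r s / r s0 * k θ s0 - a * sin θ + b * cos θ) θ := by
        have h2 := (((F.Hθ θ s0 (hin s0 hs0)).const_mul (r s / r s0)).add
          ((hasDerivAt_cos θ).const_mul a)).add ((hasDerivAt_sin θ).const_mul b)
        refine (h2.congr_deriv (by ring)).congr_of_eventuallyEq (Eventually.of_forall fun x => ?_)
        exact hab x
      exact (F.Hθ θ s (hin s hs)).unique h1
    intro θ
    have h1 : HasDerivAt (fun θ => k θ s)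
        (r s / r s0 * (l θ s0 ^ 3 / 12 - H θ s0) - a * cos θ - b * sin θ) θ := by
      have h2 := (((F.kθ θ s0 (hin s0 hs0)).const_mul (r s / r s0)).sub
        ((hasDerivAt_sin θ).const_mul a)).add ((hasDerivAt_cos θ).const_mul b)
      refine (h2.congr_deriv (by ring)).congr_of_eventuallyEq (Eventually.of_forall fun x => ?_)
      exact hk x
    have h3 := (F.kθ θ s (hin s hs)).unique h1
    have h4 := hab θ
    linear_combination 12 * h3 + 12 * h4
  have hf : ∀ s ∈ Ioo 0 d, ∃ f : ℝ, 0 < f ∧ ∀ θ, l θ s = f * l θ s0 := by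
    intro s hs
    have hq : 0 < r s / r s0 := div_pos (hrpos s hs) hr0
    refine ⟨(r s / r s0) ^ (1 / 3 : ℝ), by positivity, fun θ => ?_⟩
    have h1 : ((r s / r s0) ^ (1 / 3 : ℝ)) ^ 3 = r s / r s0 := by
      rw [← Real.rpow_natCast, ← Real.rpow_mul hq.le]; norm_num
    have h2 : l θ s ^ 3 = ((r s / r s0) ^ (1 / 3 : ℝ) * l θ s0) ^ 3 := by
      rw [mul_pow, h1]; exact hl3 s hs θ
    have hl0 := F.lpos θ s0 (hin s0 hs0)
    exact (pow_left_inj₀ (F.lpos θ s (hin s hs)).le (by positivity) (by norm_num)).1 h2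
  -- the levels
  choose! f hfpos hfl using hf
  set s1 := d / 4 with hs1def
  have hs1 : s1 ∈ Ioo 0 d := ⟨by positivity, by rw [hs1def]; linarith⟩
  have hs10 : s1 < s0 := by rw [hs1def, hs0def]; linarith
  set C := l 0 s0 * (τ 0 s1 - τ 0 s0) with hC
  have hCpos : 0 < C := by
    have hanti : StrictAntiOn (fun s => τ 0 s) (Ioo 0 d) := by
      apply strictAntiOn_of_deriv_neg (convex_Ioo 0 d)
      · intro s hs
        exact (F.τs 0 s (hin s hs)).continuousAt.continuousWithinAt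
      · intro s hs
        rw [interior_Ioo] at hs
        rw [(F.τs 0 s (hin s hs)).deriv]
        exact div_neg_of_neg_of_pos (by norm_num) (F.lpos 0 s (hin s hs))
    have := hanti hs1 hs0 hs10
    exact mul_pos (F.lpos 0 s0 (hin s0 hs0)) (by simp only at this; linarith)
  have hCτ : ∀ θ, l θ s0 * (τ θ s1 - τ θ s0) = C := by
    intro θ
    have h1 : ∀ s ∈ Ioo 0 d, HasDerivAt (fun s => l θ s0 * τ θ s - l 0 s0 * τ 0 s) 0 s := by
      intro s hs
      have h2 := ((F.τs θ s (hin s hs)).const_mul (l θ s0)).sub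
        ((F.τs 0 s (hin s hs)).const_mul (l 0 s0))
      refine h2.congr_deriv ?_
      rw [hfl s hs θ, hfl s hs 0]
      have h3 := F.lpos θ s0 (hin s0 hs0)
      have h4 := F.lpos 0 s0 (hin s0 hs0)
      have h5 := hfpos s hs
      field_simp; ring
    have h6 := const_of_deriv h1 hs1 hs0
    rw [hC]; linear_combination h6
  -- `G = 1 / l(·, s0)`
  obtain ⟨a1, b1, hab1⟩ := hτ s1 hs1
  obtain ⟨a0, b0, hab0⟩ := hτ s0 hs0
  obtain ⟨a2, b2, hab2⟩ := hH s1 hs1
  set c1 := (κ s1 * (r s1 / r s0) - κ s0) / C with hc1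
  set a3 := (κ s1 * a2 + a1 - a0) / C with ha3
  set b3 := (κ s1 * b2 + b1 - b0) / C with hb3
  set G : ℝ → ℝ := fun θ => c1 * H θ s0 + a3 * cos θ + b3 * sin θ with hG
  have hGl : ∀ θ, G θ = 1 / l θ s0 := by
    intro θ
    have h1 := hCτ θ
    have h2 := F.lpos θ s0 (hin s0 hs0)
    rw [hab1 θ, hab0 θ, hab2 θ] at h1
    have h3 := hCpos.ne'
    rw [eq_div_iff h2.ne']
    simp only [hG, hc1, ha3, hb3]
    field_simp
    have h4 := hr0.ne'
    field_simp at h1
    linear_combination h1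
  have hGpos : ∀ θ, 0 < G θ := fun θ => by
    rw [hGl θ]; exact one_div_pos.2 (F.lpos θ s0 (hin s0 hs0))
  have hG1 : ∀ θ, HasDerivAt G (c1 * k θ s0 - a3 * sin θ + b3 * cos θ) θ := by
    intro θ
    have h2 := (((F.Hθ θ s0 (hin s0 hs0)).const_mul c1).add
      ((hasDerivAt_cos θ).const_mul a3)).add ((hasDerivAt_sin θ).const_mul b3)
    exact h2.congr_deriv (by ring)
  have hG2 : ∀ θ, HasDerivAt (fun θ => c1 * k θ s0 - a3 * sin θ + b3 * cos θ)
      (c1 / 12 / G θ ^ 3 - G θ) θ := by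
    intro θ
    have h2 := (((F.kθ θ s0 (hin s0 hs0)).const_mul c1).sub
      ((hasDerivAt_sin θ).const_mul a3)).add ((hasDerivAt_cos θ).const_mul b3)
    refine h2.congr_deriv ?_
    have h3 : c1 / 12 / G θ ^ 3 = c1 * (l θ s0 ^ 3 / 12) := by
      rw [hGl θ]
      have := F.lpos θ s0 (hin s0 hs0)
      field_simp
    rw [h3]
    simp only [hG]
    ring
  obtain ⟨hc, α, β, γ, hα, hβ, hq⟩ := ode_final (c1 / 12) hG1 hG2 hGpos
  have hc1pos : 0 < c1 := by linarith
  refine ⟨s0, hs0, 1 / c1, α, β, γ, -a3 / c1, -b3 / c1, by positivity, hα, hβ, fun θ => ?_,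
    fun s hs => ⟨f s, hfpos s hs, hfl s hs⟩⟩
  rw [← hq θ, Real.sqrt_sq (hGpos θ).le]
  simp only [hG]
  field_simp
  ring

end Flow

end Pool.Agent.Helper16.Buoy
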