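import Pool.Agent.Helper16.Buoy.A3b

/-!
# A6. Symmetry `s ↔ A - s` and the fixed point relation
-/

open MeasureTheory Set Filter Topology
open Real

namespace Pool.Agent.Helper16.Buoy

/-- Adding a linear function does not change the form; scaling. -/
theorem form_affine {f f' g g' R : ℝ → ℝ} {c a b : ℝ} (hf : ∀ θ, HasDerivAt f (f' θ) θ)
    (hf' : ∀ θ, HasDerivAt f' (R θ - f θ) θ)
    (pf : ∀ θ, f (θ + 2 * π) = f θ)
    (hg : ∀ θ, g θ = c * f θ + (a * cos θ + b * sin θ))
    (hg' : ∀ θ, g' θ = c * f' θ + (-a * sin θ + b * cos θ)) :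
    form g g' g g' = c ^ 2 * form f f' f f' := by
  have cf : Continuous f := continuous_iff_continuousAt.2 (fun θ => (hf θ).continuousAt)
  have cf' : Continuous f' := continuous_iff_continuousAt.2 (fun θ => (hf' θ).continuousAt)
  have pf0 : f (2 * π) = f 0 := by have := pf 0; rwa [zero_add] at this
  have h1 := form_linear a b hf cf' pf0
  have h2 := form_linear (g := fun θ => a * cos θ + b * sin θ)
    (g' := fun θ => -a * sin θ + b * cos θ) a b (fun θ => by
      have h := ((hasDerivAt_cos θ).const_mul a).add ((hasDerivAt_sin θ).const_mul b)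
      refine h.congr_deriv ?_
      ring) (by fun_prop) (by simp)
  have e : form g g' g g' = c ^ 2 * form f f' f f'
      + 2 * c * form (fun θ => a * cos θ + b * sin θ) (fun θ => -a * sin θ + b * cos θ) f f'
      + form (fun θ => a * cos θ + b * sin θ) (fun θ => -a * sin θ + b * cos θ)
        (fun θ => a * cos θ + b * sin θ) (fun θ => -a * sin θ + b * cos θ) := by
    unfold form
    rw [← intervalIntegral.integral_const_mul, ← intervalIntegral.integral_const_mul,
      ← intervalIntegral.integral_add, ← intervalIntegral.integral_add]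
    · congr 1; funext θ
      rw [hg θ, hg' θ]; ring
    · exact Continuous.intervalIntegrable (by fun_prop) _ _
    · exact Continuous.intervalIntegrable (by fun_prop) _ _
    · exact Continuous.intervalIntegrable (by fun_prop) _ _
    · exact Continuous.intervalIntegrable (by fun_prop) _ _
  rw [e, h1, h2]; ring

/-- Shift of the form by a half turn. -/
theorem integral_shift {f : ℝ → ℝ} (hf : ∀ θ, f (θ + 2 * π) = f θ) (c : ℝ) :
    ∫ θ in (0:ℝ)..(2 * π), f (θ + c) = ∫ θ in (0:ℝ)..(2 * π), f θ := by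
  have hper : Function.Periodic f (2 * π) := hf
  rw [intervalIntegral.integral_comp_add_right]
  have h := hper.intervalIntegral_add_eq (0 + c) 0
  rw [zero_add] at h
  rw [zero_add, add_comm (2 * π) c, h, zero_add]

namespace Flow

variable {A D : ℝ} {H k τ m l : ℝ → ℝ → ℝ}

theorem k_symm (F : Flow A D H k τ m l) {a b : ℝ}
    (hab : ∀ θ, ∀ s ∈ Ioo 0 A, H (θ + π) (A - s) = H θ s - (a * cos θ + b * sin θ))
    (θ : ℝ) {s : ℝ} (hs : s ∈ Ioo 0 A) :
    k (θ + π) (A - s) = k θ s - (-a * sin θ + b * cos θ) := by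
  have hs' : A - s ∈ Ioo 0 A := ⟨by linarith [hs.2], by linarith [hs.1]⟩
  have h1 : HasDerivAt (fun θ => H (θ + π) (A - s)) (k (θ + π) (A - s)) θ := by
    have := (F.Hθ (θ + π) (A - s) hs').comp_add_const θ π
    exact this
  have h2 : HasDerivAt (fun θ => H (θ + π) (A - s)) (k θ s - (-a * sin θ + b * cos θ)) θ := by
    have h3 := (F.Hθ θ s hs).sub (((hasDerivAt_cos θ).const_mul a).add
      ((hasDerivAt_sin θ).const_mul b))
    have h4 : HasDerivAt (fun θ => H (θ + π) (A - s)) (k θ s - (a * -sin θ + b * cos θ)) θ :=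
      h3.congr_of_eventuallyEq (Eventually.of_forall fun x => hab x s hs)
    refine h4.congr_deriv ?_
    ring
  exact h1.unique h2

theorem l_symm (F : Flow A D H k τ m l) (θ : ℝ) {s : ℝ} (hs : s ∈ Ioo 0 A) :
    l (θ + π) (A - s) = l θ s := by
  obtain ⟨a, b, hab⟩ := F.symH
  have hs' : A - s ∈ Ioo 0 A := ⟨by linarith [hs.2], by linarith [hs.1]⟩
  have h1 : HasDerivAt (fun θ => k (θ + π) (A - s))
      (l (θ + π) (A - s) ^ 3 / 12 - H (θ + π) (A - s)) θ :=
    (F.kθ (θ + π) (A - s) hs').comp_add_const θ π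
  have h2 : HasDerivAt (fun θ => k (θ + π) (A - s))
      (l θ s ^ 3 / 12 - H θ s - (-a * cos θ + b * -sin θ)) θ := by
    have h3 := (F.kθ θ s hs).sub (((hasDerivAt_sin θ).const_mul (-a)).add
      ((hasDerivAt_cos θ).const_mul b))
    exact h3.congr_of_eventuallyEq (Eventually.of_forall fun x => F.k_symm hab x hs)
  have h3 := h1.unique h2
  have h4 := hab θ s hs
  have h5 : l (θ + π) (A - s) ^ 3 = l θ s ^ 3 := by linear_combination 12 * h3 + 12 * h4
  exact (pow_left_inj₀ (F.lpos _ _ hs').le (F.lpos _ _ hs).le (by norm_num)).1 h5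

theorem rho_symm (F : Flow A D H k τ m l) {s : ℝ} (hs : s ∈ Ioo 0 A) :
    rho H k (A - s) = rho H k s := by
  obtain ⟨a, b, hab⟩ := F.symH
  have hs' : A - s ∈ Ioo 0 A := ⟨by linarith [hs.2], by linarith [hs.1]⟩
  have h1 : rho H k (A - s) = form (fun θ => H (θ + π) (A - s)) (fun θ => k (θ + π) (A - s))
      (fun θ => H (θ + π) (A - s)) (fun θ => k (θ + π) (A - s)) := by
    unfold rho form
    have h := integral_shift (f := fun θ => H θ (A - s) * H θ (A - s) - k θ (A - s) * k θ (A - s))
      (fun θ => by simp only [F.perH θ _ hs', F.perk θ _ hs']) π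
    exact h.symm
  rw [h1]
  have h2 := form_affine (f := fun θ => H θ s) (f' := fun θ => k θ s)
    (g := fun θ => H (θ + π) (A - s)) (g' := fun θ => k (θ + π) (A - s))
    (R := fun θ => l θ s ^ 3 / 12) (c := 1) (a := -a) (b := -b)
    (fun θ => F.Hθ θ s hs) (fun θ => F.kθ θ s hs) (fun θ => F.perH θ s hs)
    (fun θ => by rw [hab θ s hs]; ring)
    (fun θ => by rw [F.k_symm hab θ hs]; ring)
  rw [h2, one_pow, one_mul]; rfl

theorem SS_symm (F : Flow A D H k τ m l) {s : ℝ} (hs : s ∈ Ioo 0 A) :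
    SS l (A - s) = SS l s := by
  have hs' : A - s ∈ Ioo 0 A := ⟨by linarith [hs.2], by linarith [hs.1]⟩
  have hper : ∀ θ, l (θ + 2 * π) (A - s) = l θ (A - s) := by
    intro θ
    have h1 := F.l_symm (θ + π) hs
    have h2 : HasDerivAt (fun θ => k (θ + 2 * π) (A - s))
      (l (θ + 2 * π) (A - s) ^ 3 / 12 - H (θ + 2 * π) (A - s)) θ :=
      (F.kθ (θ + 2 * π) (A - s) hs').comp_add_const θ (2 * π)
    have h3 : HasDerivAt (fun θ => k (θ + 2 * π) (A - s))
      (l θ (A - s) ^ 3 / 12 - H θ (A - s)) θ :=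
      (F.kθ θ (A - s) hs').congr_of_eventuallyEq
        (Eventually.of_forall fun x => F.perk x _ hs')
    have h4 := h2.unique h3
    rw [F.perH θ _ hs'] at h4
    have h5 : l (θ + 2 * π) (A - s) ^ 3 = l θ (A - s) ^ 3 := by linarith
    exact (pow_left_inj₀ (F.lpos _ _ hs').le (F.lpos _ _ hs').le (by norm_num)).1 h5
  unfold SS
  have h := integral_shift (f := fun θ => l θ (A - s) ^ 2) (fun θ => by simp only [hper]) π
  rw [← h]
  congr 1; funext θ
  simp only [F.l_symm θ hs]

end Flow

end Pool.Agent.Helper16.Buoy
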