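import Pool.Agent.Helper16.Buoy.Stmt

/-!
# Planar notation used in the proof (nothing here enters the final statement)
-/

open MeasureTheory Set Metric
open scoped RealInnerProductSpace

namespace Pool.Agent.Helper16.Buoy

/-! ## Planar notation -/

/-- The unit normal at angle `θ`. -/
noncomputable def uu (θ : ℝ) : E 2 := !₂[Real.cos θ, Real.sin θ]

/-- The unit tangent at angle `θ`. -/
noncomputable def vv (θ : ℝ) : E 2 := !₂[-Real.sin θ, Real.cos θ]

/-- The point with coordinates `(r, y)` in the frame `(uu θ, vv θ)`. -/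
noncomputable def pt (θ r y : ℝ) : E 2 := r • uu θ + y • vv θ

/-- The section of `K` by the line `⟨uu θ, x⟩ = r`, as a set of reals. -/
def sec (K : Set (E 2)) (θ r : ℝ) : Set ℝ := {y | pt θ r y ∈ K}

/-- Upper end of the chord. -/
noncomputable def yp (K : Set (E 2)) (θ r : ℝ) : ℝ := sSup (sec K θ r)

/-- Lower end of the chord. -/
noncomputable def ym (K : Set (E 2)) (θ r : ℝ) : ℝ := sInf (sec K θ r)

/-- A planar convex body. -/
structure Body (K : Set (E 2)) : Prop where
  conv : Convex ℝ K
  comp : IsCompact K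
  int : (interior K).Nonempty

/-- Area of the cap with normal angle `θ` and level `t`. -/
noncomputable def area (K : Set (E 2)) (θ t : ℝ) : ℝ := (volume (cap K (uu θ) t)).toReal

/-- Integral of `f` over the cap. -/
noncomputable def mom (K : Set (E 2)) (f : E 2 → ℝ) (θ t : ℝ) : ℝ := ∫ x in cap K (uu θ) t, f x

/-- The line `(θ, r)` meets the interior of `K`. -/
def cross (K : Set (E 2)) (θ r : ℝ) : Prop := ∃ x ∈ interior K, inner ℝ (uu θ) x = r

/-- The level of the cap of area `s` in direction `θ`. -/
noncomputable def tau (K : Set (E 2)) (θ s : ℝ) : ℝ := sSup {t | s ≤ area K θ t}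

/-- Chord length at the level of the `s`-cap. -/
noncomputable def len (K : Set (E 2)) (θ s : ℝ) : ℝ := yp K θ (tau K θ s) - ym K θ (tau K θ s)

/-- Chord midpoint at the level of the `s`-cap. -/
noncomputable def mid (K : Set (E 2)) (θ s : ℝ) : ℝ := (yp K θ (tau K θ s) + ym K θ (tau K θ s)) / 2

/-- First coordinate moment of the `s`-cap in the moving frame. -/
noncomputable def HH (K : Set (E 2)) (θ s : ℝ) : ℝ :=
  mom K (fun x => inner ℝ (uu θ) x) θ (tau K θ s)

/-- Second coordinate moment of the `s`-cap in the moving frame. -/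
noncomputable def kk (K : Set (E 2)) (θ s : ℝ) : ℝ :=
  mom K (fun x => inner ℝ (vv θ) x) θ (tau K θ s)

/-- Support function. -/
noncomputable def hh (K : Set (E 2)) (θ : ℝ) : ℝ := sSup ((fun x => inner ℝ (uu θ) x) '' K)

end Pool.Agent.Helper16.Buoy
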