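import Pool.Agent.Helper16.Buoy.G5

/-!
# G6. Smooth bodies: differentiability of the chord length in the level, limits as `s → 0`
-/

open MeasureTheory Set Metric Filter Topology
open Real (cos sin)

namespace Pool.Agent.Helper16.Buoy

variable {K : Set (E 2)}

/-- `K` has a `C²` support function with derivative `h'` and positive continuous curvature
radius `R`. -/
structure Smooth (K : Set (E 2)) (h' R : ℝ → ℝ) : Prop extends Body K where
  dh : ∀ θ, HasDerivAt (hh K) (h' θ) θ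
  dh' : ∀ θ, HasDerivAt h' (R θ - hh K θ) θ
  contR : Continuous R
  Rpos : ∀ θ, 0 < R θ

variable {h' R : ℝ → ℝ}

theorem hh_per (K : Set (E 2)) (θ : ℝ) : hh K (θ + 2 * Real.pi) = hh K θ := by
  unfold hh; rw [uu_add_two_pi]

theorem Body.inner_le_hh (hK : Body K) (θ : ℝ) {x : E 2} (hx : x ∈ K) :
    inner ℝ (uu θ) x ≤ hh K θ :=
  (hK.hh_isGreatest θ).2 ⟨x, hx, rfl⟩

theorem Body.inner_lt_hh (hK : Body K) (θ : ℝ) {x : E 2} (hx : x ∈ interior K) :
    inner ℝ (uu θ) x < hh K θ := by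
  have h1 : Tendsto (fun e : ℝ => x + e • uu θ) (𝓝 0) (𝓝 x) := by
    have : Tendsto (fun e : ℝ => x + e • uu θ) (𝓝 0) (𝓝 (x + (0:ℝ) • uu θ)) :=
      (Continuous.tendsto (by fun_prop) 0)
    rwa [zero_smul, add_zero] at this
  have h2 : ∀ᶠ e in 𝓝 (0:ℝ), x + e • uu θ ∈ K := by
    have := h1.eventually (isOpen_interior.mem_nhds hx)
    exact this.mono fun e he => interior_subset he
  have h3 : ∀ᶠ e in 𝓝[>] (0:ℝ), x + e • uu θ ∈ K := h2.filter_mono nhdsWithin_le_nhds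
  obtain ⟨e, he, he0⟩ := (h3.and self_mem_nhdsWithin).exists
  have he0' : (0:ℝ) < e := he0
  have h4 := hK.inner_le_hh θ he
  rw [inner_add_right, inner_smul_right, real_inner_self_eq_norm_sq, norm_uu] at h4
  linarith

/-- the levels of crossing lines -/
theorem Body.cross_bounds (hK : Body K) {θ r : ℝ} (h : cross K θ r) :
    -hh K (θ + Real.pi) < r ∧ r < hh K θ := by
  obtain ⟨x, hx, rfl⟩ := h
  refine ⟨?_, hK.inner_lt_hh θ hx⟩
  have := hK.inner_lt_hh (θ + Real.pi) hx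
  rw [uu_add_pi, inner_neg_left] at this
  linarith

theorem Smooth.eq_support (hK : Smooth K h' R) {φ : ℝ} {z : E 2} (hz : z ∈ K)
    (hz' : inner ℝ (uu φ) z = hh K φ) : z = pt φ (hh K φ) (h' φ) := by
  have hd : HasDerivAt (fun ψ => hh K ψ - inner ℝ (uu ψ) z)
      (h' φ - inner ℝ (vv φ) z) φ := by
    refine (hK.dh φ).sub ?_
    have h1 : (fun ψ : ℝ => inner ℝ (uu ψ) z) = fun ψ => cos ψ * z 0 + sin ψ * z 1 := by
      funext ψ; rw [inner_uu]
    rw [h1, inner_vv]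
    exact ((Real.hasDerivAt_cos φ).mul_const _).add ((Real.hasDerivAt_sin φ).mul_const _)
  have hmin : IsLocalMin (fun ψ => hh K ψ - inner ℝ (uu ψ) z) φ := by
    refine Filter.Eventually.of_forall fun ψ => ?_
    simp only
    rw [hz', sub_self]
    linarith [hK.toBody.inner_le_hh ψ hz]
  have h0 := hmin.hasDerivAt_eq_zero hd
  have h1 : inner ℝ (vv φ) z = h' φ := by linarith
  rw [← hz', ← h1, pt_inner]

/-- The support point. -/
theorem Smooth.support_mem (hK : Smooth K h' R) (φ : ℝ) : pt φ (hh K φ) (h' φ) ∈ K := by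
  obtain ⟨z, hz, hz'⟩ := (hK.toBody.hh_isGreatest φ).1
  rw [← hK.eq_support hz hz']
  exact hz

/-- The support points parametrise the upper ends of the chords: for `φ ∈ (θ, θ + π)`, the point
`x φ = pt φ (hh K φ) (h' φ)` is the upper end of the chord with normal angle `θ` through it. -/
theorem Smooth.yp_eq (hK : Smooth K h' R) {θ φ : ℝ} (hφ : φ ∈ Ioo θ (θ + Real.pi)) :
    yp K θ (inner ℝ (uu θ) (pt φ (hh K φ) (h' φ))) = inner ℝ (vv θ) (pt φ (hh K φ) (h' φ)) := by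
  have hsin : 0 < sin (φ - θ) := Real.sin_pos_of_pos_of_lt_pi (by linarith [hφ.1]) (by linarith [hφ.2])
  have hg : IsGreatest (sec K θ (inner ℝ (uu θ) (pt φ (hh K φ) (h' φ))))
      (inner ℝ (vv θ) (pt φ (hh K φ) (h' φ))) := by
    constructor
    · show pt θ _ _ ∈ K
      rw [pt_inner]; exact hK.support_mem φ
    · intro y hy
      have hy' : pt θ (inner ℝ (uu θ) (pt φ (hh K φ) (h' φ))) y ∈ K := hy
      have h1 := hK.toBody.inner_le_hh φ hy'
      rw [inner_uu_pt'] at h1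
      have h2 : inner ℝ (uu φ) (pt θ (inner ℝ (uu θ) (pt φ (hh K φ) (h' φ)))
          (inner ℝ (vv θ) (pt φ (hh K φ) (h' φ)))) = hh K φ := by
        rw [pt_inner, inner_uu_pt]
      rw [inner_uu_pt'] at h2
      nlinarith
  exact hg.csSup_eq

theorem Smooth.ym_eq (hK : Smooth K h' R) {θ φ : ℝ} (hφ : φ ∈ Ioo (θ - Real.pi) θ) :
    ym K θ (inner ℝ (uu θ) (pt φ (hh K φ) (h' φ))) = inner ℝ (vv θ) (pt φ (hh K φ) (h' φ)) := by
  have hsin : sin (φ - θ) < 0 := by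
    have : 0 < sin (θ - φ) := Real.sin_pos_of_pos_of_lt_pi (by linarith [hφ.2]) (by linarith [hφ.1])
    rw [← neg_sub, Real.sin_neg]; linarith
  have hg : IsLeast (sec K θ (inner ℝ (uu θ) (pt φ (hh K φ) (h' φ))))
      (inner ℝ (vv θ) (pt φ (hh K φ) (h' φ))) := by
    constructor
    · show pt θ _ _ ∈ K
      rw [pt_inner]; exact hK.support_mem φ
    · intro y hy
      have hy' : pt θ (inner ℝ (uu θ) (pt φ (hh K φ) (h' φ))) y ∈ K := hy
      have h1 := hK.toBody.inner_le_hh φ hy'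
      rw [inner_uu_pt'] at h1
      have h2 : inner ℝ (uu φ) (pt θ (inner ℝ (uu θ) (pt φ (hh K φ) (h' φ)))
          (inner ℝ (vv θ) (pt φ (hh K φ) (h' φ)))) = hh K φ := by
        rw [pt_inner, inner_uu_pt]
      rw [inner_uu_pt'] at h2
      nlinarith
  exact hg.csInf_eq

/-! ### The two branches -/

/-- the level of the support point `θ + σ ω` in the frame `θ` -/
noncomputable def Fs (K : Set (E 2)) (h' : ℝ → ℝ) (σ θ ω : ℝ) : ℝ :=
  hh K (θ + σ * ω) * cos ω - σ * h' (θ + σ * ω) * sin ω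

/-- the second coordinate of the support point `θ + σ ω` in the frame `θ` -/
noncomputable def Gs (K : Set (E 2)) (h' : ℝ → ℝ) (σ θ ω : ℝ) : ℝ :=
  σ * hh K (θ + σ * ω) * sin ω + h' (θ + σ * ω) * cos ω

theorem inner_uu_support {σ : ℝ} (hσ : σ = 1 ∨ σ = -1) (θ ω : ℝ) :
    inner ℝ (uu θ) (pt (θ + σ * ω) (hh K (θ + σ * ω)) (h' (θ + σ * ω))) = Fs K h' σ θ ω := by
  rw [inner_uu_pt', show θ - (θ + σ * ω) = -(σ * ω) by ring, Real.cos_neg, Real.sin_neg]
  unfold Fs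
  rcases hσ with rfl | rfl
  · rw [one_mul]; ring
  · rw [neg_one_mul, Real.cos_neg, Real.sin_neg]; ring

theorem inner_vv_support {σ : ℝ} (hσ : σ = 1 ∨ σ = -1) (θ ω : ℝ) :
    inner ℝ (vv θ) (pt (θ + σ * ω) (hh K (θ + σ * ω)) (h' (θ + σ * ω))) = Gs K h' σ θ ω := by
  rw [inner_vv_pt', show θ - (θ + σ * ω) = -(σ * ω) by ring, Real.cos_neg, Real.sin_neg]
  unfold Gs
  rcases hσ with rfl | rfl
  · rw [one_mul]; ring
  · rw [neg_one_mul, Real.cos_neg, Real.sin_neg]; ring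

theorem sig_sq {σ : ℝ} (hσ : σ = 1 ∨ σ = -1) : σ * σ = 1 := by
  rcases hσ with rfl | rfl <;> norm_num

theorem Smooth.dF (hK : Smooth K h' R) {σ : ℝ} (hσ : σ = 1 ∨ σ = -1) (θ ω : ℝ) :
    HasDerivAt (Fs K h' σ θ) (-(R (θ + σ * ω) * sin ω)) ω := by
  have hs := sig_sq hσ
  have h0 : HasDerivAt (fun ω : ℝ => θ + σ * ω) σ ω := by
    have := ((hasDerivAt_id ω).const_mul σ).const_add θ
    simpa using this
  have h1 : HasDerivAt (fun ω : ℝ => hh K (θ + σ * ω)) (h' (θ + σ * ω) * σ) ω :=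
    HasDerivAt.comp (h₂ := hh K) ω (hK.dh (θ + σ * ω)) h0
  have h2 : HasDerivAt (fun ω : ℝ => h' (θ + σ * ω)) ((R (θ + σ * ω) - hh K (θ + σ * ω)) * σ) ω :=
    HasDerivAt.comp (h₂ := h') ω (hK.dh' (θ + σ * ω)) h0
  have h3 := (h1.mul (Real.hasDerivAt_cos ω)).sub ((h2.const_mul σ).mul (Real.hasDerivAt_sin ω))
  refine (h3.congr_deriv ?_)
  linear_combination (-(R (θ + σ * ω) - hh K (θ + σ * ω)) * sin ω) * hs

theorem Smooth.dG (hK : Smooth K h' R) {σ : ℝ} (hσ : σ = 1 ∨ σ = -1) (θ ω : ℝ) :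
    HasDerivAt (Gs K h' σ θ) (σ * R (θ + σ * ω) * cos ω) ω := by
  have hs := sig_sq hσ
  have h0 : HasDerivAt (fun ω : ℝ => θ + σ * ω) σ ω := by
    have := ((hasDerivAt_id ω).const_mul σ).const_add θ
    simpa using this
  have h1 : HasDerivAt (fun ω : ℝ => hh K (θ + σ * ω)) (h' (θ + σ * ω) * σ) ω :=
    HasDerivAt.comp (h₂ := hh K) ω (hK.dh (θ + σ * ω)) h0
  have h2 : HasDerivAt (fun ω : ℝ => h' (θ + σ * ω)) ((R (θ + σ * ω) - hh K (θ + σ * ω)) * σ) ω :=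
    HasDerivAt.comp (h₂ := h') ω (hK.dh' (θ + σ * ω)) h0
  have h3 := ((h1.const_mul σ).mul (Real.hasDerivAt_sin ω)).add (h2.mul (Real.hasDerivAt_cos ω))
  refine (h3.congr_deriv ?_)
  linear_combination (h' (θ + σ * ω) * sin ω) * hs

theorem Smooth.cont_hh (hK : Smooth K h' R) : Continuous (hh K) :=
  continuous_iff_continuousAt.mpr fun θ => (hK.dh θ).continuousAt

theorem Smooth.cont_h' (hK : Smooth K h' R) : Continuous h' :=
  continuous_iff_continuousAt.mpr fun θ => (hK.dh' θ).continuousAt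

theorem Smooth.cont_F (hK : Smooth K h' R) (σ : ℝ) :
    Continuous fun p : ℝ × ℝ => Fs K h' σ p.1 p.2 := by
  have h1 := hK.cont_hh
  have h2 := hK.cont_h'
  unfold Fs
  fun_prop

theorem Smooth.cont_G (hK : Smooth K h' R) (σ : ℝ) :
    Continuous fun p : ℝ × ℝ => Gs K h' σ p.1 p.2 := by
  have h1 := hK.cont_hh
  have h2 := hK.cont_h'
  unfold Gs
  fun_prop

theorem Smooth.anti_F (hK : Smooth K h' R) {σ : ℝ} (hσ : σ = 1 ∨ σ = -1) (θ : ℝ) :
    StrictAntiOn (Fs K h' σ θ) (Icc 0 Real.pi) := by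
  apply strictAntiOn_of_deriv_neg (convex_Icc _ _)
  · exact fun ω _ => (hK.dF hσ θ ω).continuousAt.continuousWithinAt
  · intro ω hω
    rw [interior_Icc] at hω
    rw [(hK.dF hσ θ ω).deriv]
    have := mul_pos (hK.Rpos (θ + σ * ω)) (Real.sin_pos_of_pos_of_lt_pi hω.1 hω.2)
    linarith

theorem Fs_zero (K : Set (E 2)) (h' : ℝ → ℝ) (σ θ : ℝ) : Fs K h' σ θ 0 = hh K θ := by
  unfold Fs; simp

theorem Gs_zero (K : Set (E 2)) (h' : ℝ → ℝ) (σ θ : ℝ) : Gs K h' σ θ 0 = h' θ := by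
  unfold Gs; simp

theorem Fs_pi (K : Set (E 2)) (h' : ℝ → ℝ) {σ : ℝ} (hσ : σ = 1 ∨ σ = -1) (θ : ℝ) :
    Fs K h' σ θ Real.pi = -hh K (θ + Real.pi) := by
  unfold Fs
  rw [Real.cos_pi, Real.sin_pi]
  rcases hσ with rfl | rfl
  · rw [one_mul]; ring
  · rw [show θ + Real.pi = θ + -1 * Real.pi + 2 * Real.pi by ring, hh_per]; ring

open Classical in
/-- the inverse of the level function -/
noncomputable def om (K : Set (E 2)) (h' : ℝ → ℝ) (σ θ r : ℝ) : ℝ :=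
  if h : ∃ ω ∈ Ioo 0 Real.pi, Fs K h' σ θ ω = r then h.choose else 0

/-- the condition that the level is strictly between the support values -/
def Lev (K : Set (E 2)) (θ r : ℝ) : Prop := -hh K (θ + Real.pi) < r ∧ r < hh K θ

theorem Smooth.om_spec (hK : Smooth K h' R) {σ : ℝ} (hσ : σ = 1 ∨ σ = -1) {θ r : ℝ}
    (hr : Lev K θ r) : om K h' σ θ r ∈ Ioo 0 Real.pi ∧ Fs K h' σ θ (om K h' σ θ r) = r := by
  have hex : ∃ ω ∈ Ioo 0 Real.pi, Fs K h' σ θ ω = r := by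
    have h1 : ContinuousOn (Fs K h' σ θ) (Icc 0 Real.pi) :=
      fun ω _ => (hK.dF hσ θ ω).continuousAt.continuousWithinAt
    have h2 := intermediate_value_Ioo' Real.pi_pos.le h1
    rw [Fs_zero, Fs_pi K h' hσ] at h2
    exact h2 hr
  unfold om
  rw [dif_pos hex]
  exact hex.choose_spec

theorem Smooth.om_lt (hK : Smooth K h' R) {σ : ℝ} (hσ : σ = 1 ∨ σ = -1) {θ r ω : ℝ}
    (hr : Lev K θ r) (hω : ω ∈ Icc 0 Real.pi) (h : Fs K h' σ θ ω < r) : om K h' σ θ r < ω := by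
  obtain ⟨h1, h2⟩ := hK.om_spec hσ hr
  by_contra hcon
  rw [not_lt] at hcon
  have := (hK.anti_F hσ θ).antitoneOn hω ⟨h1.1.le, h1.2.le⟩ hcon
  rw [h2] at this
  linarith

theorem Smooth.lt_om (hK : Smooth K h' R) {σ : ℝ} (hσ : σ = 1 ∨ σ = -1) {θ r ω : ℝ}
    (hr : Lev K θ r) (hω : ω ∈ Icc 0 Real.pi) (h : r < Fs K h' σ θ ω) : ω < om K h' σ θ r := by
  obtain ⟨h1, h2⟩ := hK.om_spec hσ hr
  by_contra hcon
  rw [not_lt] at hcon
  have := (hK.anti_F hσ θ).antitoneOn ⟨h1.1.le, h1.2.le⟩ hω hcon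
  rw [h2] at this
  linarith

theorem Smooth.lev_eventually (hK : Smooth K h' R) {θ r : ℝ} (hr : Lev K θ r) :
    ∀ᶠ p : ℝ × ℝ in 𝓝 (θ, r), Lev K p.1 p.2 := by
  have h1 := hK.cont_hh
  have c1 : Continuous fun p : ℝ × ℝ => -hh K (p.1 + Real.pi) := by fun_prop
  have c2 : Continuous fun p : ℝ × ℝ => hh K p.1 := by fun_prop
  exact ((isOpen_lt c1 continuous_snd).inter (isOpen_lt continuous_snd c2)).mem_nhds hr

theorem Smooth.om_cont (hK : Smooth K h' R) {σ : ℝ} (hσ : σ = 1 ∨ σ = -1) {θ r : ℝ}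
    (hr : Lev K θ r) : ContinuousAt (fun p : ℝ × ℝ => om K h' σ p.1 p.2) (θ, r) := by
  obtain ⟨h1, h2⟩ := hK.om_spec hσ hr
  have hev := hK.lev_eventually hr
  have hcF : ∀ a : ℝ, Continuous fun p : ℝ × ℝ => Fs K h' σ p.1 a := by
    intro a
    have e1 := hK.cont_hh
    have e2 := hK.cont_h'
    unfold Fs
    fun_prop
  have hlow : ∀ a < om K h' σ θ r, ∀ᶠ p : ℝ × ℝ in 𝓝 (θ, r), a < om K h' σ p.1 p.2 := by
    intro a ha
    have hb1 : max a (om K h' σ θ r / 2) < om K h' σ θ r := max_lt ha (by linarith [h1.1])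
    have hb0 : 0 < max a (om K h' σ θ r / 2) :=
      lt_of_lt_of_le (by linarith [h1.1]) (le_max_right _ _)
    have hb2 : a ≤ max a (om K h' σ θ r / 2) := le_max_left _ _
    generalize max a (om K h' σ θ r / 2) = b at hb1 hb0 hb2
    have hbI : b ∈ Icc 0 Real.pi := ⟨hb0.le, by linarith [h1.2]⟩
    have h3 := hK.anti_F hσ θ hbI ⟨h1.1.le, h1.2.le⟩ hb1
    rw [h2] at h3
    have h4 : ∀ᶠ p : ℝ × ℝ in 𝓝 (θ, r), p.2 < Fs K h' σ p.1 b := by
      have h5 : IsOpen {p : ℝ × ℝ | p.2 < Fs K h' σ p.1 b} := isOpen_lt continuous_snd (hcF b)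
      exact h5.mem_nhds h3
    filter_upwards [hev, h4] with p hp hp'
    exact lt_of_le_of_lt hb2 (hK.lt_om hσ hp hbI hp')
  have hup : ∀ a > om K h' σ θ r, ∀ᶠ p : ℝ × ℝ in 𝓝 (θ, r), om K h' σ p.1 p.2 < a := by
    intro a ha
    have hb1 : om K h' σ θ r < min a ((om K h' σ θ r + Real.pi) / 2) :=
      lt_min ha (by linarith [h1.2])
    have hb0 : min a ((om K h' σ θ r + Real.pi) / 2) < Real.pi :=
      lt_of_le_of_lt (min_le_right _ _) (by linarith [h1.2])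
    have hb2 : min a ((om K h' σ θ r + Real.pi) / 2) ≤ a := min_le_left _ _
    generalize min a ((om K h' σ θ r + Real.pi) / 2) = b at hb1 hb0 hb2
    have hbI : b ∈ Icc 0 Real.pi := ⟨by linarith [h1.1], hb0.le⟩
    have h3 := hK.anti_F hσ θ ⟨h1.1.le, h1.2.le⟩ hbI hb1
    rw [h2] at h3
    have h4 : ∀ᶠ p : ℝ × ℝ in 𝓝 (θ, r), Fs K h' σ p.1 b < p.2 := by
      have h5 : IsOpen {p : ℝ × ℝ | Fs K h' σ p.1 b < p.2} := isOpen_lt (hcF b) continuous_snd
      exact h5.mem_nhds h3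
    filter_upwards [hev, h4] with p hp hp'
    exact lt_of_lt_of_le (hK.om_lt hσ hp hbI hp') hb2
  exact tendsto_order.mpr ⟨hlow, hup⟩

theorem Smooth.om_deriv (hK : Smooth K h' R) {σ : ℝ} (hσ : σ = 1 ∨ σ = -1) {θ r : ℝ}
    (hr : Lev K θ r) : HasDerivAt (om K h' σ θ)
      (-(R (θ + σ * om K h' σ θ r) * sin (om K h' σ θ r)))⁻¹ r := by
  obtain ⟨h1, h2⟩ := hK.om_spec hσ hr
  have hc : ContinuousAt (om K h' σ θ) r := by
    have := hK.om_cont hσ hr
    exact this.comp (f := fun r : ℝ => (θ, r)) (by fun_prop)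
  have hev : ∀ᶠ r' in 𝓝 r, Lev K θ r' := by
    have h3 := hK.lev_eventually hr
    have h4 : ContinuousAt (fun r : ℝ => (θ, r)) r := by fun_prop
    exact h4.eventually h3
  refine HasDerivAt.of_local_left_inverse hc (hK.dF hσ θ _) ?_ ?_
  · have := mul_pos (hK.Rpos (θ + σ * om K h' σ θ r)) (Real.sin_pos_of_pos_of_lt_pi h1.1 h1.2)
    linarith
  · filter_upwards [hev] with r' hr'
    exact (hK.om_spec hσ hr').2

theorem Smooth.yp_eq_G (hK : Smooth K h' R) {θ r : ℝ} (hr : Lev K θ r) :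
    yp K θ r = Gs K h' 1 θ (om K h' 1 θ r) := by
  obtain ⟨h1, h2⟩ := hK.om_spec (Or.inl rfl) hr
  have h3 := hK.yp_eq (θ := θ) (φ := θ + 1 * om K h' 1 θ r)
    ⟨by linarith [h1.1], by linarith [h1.2]⟩
  rwa [inner_uu_support (Or.inl rfl), inner_vv_support (Or.inl rfl), h2] at h3

theorem Smooth.ym_eq_G (hK : Smooth K h' R) {θ r : ℝ} (hr : Lev K θ r) :
    ym K θ r = Gs K h' (-1) θ (om K h' (-1) θ r) := by
  obtain ⟨h1, h2⟩ := hK.om_spec (Or.inr rfl) hr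
  have h3 := hK.ym_eq (θ := θ) (φ := θ + (-1) * om K h' (-1) θ r)
    ⟨by linarith [h1.2], by linarith [h1.1]⟩
  rwa [inner_uu_support (Or.inr rfl), inner_vv_support (Or.inr rfl), h2] at h3

/-- derivative of the branch ends in the level -/
theorem Smooth.G_om_deriv (hK : Smooth K h' R) {σ : ℝ} (hσ : σ = 1 ∨ σ = -1) {θ r : ℝ}
    (hr : Lev K θ r) : HasDerivAt (fun r => Gs K h' σ θ (om K h' σ θ r))
      (-(σ * (cos (om K h' σ θ r) / sin (om K h' σ θ r)))) r := by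
  obtain ⟨h1, h2⟩ := hK.om_spec hσ hr
  have h3 := (hK.dG hσ θ (om K h' σ θ r)).comp r (hK.om_deriv hσ hr)
  refine h3.congr_deriv ?_
  have hR := (hK.Rpos (θ + σ * om K h' σ θ r)).ne'
  have hS := (Real.sin_pos_of_pos_of_lt_pi h1.1 h1.2).ne'
  field_simp

theorem Smooth.lev_tau (hK : Smooth K h' R) {θ s : ℝ} (hs : s ∈ Ioo 0 (tot K)) :
    Lev K θ (tau K θ s) := hK.toBody.cross_bounds (hK.toBody.cross_tau hs)

theorem Smooth.lev_eventually' (hK : Smooth K h' R) {θ r : ℝ} (hr : Lev K θ r) :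
    ∀ᶠ r' in 𝓝 r, Lev K θ r' := by
  have h3 := hK.lev_eventually hr
  have h4 : ContinuousAt (fun r : ℝ => (θ, r)) r := by fun_prop
  exact h4.eventually h3

/-- the derivative of the chord length in `s` -/
noncomputable def lsf (K : Set (E 2)) (h' : ℝ → ℝ) (θ s : ℝ) : ℝ :=
  (cos (om K h' 1 θ (tau K θ s)) / sin (om K h' 1 θ (tau K θ s))
    + cos (om K h' (-1) θ (tau K θ s)) / sin (om K h' (-1) θ (tau K θ s))) / len K θ s

theorem Smooth.len_deriv (hK : Smooth K h' R) {θ s : ℝ} (hs : s ∈ Ioo 0 (tot K)) :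
    HasDerivAt (fun s => len K θ s) (lsf K h' θ s) s := by
  have hl := hK.lev_tau (θ := θ) hs
  have h1 := hK.G_om_deriv (Or.inl rfl) hl
  have h2 := hK.G_om_deriv (Or.inr rfl) hl
  have ht := hK.toBody.tau_s (θ := θ) hs
  have h3 : HasDerivAt (fun r => Gs K h' 1 θ (om K h' 1 θ r) - Gs K h' (-1) θ (om K h' (-1) θ r))
      _ (tau K θ s) := h1.sub h2
  have h4 := h3.congr_of_eventuallyEq (f₁ := fun r => yp K θ r - ym K θ r) (by
    filter_upwards [hK.lev_eventually' hl] with r hr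
    rw [hK.yp_eq_G hr, hK.ym_eq_G hr])
  have h5 := h4.comp s ht
  have h6 : HasDerivAt (fun s => len K θ s) _ s := h5
  refine h6.congr_deriv ?_
  unfold lsf
  have := (hK.toBody.len_pos (θ := θ) hs).ne'
  field_simp
  ring

theorem Smooth.lsf_cont (hK : Smooth K h' R) :
    ContinuousOn (fun p : ℝ × ℝ => lsf K h' p.1 p.2) (univ ×ˢ Ioo 0 (tot K)) := by
  have hom : ∀ {σ : ℝ} (_ : σ = 1 ∨ σ = -1),
      ContinuousOn (fun p : ℝ × ℝ => om K h' σ p.1 (tau K p.1 p.2)) (univ ×ˢ Ioo 0 (tot K)) := by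
    intro σ hσ p hp
    have hs : p.2 ∈ Ioo 0 (tot K) := hp.2
    have h1 := hK.om_cont hσ (hK.lev_tau (θ := p.1) hs)
    have h2 : ContinuousWithinAt (fun p : ℝ × ℝ => (p.1, tau K p.1 p.2))
        (univ ×ˢ Ioo 0 (tot K)) p :=
      continuous_fst.continuousWithinAt.prodMk (hK.toBody.tau_cont p hp)
    exact h1.comp_continuousWithinAt (f := fun p : ℝ × ℝ => (p.1, tau K p.1 p.2)) h2
  have hsin : ∀ {σ : ℝ} (_ : σ = 1 ∨ σ = -1), ∀ p ∈ (univ : Set ℝ) ×ˢ Ioo 0 (tot K),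
      sin (om K h' σ p.1 (tau K p.1 p.2)) ≠ 0 := by
    intro σ hσ p hp
    have hs : p.2 ∈ Ioo 0 (tot K) := hp.2
    obtain ⟨h1, _⟩ := hK.om_spec hσ (hK.lev_tau (θ := p.1) hs)
    exact (Real.sin_pos_of_pos_of_lt_pi h1.1 h1.2).ne'
  have h1 := hom (Or.inl rfl)
  have h2 := hom (Or.inr rfl)
  have e1 : ContinuousOn (fun p : ℝ × ℝ => cos (om K h' 1 p.1 (tau K p.1 p.2)) /
      sin (om K h' 1 p.1 (tau K p.1 p.2))) (univ ×ˢ Ioo 0 (tot K)) :=
    (Real.continuous_cos.comp_continuousOn h1).div (Real.continuous_sin.comp_continuousOn h1)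
      (hsin (Or.inl rfl))
  have e2 : ContinuousOn (fun p : ℝ × ℝ => cos (om K h' (-1) p.1 (tau K p.1 p.2)) /
      sin (om K h' (-1) p.1 (tau K p.1 p.2))) (univ ×ˢ Ioo 0 (tot K)) :=
    (Real.continuous_cos.comp_continuousOn h2).div (Real.continuous_sin.comp_continuousOn h2)
      (hsin (Or.inr rfl))
  refine (e1.add e2).div hK.toBody.len_cont ?_
  intro p hp
  exact (hK.toBody.len_pos (θ := p.1) hp.2).ne'

/-- The chord length is differentiable in `s`, with a jointly continuous derivative. -/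
theorem Smooth.len_s (hK : Smooth K h' R) : ∃ ls : ℝ → ℝ → ℝ,
    (∀ θ, ∀ s ∈ Ioo 0 (tot K), HasDerivAt (fun s => len K θ s) (ls θ s) s) ∧
    ContinuousOn (fun p : ℝ × ℝ => ls p.1 p.2) (univ ×ˢ Ioo 0 (tot K)) :=
  ⟨lsf K h', fun _ _ hs => hK.len_deriv hs, hK.lsf_cont⟩

/-! ### Limits as `s → 0` -/

/-- caps below the support value have positive area -/
theorem Body.area_pos (hK : Body K) {θ t : ℝ} (ht : t < hh K θ) : 0 < area K θ t := by
  obtain ⟨x, hx, hx'⟩ := (hK.hh_isGreatest θ).1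
  have hx2 : inner ℝ (uu θ) x = hh K θ := hx'
  have hU : IsOpen {y : E 2 | t < inner ℝ (uu θ) y} :=
    isOpen_lt continuous_const (continuous_const.inner continuous_id)
  have hxc : x ∈ closure (interior K) := by
    rw [hK.conv.closure_interior_eq_closure_of_nonempty_interior hK.int]
    exact subset_closure hx
  have hne : (interior K ∩ {y : E 2 | t < inner ℝ (uu θ) y}).Nonempty := by
    rw [_root_.mem_closure_iff] at hxc
    obtain ⟨y, hy1, hy2⟩ := hxc _ hU (by show t < inner ℝ (uu θ) x; rw [hx2]; exact ht)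
    exact ⟨y, hy2, hy1⟩
  have hpos := (isOpen_interior.inter hU).measure_pos volume hne
  have hsub : interior K ∩ {y : E 2 | t < inner ℝ (uu θ) y} ⊆ cap K (uu θ) t :=
    fun y hy => ⟨interior_subset hy.1, by have h3 : t < inner ℝ (uu θ) y := hy.2; exact h3.le⟩
  have hle := measure_mono (μ := volume) hsub
  have hfin : volume (cap K (uu θ) t) ≠ ⊤ :=
    ne_top_of_le_ne_top hK.comp.measure_lt_top.ne (measure_mono fun y hy => hy.1)
  exact ENNReal.toReal_pos (lt_of_lt_of_le hpos hle).ne' hfin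

theorem Smooth.tau_lim (hK : Smooth K h' R) (θ : ℝ) :
    Tendsto (fun s => tau K θ s) (𝓝[>] 0) (𝓝 (hh K θ)) := by
  have htot := hK.toBody.tot_pos
  refine tendsto_order.mpr ⟨?_, ?_⟩
  · intro a ha
    have hpos := hK.toBody.area_pos ha
    filter_upwards [Ioo_mem_nhdsGT (lt_min hpos htot)] with s hs
    exact (hK.toBody.lt_area_iff ⟨hs.1, lt_of_lt_of_le hs.2 (min_le_right _ _)⟩).mp
      (lt_of_lt_of_le hs.2 (min_le_left _ _))
  · intro a ha
    filter_upwards [Ioo_mem_nhdsGT htot] with s hs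
    exact lt_trans (hK.lev_tau hs).2 ha

theorem Smooth.om_lim (hK : Smooth K h' R) {σ : ℝ} (hσ : σ = 1 ∨ σ = -1) (θ : ℝ) :
    Tendsto (fun s => om K h' σ θ (tau K θ s)) (𝓝[>] 0) (𝓝[>] 0) := by
  have htot := hK.toBody.tot_pos
  have hpos : ∀ᶠ s in 𝓝[>] (0:ℝ), 0 < om K h' σ θ (tau K θ s) := by
    filter_upwards [Ioo_mem_nhdsGT htot] with s hs
    exact (hK.om_spec hσ (hK.lev_tau hs)).1.1
  refine tendsto_nhdsWithin_iff.mpr ⟨?_, hpos⟩
  refine tendsto_order.mpr ⟨?_, ?_⟩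
  · intro a ha
    filter_upwards [hpos] with s hs
    exact lt_trans ha hs
  · intro a ha
    have hpi := Real.pi_pos
    have hb : 0 < min a Real.pi := lt_min ha hpi
    have hbI : min a Real.pi ∈ Icc 0 Real.pi := ⟨hb.le, min_le_right _ _⟩
    have h1 := hK.anti_F hσ θ (left_mem_Icc.mpr hpi.le) hbI hb
    rw [Fs_zero] at h1
    filter_upwards [Ioo_mem_nhdsGT htot, (hK.tau_lim θ).eventually (lt_mem_nhds h1)] with s hs hs'
    exact lt_of_lt_of_le (hK.om_lt hσ (hK.lev_tau hs) hbI hs') (min_le_left _ _)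

theorem Smooth.G_lim (hK : Smooth K h' R) {σ : ℝ} (hσ : σ = 1 ∨ σ = -1) (θ : ℝ) :
    Tendsto (fun s => Gs K h' σ θ (om K h' σ θ (tau K θ s))) (𝓝[>] 0) (𝓝 (h' θ)) := by
  have h1 : Tendsto (Gs K h' σ θ) (𝓝 0) (𝓝 (Gs K h' σ θ 0)) := (hK.dG hσ θ 0).continuousAt
  rw [Gs_zero] at h1
  exact h1.comp ((hK.om_lim hσ θ).mono_right nhdsWithin_le_nhds)

theorem Smooth.yp_lim (hK : Smooth K h' R) (θ : ℝ) :
    Tendsto (fun s => yp K θ (tau K θ s)) (𝓝[>] 0) (𝓝 (h' θ)) := by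
  refine (hK.G_lim (Or.inl rfl) θ).congr' ?_
  filter_upwards [Ioo_mem_nhdsGT hK.toBody.tot_pos] with s hs
  exact (hK.yp_eq_G (hK.lev_tau hs)).symm

theorem Smooth.ym_lim (hK : Smooth K h' R) (θ : ℝ) :
    Tendsto (fun s => ym K θ (tau K θ s)) (𝓝[>] 0) (𝓝 (h' θ)) := by
  refine (hK.G_lim (Or.inr rfl) θ).congr' ?_
  filter_upwards [Ioo_mem_nhdsGT hK.toBody.tot_pos] with s hs
  exact (hK.ym_eq_G (hK.lev_tau hs)).symm

theorem Smooth.mid_lim (hK : Smooth K h' R) (θ : ℝ) :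
    Tendsto (fun s => mid K θ s) (𝓝[>] 0) (𝓝 (h' θ)) := by
  have := ((hK.yp_lim θ).add (hK.ym_lim θ)).div_const 2
  rw [show (h' θ + h' θ) / 2 = h' θ by ring] at this
  exact this

theorem Smooth.len_lim (hK : Smooth K h' R) (θ : ℝ) :
    Tendsto (fun s => len K θ s) (𝓝[>] 0) (𝓝 0) := by
  have := (hK.yp_lim θ).sub (hK.ym_lim θ)
  rw [sub_self] at this
  exact this

theorem tendsto_slope_right {f : ℝ → ℝ} {f' : ℝ} (h : HasDerivAt f f' 0) :
    Tendsto (fun x => (f x - f 0) / x) (𝓝[>] 0) (𝓝 f') := by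
  have h1 := (hasDerivAt_iff_tendsto_slope.mp h).mono_left
    (nhdsWithin_mono 0 (fun x (hx : (0:ℝ) < x) => (hx.ne' : x ≠ 0)))
  refine h1.congr fun x => ?_
  rw [slope_def_field, sub_zero]

theorem sin_div_lim : Tendsto (fun x : ℝ => sin x / x) (𝓝[>] 0) (𝓝 1) := by
  have h1 := tendsto_slope_right (Real.hasDerivAt_sin 0)
  rw [Real.cos_zero] at h1
  refine h1.congr fun x => ?_
  rw [Real.sin_zero, sub_zero]

theorem cot_lim : Tendsto (fun x : ℝ => x * (cos x / sin x)) (𝓝[>] 0) (𝓝 1) := by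
  have h1 : Tendsto (fun x : ℝ => cos x) (𝓝[>] 0) (𝓝 1) := by
    have : Tendsto (fun x : ℝ => cos x) (𝓝 0) (𝓝 (cos 0)) := Real.continuous_cos.tendsto 0
    rw [Real.cos_zero] at this
    exact this.mono_left nhdsWithin_le_nhds
  have h2 := h1.mul (sin_div_lim.inv₀ one_ne_zero)
  rw [inv_one, mul_one] at h2
  refine h2.congr fun x => ?_
  rw [inv_div]; ring

theorem Smooth.F_lim2 (hK : Smooth K h' R) {σ : ℝ} (hσ : σ = 1 ∨ σ = -1) (θ : ℝ) :
    Tendsto (fun ω => (hh K θ - Fs K h' σ θ ω) / ω ^ 2) (𝓝[>] 0) (𝓝 (R θ / 2)) := by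
  have hcR := hK.contR
  refine HasDerivAt.lhopital_zero_nhdsGT (f := fun ω => hh K θ - Fs K h' σ θ ω)
    (g := fun ω => ω ^ 2) (f' := fun ω => R (θ + σ * ω) * sin ω) (g' := fun ω => 2 * ω) ?_ ?_ ?_
    ?_ ?_ ?_
  · refine Eventually.of_forall fun ω => ?_
    have := (hK.dF hσ θ ω).const_sub (hh K θ)
    rwa [neg_neg] at this
  · refine Eventually.of_forall fun ω => ?_
    have := hasDerivAt_pow 2 ω
    simpa using this
  · filter_upwards [self_mem_nhdsWithin] with ω hω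
    have : (0:ℝ) < ω := hω
    positivity
  · have h1 : Tendsto (Fs K h' σ θ) (𝓝 0) (𝓝 (Fs K h' σ θ 0)) := (hK.dF hσ θ 0).continuousAt
    rw [Fs_zero] at h1
    have h2 := (h1.mono_left (nhdsWithin_le_nhds (s := Ioi 0))).const_sub (hh K θ)
    rwa [sub_self] at h2
  · have h1 : Tendsto (fun ω : ℝ => ω ^ 2) (𝓝 0) (𝓝 (0 ^ 2)) := (continuous_pow 2).tendsto 0
    rw [zero_pow two_ne_zero] at h1
    exact h1.mono_left nhdsWithin_le_nhds
  · have h1 : Tendsto (fun ω : ℝ => R (θ + σ * ω) / 2) (𝓝 0) (𝓝 (R (θ + σ * 0) / 2)) :=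
      Continuous.tendsto (by fun_prop) 0
    rw [mul_zero, add_zero] at h1
    have h2 := (h1.mono_left (nhdsWithin_le_nhds (s := Ioi 0))).mul sin_div_lim
    rw [mul_one] at h2
    refine h2.congr' ?_
    filter_upwards [self_mem_nhdsWithin] with ω hω
    have h3 : (ω:ℝ) ≠ 0 := ne_of_gt hω
    field_simp

theorem Smooth.G_lim2 (hK : Smooth K h' R) {σ : ℝ} (hσ : σ = 1 ∨ σ = -1) (θ : ℝ) :
    Tendsto (fun ω => (Gs K h' σ θ ω - h' θ) / ω) (𝓝[>] 0) (𝓝 (σ * R θ)) := by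
  have h1 := tendsto_slope_right (hK.dG hσ θ 0)
  rw [Gs_zero, mul_zero, add_zero, Real.cos_zero, mul_one] at h1
  exact h1

/-- the ratio of the two parameters tends to one -/
theorem Smooth.ratio_lim (hK : Smooth K h' R) {σ σ' : ℝ} (hσ : σ = 1 ∨ σ = -1)
    (hσ' : σ' = 1 ∨ σ' = -1) (θ : ℝ) :
    Tendsto (fun s => om K h' σ θ (tau K θ s) / om K h' σ' θ (tau K θ s)) (𝓝[>] 0) (𝓝 1) := by
  have hR : R θ / 2 ≠ 0 := (half_pos (hK.Rpos θ)).ne'
  have h1 := (hK.F_lim2 hσ θ).comp (hK.om_lim hσ θ)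
  have h2 := (hK.F_lim2 hσ' θ).comp (hK.om_lim hσ' θ)
  have h3 := (h2.div h1 hR).sqrt
  rw [div_self hR, Real.sqrt_one] at h3
  refine h3.congr' ?_
  filter_upwards [Ioo_mem_nhdsGT hK.toBody.tot_pos] with s hs
  have hl := hK.lev_tau (θ := θ) hs
  obtain ⟨a1, a2⟩ := hK.om_spec hσ hl
  obtain ⟨b1, b2⟩ := hK.om_spec hσ' hl
  simp only [Function.comp, Pi.div_apply]
  rw [a2, b2]
  have hd : hh K θ - tau K θ s ≠ 0 := by linarith [hl.2]
  have e : (hh K θ - tau K θ s) / om K h' σ' θ (tau K θ s) ^ 2 /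
      ((hh K θ - tau K θ s) / om K h' σ θ (tau K θ s) ^ 2)
      = (om K h' σ θ (tau K θ s) / om K h' σ' θ (tau K θ s)) ^ 2 := by
    have := a1.1.ne'
    have := b1.1.ne'
    field_simp
  rw [e, Real.sqrt_sq (div_nonneg a1.1.le b1.1.le)]

theorem Smooth.len_div_om_lim (hK : Smooth K h' R) {σ : ℝ} (hσ : σ = 1 ∨ σ = -1) (θ : ℝ) :
    Tendsto (fun s => len K θ s / om K h' σ θ (tau K θ s)) (𝓝[>] 0) (𝓝 (2 * R θ)) := by
  have g1 := (hK.G_lim2 (Or.inl rfl) θ).comp (hK.om_lim (Or.inl rfl) θ)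
  have g2 := (hK.G_lim2 (Or.inr rfl) θ).comp (hK.om_lim (Or.inr rfl) θ)
  have r1 := hK.ratio_lim (Or.inl rfl) hσ θ
  have r2 := hK.ratio_lim (Or.inr rfl) hσ θ
  have h1 := (g1.mul r1).sub (g2.mul r2)
  rw [show 1 * R θ * 1 - -1 * R θ * 1 = 2 * R θ by ring] at h1
  refine h1.congr' ?_
  filter_upwards [Ioo_mem_nhdsGT hK.toBody.tot_pos] with s hs
  have hl := hK.lev_tau (θ := θ) hs
  obtain ⟨a1, _⟩ := hK.om_spec (Or.inl rfl) hl
  obtain ⟨b1, _⟩ := hK.om_spec (Or.inr rfl) hl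
  obtain ⟨c1, _⟩ := hK.om_spec hσ hl
  have := a1.1.ne'
  have := b1.1.ne'
  have := c1.1.ne'
  unfold len
  rw [hK.yp_eq_G hl, hK.ym_eq_G hl]
  simp only [Function.comp]
  field_simp
  ring

theorem Smooth.len_cot_lim (hK : Smooth K h' R) {σ : ℝ} (hσ : σ = 1 ∨ σ = -1) (θ : ℝ) :
    Tendsto (fun s => len K θ s * (cos (om K h' σ θ (tau K θ s)) / sin (om K h' σ θ (tau K θ s))))
      (𝓝[>] 0) (𝓝 (2 * R θ)) := by
  have h1 := (hK.len_div_om_lim hσ θ).mul (cot_lim.comp (hK.om_lim hσ θ))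
  rw [mul_one] at h1
  refine h1.congr' ?_
  filter_upwards [Ioo_mem_nhdsGT hK.toBody.tot_pos] with s hs
  have hl := hK.lev_tau (θ := θ) hs
  obtain ⟨c1, _⟩ := hK.om_spec hσ hl
  have := c1.1.ne'
  simp only [Function.comp]
  field_simp

theorem Smooth.len_cube_lim (hK : Smooth K h' R) (θ : ℝ) :
    Tendsto (fun s => len K θ s ^ 3 / s) (𝓝[>] 0) (𝓝 (12 * R θ)) := by
  have htot := hK.toBody.tot_pos
  refine HasDerivAt.lhopital_zero_nhdsGT (f := fun s => len K θ s ^ 3)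
    (g := fun s => s) (f' := fun s => 3 * len K θ s ^ 2 * lsf K h' θ s) (g' := fun _ => 1) ?_ ?_ ?_
    ?_ ?_ ?_
  · filter_upwards [Ioo_mem_nhdsGT htot] with s hs
    have h1 : HasDerivAt (fun s => len K θ s ^ 3) (((3:ℕ):ℝ) * len K θ s ^ (3 - 1) * lsf K h' θ s)
      s := (hK.len_deriv (θ := θ) hs).pow 3
    simpa using h1
  · exact Eventually.of_forall fun s => hasDerivAt_id s
  · exact Eventually.of_forall fun s => one_ne_zero
  · have := (hK.len_lim θ).pow 3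
    rwa [zero_pow three_ne_zero] at this
  · exact tendsto_id.mono_left nhdsWithin_le_nhds
  · have h1 := ((hK.len_cot_lim (Or.inl rfl) θ).add (hK.len_cot_lim (Or.inr rfl) θ)).const_mul 3
    rw [show 3 * (2 * R θ + 2 * R θ) = 12 * R θ by ring] at h1
    refine h1.congr' ?_
    filter_upwards [Ioo_mem_nhdsGT htot] with s hs
    have := (hK.toBody.len_pos (θ := θ) hs).ne'
    unfold lsf
    field_simp

end Pool.Agent.Helper16.Buoy
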