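import Pool.Agent.Helper16.Buoy.G5

/-!
# G8. A body whose support function is that of an ellipse is an ellipse
-/

set_option autoImplicit false

open MeasureTheory Set Metric Filter Topology
open Real (cos sin)

namespace Pool.Agent.Helper16.Buoy

variable {K : Set (E 2)}

/-- A compact set is contained in a compact convex set if the support functions are ordered. -/
theorem subset_of_support {A B : Set (E 2)} (hB : IsCompact B) (hBc : Convex ℝ B) {g : ℝ → ℝ}
    (hA' : ∀ θ, IsGreatest ((fun x => inner ℝ (uu θ) x) '' A) (g θ))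
    (hB' : ∀ θ, IsGreatest ((fun x => inner ℝ (uu θ) x) '' B) (g θ)) : A ⊆ B := by
  intro x hx
  by_contra hxB
  obtain ⟨f, r, hf1, hf2⟩ := geometric_hahn_banach_closed_point hBc hB.isClosed hxB
  -- represent `f`
  set w : E 2 := (InnerProductSpace.toDual ℝ (E 2)).symm f with hw
  have hfw : ∀ y, f y = inner ℝ w y := fun y => by
    rw [hw, InnerProductSpace.toDual_symm_apply]
  have hw0 : w ≠ 0 := by
    intro h0
    obtain ⟨y, hy, -⟩ := (hB' 0).1
    have h1 := hf1 y hy
    rw [hfw, h0, inner_zero_left] at h1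
    rw [hfw, h0, inner_zero_left] at hf2
    linarith
  have hwn : 0 < ‖w‖ := norm_pos_iff.2 hw0
  obtain ⟨θ, hθ⟩ := exists_uu (u := (‖w‖)⁻¹ • w) (by
    rw [norm_smul, norm_inv, norm_norm, inv_mul_cancel₀ hwn.ne'])
  have hwθ : w = ‖w‖ • uu θ := by
    rw [← hθ, smul_smul, mul_inv_cancel₀ hwn.ne', one_smul]
  have hfw' : ∀ y, f y = ‖w‖ * inner ℝ (uu θ) y := fun y => by
    rw [hfw, hwθ, inner_smul_left, norm_smul, norm_uu]
    simp
  obtain ⟨y, hy, hyg⟩ := (hB' θ).1
  have h1 := hf1 y hy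
  have h2 : inner ℝ (uu θ) x ≤ g θ := (hA' θ).2 ⟨x, hx, rfl⟩
  have h3 : inner ℝ (uu θ) y = g θ := hyg
  rw [hfw', h3] at h1
  rw [hfw'] at hf2
  have := mul_le_mul_of_nonneg_left h2 hwn.le
  linarith

/-- The linear map with lower triangular matrix `(m, 0; k, l)`. -/
noncomputable def triEquiv (m k l : ℝ) (hm : m ≠ 0) (hl : l ≠ 0) : E 2 ≃ₗ[ℝ] E 2 where
  toFun z := !₂[m * z 0, k * z 0 + l * z 1]
  invFun x := !₂[x 0 / m, (x 1 - k * (x 0 / m)) / l]
  map_add' x y := by
    apply ext2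
    · simp; ring
    · simp; ring
  map_smul' r x := by
    apply ext2
    · simp; ring
    · simp; ring
  left_inv z := by
    apply ext2
    · simp [hm]
    · simp; field_simp; ring
  right_inv x := by
    apply ext2
    · simp; field_simp
    · simp; field_simp; ring

theorem Body.isEllipsoid (hK : Body K) {c α β γ a b : ℝ} (hc : 0 < c) (hα : 0 < α)
    (hβ : β ^ 2 < α * γ)
    (h : ∀ θ, hh K θ = c * Real.sqrt (α * cos θ ^ 2 + 2 * β * (cos θ * sin θ) + γ * sin θ ^ 2)
      + (a * cos θ + b * sin θ)) : IsEllipsoid K := by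
  have hsα : 0 < √α := Real.sqrt_pos.2 hα
  have hsα2 : √α ^ 2 = α := Real.sq_sqrt hα.le
  have hδ : 0 < γ - β ^ 2 / α := by
    rw [sub_pos, div_lt_iff₀ hα]; linarith
  set δ := √(γ - β ^ 2 / α) with hδd
  have hδ0 : 0 < δ := Real.sqrt_pos.2 hδ
  have hδ2 : δ ^ 2 = γ - β ^ 2 / α := Real.sq_sqrt hδ.le
  set m := c * √α with hm
  set k := c * (β / √α) with hk
  set l := c * δ with hl
  have hm0 : m ≠ 0 := (mul_pos hc hsα).ne'
  have hl0 : l ≠ 0 := (mul_pos hc hδ0).ne'
  set p : E 2 := !₂[a, b] with hp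
  let T : E 2 ≃ᵃ[ℝ] E 2 := (triEquiv m k l hm0 hl0).toAffineEquiv.trans
    (AffineEquiv.constVAdd ℝ (E 2) p)
  have hT0 : ∀ z, T z 0 = a + m * z 0 := by
    intro z
    simp [T, triEquiv, hp]
  have hT1 : ∀ z, T z 1 = b + (k * z 0 + l * z 1) := by
    intro z
    simp [T, triEquiv, hp]
  refine ⟨T, ?_⟩
  have hTc : IsCompact (T '' closedBall (0 : E 2) 1) :=
    (isCompact_closedBall (0 : E 2) 1).image T.continuous_of_finiteDimensional
  have hTconv : Convex ℝ (T '' closedBall (0 : E 2) 1) :=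
    (convex_closedBall (0 : E 2) 1).affine_image T.toAffineMap
  have hgr : ∀ θ, IsGreatest ((fun x => inner ℝ (uu θ) x) '' (T '' closedBall (0 : E 2) 1))
      (hh K θ) := by
    intro θ
    set W : E 2 := !₂[m * cos θ + k * sin θ, l * sin θ] with hW
    have hin : ∀ z, inner ℝ (uu θ) (T z) = inner ℝ W z + (a * cos θ + b * sin θ) := by
      intro z
      rw [inner_uu, hT0, hT1, inner_eq]
      have e0 : W 0 = m * cos θ + k * sin θ := by simp [hW]
      have e1 : W 1 = l * sin θ := by simp [hW]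
      rw [e0, e1]
      ring
    have hWn : ‖W‖ = c * √(α * cos θ ^ 2 + 2 * β * (cos θ * sin θ) + γ * sin θ ^ 2) := by
      have h1 : ‖W‖ ^ 2 = c ^ 2 * (α * cos θ ^ 2 + 2 * β * (cos θ * sin θ) + γ * sin θ ^ 2) := by
        rw [norm_sq_eq]
        have e0 : W 0 = m * cos θ + k * sin θ := by simp [hW]
        have e1 : W 1 = l * sin θ := by simp [hW]
        rw [e0, e1, hm, hk, hl]
        have h2 : (c * √α * cos θ + c * (β / √α) * sin θ) ^ 2 =
            c ^ 2 * (√α ^ 2 * cos θ ^ 2 + 2 * β * (cos θ * sin θ) + β ^ 2 / √α ^ 2 * sin θ ^ 2) := by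
          field_simp
          ring
        rw [h2, hsα2, mul_pow, mul_pow, hδ2]
        ring
      have h3 : ‖W‖ = √(‖W‖ ^ 2) := (Real.sqrt_sq (norm_nonneg _)).symm
      rw [h3, h1, Real.sqrt_mul (by positivity), Real.sqrt_sq hc.le]
    rw [h θ, ← hWn]
    constructor
    · by_cases hW0 : ‖W‖ = 0
      · refine ⟨T 0, ⟨0, by simp, rfl⟩, ?_⟩
        show inner ℝ (uu θ) (T 0) = _
        rw [hin, inner_zero_right, hW0]
      · refine ⟨T ((‖W‖)⁻¹ • W), ⟨(‖W‖)⁻¹ • W, ?_, rfl⟩, ?_⟩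
        · rw [mem_closedBall_zero_iff, norm_smul, norm_inv, norm_norm, inv_mul_cancel₀ hW0]
        · show inner ℝ (uu θ) (T _) = _
          rw [hin, inner_smul_right, real_inner_self_eq_norm_sq, pow_two, ← mul_assoc,
            inv_mul_cancel₀ hW0, one_mul]
    · rintro _ ⟨_, ⟨z, hz, rfl⟩, rfl⟩
      show inner ℝ (uu θ) (T z) ≤ _
      rw [hin]
      rw [mem_closedBall_zero_iff] at hz
      have h1 := real_inner_le_norm W z
      have h2 : ‖W‖ * ‖z‖ ≤ ‖W‖ * 1 := mul_le_mul_of_nonneg_left hz (norm_nonneg _)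
      linarith
  refine Subset.antisymm ?_ ?_
  · exact subset_of_support hK.comp hK.conv hgr hK.hh_isGreatest
  · exact subset_of_support hTc hTconv hK.hh_isGreatest hgr

end Pool.Agent.Helper16.Buoy
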