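import Pool.Agent.Helper16.Buoy.A3c
import Pool.Agent.Helper16.Buoy.A4
import Pool.Agent.Helper16.Buoy.A5
import Pool.Agent.Helper16.Buoy.A6
import Pool.Agent.Helper16.Buoy.G6
import Pool.Agent.Helper16.Buoy.G8

/-!
# Final assembly: a planar convex body homothetic to one of its bodies of buoyancy is an ellipse
-/

open MeasureTheory Set Metric Filter Topology
open Real (cos sin)

namespace Pool.Agent.Helper16.Buoy

variable {K : Set (E 2)}

theorem Body.flow (hK : Body K) :
    ∃ D, Flow (tot K) D (HH K) (kk K) (tau K) (mid K) (len K) := by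
  obtain ⟨D, hD0, hD⟩ := hK.exists_bound
  refine ⟨2 * D, ?_⟩
  exact
    { A_pos := hK.tot_pos
      Hs := fun θ s hs => hK.HH_s hs
      ks := fun θ s hs => hK.kk_s hs
      τs := fun θ s hs => hK.tau_s hs
      Hθ := fun θ s hs => hK.HH_θ hs
      kθ := fun θ s hs => hK.kk_θ hs
      τθ := fun θ s hs => hK.tau_θ hs
      lpos := fun θ s hs => hK.len_pos hs
      τc := hK.tau_cont
      mc := hK.mid_cont
      lc := hK.len_cont
      bτ := fun θ s hs => (hK.bounds hD hs).1.trans (by linarith)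
      bm := fun θ s hs => (hK.bounds hD hs).2.1.trans (by linarith)
      bl := fun θ s hs => (hK.bounds hD hs).2.2.1
      bH := fun θ s hs => (hK.bounds hD hs).2.2.2.1.trans (by nlinarith [hs.1])
      bk := fun θ s hs => (hK.bounds hD hs).2.2.2.2.trans (by nlinarith [hs.1])
      perH := fun θ s _ => HH_per K θ s
      perk := fun θ s _ => kk_per K θ s
      perτ := fun θ s _ => tau_per K θ s
      symH := hK.HH_symm }

theorem lin_of_ode {z z' : ℝ → ℝ} (hz : ∀ θ, HasDerivAt z (z' θ) θ)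
    (hz' : ∀ θ, HasDerivAt z' (-z θ) θ) : ∀ θ, z θ = z 0 * cos θ + z' 0 * sin θ := by
  have h1 : ∀ θ, HasDerivAt (fun θ => z θ * cos θ - z' θ * sin θ) 0 θ := by
    intro θ
    have h := ((hz θ).mul (Real.hasDerivAt_cos θ)).sub ((hz' θ).mul (Real.hasDerivAt_sin θ))
    refine h.congr_deriv ?_
    ring
  have h2 : ∀ θ, HasDerivAt (fun θ => z θ * sin θ + z' θ * cos θ) 0 θ := by
    intro θ
    have h := ((hz θ).mul (Real.hasDerivAt_sin θ)).add ((hz' θ).mul (Real.hasDerivAt_cos θ))
    refine h.congr_deriv ?_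
    ring
  intro θ
  have h3 : z θ * cos θ - z' θ * sin θ = z 0 := by
    have h := is_const_of_deriv_eq_zero (f := fun θ => z θ * cos θ - z' θ * sin θ)
      (fun θ => (h1 θ).differentiableAt) (fun θ => (h1 θ).deriv) θ 0
    simpa using h
  have h4 : z θ * sin θ + z' θ * cos θ = z' 0 := by
    have h := is_const_of_deriv_eq_zero (f := fun θ => z θ * sin θ + z' θ * cos θ)
      (fun θ => (h2 θ).differentiableAt) (fun θ => (h2 θ).deriv) θ 0
    simpa using h
  rw [← h3, ← h4]
  have := Real.sin_sq_add_cos_sq θ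
  linear_combination (-(z θ)) * this

theorem hh_per' (K : Set (E 2)) (θ : ℝ) : hh K (θ + 2 * Real.pi) = hh K θ := by
  unfold hh; rw [uu_add_two_pi]

/-- A planar convex body homothetic (up to translation) to a body of buoyancy is an ellipse. -/
theorem Body.main (hK : Body K) {δ : ℝ} (hδ : δ ∈ Ioo 0 (tot K)) {c a b : ℝ} (hc : 0 < c)
    (hhom : ∀ θ, HH K θ δ = c * hh K θ + (a * cos θ + b * sin θ)) : IsEllipsoid K := by
  -- regularity
  set h' : ℝ → ℝ := fun θ => (kk K θ δ - (-a * sin θ + b * cos θ)) / c with hh'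
  set R : ℝ → ℝ := fun θ => len K θ δ ^ 3 / (12 * c) with hR
  obtain ⟨D, F⟩ := hK.flow
  have hheq : ∀ θ, hh K θ = (HH K θ δ - (a * cos θ + b * sin θ)) / c := by
    intro θ; rw [hhom θ]; field_simp; ring
  have hsm : Smooth K h' R :=
    { toBody := hK
      dh := by
        intro θ
        have h1 := ((hK.HH_θ (θ := θ) hδ).sub (((Real.hasDerivAt_cos θ).const_mul a).add
          ((Real.hasDerivAt_sin θ).const_mul b))).div_const c
        have h2 : HasDerivAt (hh K) ((kk K θ δ - (a * -sin θ + b * cos θ)) / c) θ :=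
          h1.congr_of_eventuallyEq (Eventually.of_forall hheq)
        refine h2.congr_deriv ?_
        rw [hh']; ring
      dh' := by
        intro θ
        have h1 := ((hK.kk_θ (θ := θ) hδ).sub (((Real.hasDerivAt_sin θ).const_mul (-a)).add
          ((Real.hasDerivAt_cos θ).const_mul b))).div_const c
        refine h1.congr_deriv ?_
        rw [hheq θ, hR]; field_simp; ring
      contR := ((F.cl hδ).pow 3).div_const _
      Rpos := fun θ => by have := hK.len_pos (θ := θ) hδ; positivity }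
  obtain ⟨ls, hls, hlsc⟩ := hsm.len_s
  -- constants
  set e0 := form (hh K) h' (hh K) h' with he0
  have he0pos : 0 < e0 := form_self_pos hsm.dh hsm.dh' hsm.contR hsm.Rpos (hh_per' K)
  have hen : ∀ s ∈ Ioo 0 (tot K), Flow.ee (tau K) (mid K) s + Flow.SS (len K) s / 4 = e0 := by
    intro s hs
    have h1 : Tendsto (fun s => Flow.ee (tau K) (mid K) s + Flow.SS (len K) s / 4) (𝓝[>] 0)
        (𝓝 (e0 + 0 / 4)) :=
      (F.e_lim hsm.tau_lim hsm.mid_lim).add ((F.S_lim hsm.len_lim).div_const 4)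
    have h2 : Tendsto (fun s => Flow.ee (tau K) (mid K) s + Flow.SS (len K) s / 4) (𝓝[>] 0)
        (𝓝 (Flow.ee (tau K) (mid K) s + Flow.SS (len K) s / 4)) := by
      refine tendsto_const_nhds.congr' ?_
      filter_upwards [Ioo_mem_nhdsGT hK.tot_pos] with x hx
      exact F.energy hls hlsc hs hx
    have := tendsto_nhds_unique h2 h1
    rw [this]; ring
  set d := min δ (tot K - δ) with hd
  have hd0 : 0 < d := lt_min hδ.1 (by linarith [hδ.2])
  have hdA : d ≤ tot K / 2 := by
    rcases le_total δ (tot K / 2) with h | h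
    · exact (min_le_left _ _).trans h
    · exact (min_le_right _ _).trans (by linarith)
  have hdI : d ∈ Ioo 0 (tot K) := ⟨hd0, by have := hK.tot_pos; linarith⟩
  set c0 := ∫ θ in (0:ℝ)..(2 * Real.pi), (12 * R θ) ^ (2 / 3 : ℝ) with hc0
  have hRc : Continuous (fun θ => (12 * R θ) ^ (2 / 3 : ℝ)) :=
    (continuous_const.mul hsm.contR).rpow_const (fun θ => Or.inr (by norm_num))
  have hc0pos : 0 < c0 := by
    apply intervalIntegral.intervalIntegral_pos_of_pos_on (hRc.intervalIntegrable _ _)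
    · intro θ _
      have := hsm.Rpos θ; positivity
    · positivity
  have hSpos : ∀ s ∈ Ioo 0 (tot K), 0 < Flow.SS (len K) s := by
    intro s hs
    apply intervalIntegral.intervalIntegral_pos_of_pos_on
      (((F.cl hs).pow 2).intervalIntegrable _ _)
    · intro θ _
      exact pow_pos (hK.len_pos (θ := θ) hs) 2
    · positivity
  -- the fixed point relation
  have hSδ : Flow.SS (len K) δ = c ^ (2 / 3 : ℝ) * c0 := by
    unfold Flow.SS
    rw [hc0, ← intervalIntegral.integral_const_mul]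
    congr 1; funext θ
    have hl := hK.len_pos (θ := θ) hδ
    have h1 : 12 * R θ = len K θ δ ^ 3 / c := by rw [hR]; field_simp
    have h2 : (12 * R θ) ^ (2 / 3 : ℝ) = len K θ δ ^ 2 / c ^ (2 / 3 : ℝ) := by
      rw [h1, Real.div_rpow (by positivity) hc.le,
        ← Real.rpow_natCast (len K θ δ) 3, ← Real.rpow_mul hl.le, ← Real.rpow_natCast]
      norm_num
    have h3 : 0 < c ^ (2 / 3 : ℝ) := by positivity
    rw [h2]; field_simp
  have hρδ : Flow.rho (HH K) (kk K) δ = c ^ 2 * e0 := by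
    apply form_affine hsm.dh hsm.dh' (hh_per' K) hhom
    intro θ
    rw [hh']; field_simp; ring
  have hρδ' : Flow.rho (HH K) (kk K) δ ^ (1 / 3 : ℝ) = c ^ (2 / 3 : ℝ) * e0 ^ (1 / 3 : ℝ) := by
    rw [hρδ, Real.mul_rpow (by positivity) he0pos.le, ← Real.rpow_natCast c 2,
      ← Real.rpow_mul hc.le]
    norm_num
  have hfixδ : Flow.SS (len K) δ
      = c0 / e0 ^ (1 / 3 : ℝ) * Flow.rho (HH K) (kk K) δ ^ (1 / 3 : ℝ) := by
    rw [hSδ, hρδ']
    have : 0 < e0 ^ (1 / 3 : ℝ) := by positivity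
    field_simp
  have hfix : Flow.SS (len K) d
      = c0 / e0 ^ (1 / 3 : ℝ) * Flow.rho (HH K) (kk K) d ^ (1 / 3 : ℝ) := by
    rcases le_total δ (tot K - δ) with h | h
    · rw [hd, min_eq_left h]; exact hfixδ
    · rw [hd, min_eq_right h, F.SS_symm hδ, F.rho_symm hδ]; exact hfixδ
  obtain ⟨-, -, hW⟩ := phi_rigid (A := tot K) (e0 := e0) (c := c0) (d := d)
    (ρ := Flow.rho (HH K) (kk K)) (Q := Flow.QQ (HH K) (kk K) (tau K) (mid K))
    (S := Flow.SS (len K)) hK.tot_pos
    (fun s hs => F.rho_deriv hs)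
    (fun s hs => (F.QQ_deriv hs).congr_deriv (by rw [← hen s hs]; ring))
    (fun s hs => F.rho_pos hs) hSpos F.SS_cont
    (fun s hs => by
      have h1 := (F.mink hs).1
      have h2 := hen s hs
      have h3 : Flow.ee (tau K) (mid K) s = e0 - Flow.SS (len K) s / 4 := by linarith
      rw [h3] at h1; linarith)
    (fun s hs => F.rho_symm hs)
    (F.Q_lim hsm.tau_lim hsm.mid_lim) (F.rho_lim hsm.tau_lim hsm.mid_lim)
    hc0pos (F.S_lower hsm.contR hsm.Rpos hsm.len_cube_lim) hd0 hdA hfix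
  -- rigidity
  obtain ⟨s0, hs0, c1, α, β, γ, a1, b1, hc1, hα, hβ, hH0, hf⟩ := F.rigid hd0
    (hdA.trans (by linarith [hK.tot_pos])) (fun s hs => by
      have hsA : s ∈ Ioo 0 (tot K) := ⟨hs.1, hs.2.trans hdI.2⟩
      have h1 := hW s hs
      have h2 := hen s hsA
      have h3 : Flow.ee (tau K) (mid K) s = e0 - Flow.SS (len K) s / 4 := by linarith
      rw [h3]; linarith)
  have hs0A : s0 ∈ Ioo 0 (tot K) := ⟨hs0.1, hs0.2.trans hdI.2⟩
  choose! f hfpos hfl using hf
  set c4 := 12 * R 0 / len K 0 s0 ^ 3 with hc4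
  have hl0 : ∀ θ, 0 < len K θ s0 := fun θ => hK.len_pos hs0A
  have hc4pos : 0 < c4 := by have := hsm.Rpos 0; have := hl0 0; positivity
  have hRl : ∀ θ, 12 * R θ = c4 * len K θ s0 ^ 3 := by
    have hlim : ∀ θ, Tendsto (fun s => f s ^ 3 / s) (𝓝[>] 0)
        (𝓝 (12 * R θ / len K θ s0 ^ 3)) := by
      intro θ
      have h1 := (hsm.len_cube_lim θ).div_const (len K θ s0 ^ 3)
      refine h1.congr' ?_
      filter_upwards [Ioo_mem_nhdsGT hd0] with s hs
      rw [hfl s hs θ]
      have h2 := hl0 θ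
      have h3 := hs.1
      field_simp
    intro θ
    have h2 := tendsto_nhds_unique (hlim θ) (hlim 0)
    have h3 := hl0 θ
    rw [hc4, ← h2]; field_simp
  -- identify the support function
  have hz : ∀ θ, HasDerivAt (fun θ => hh K θ - c4 * HH K θ s0) (h' θ - c4 * kk K θ s0) θ :=
    fun θ => (hsm.dh θ).sub ((hK.HH_θ hs0A).const_mul c4)
  have hz' : ∀ θ, HasDerivAt (fun θ => h' θ - c4 * kk K θ s0)
      (-(hh K θ - c4 * HH K θ s0)) θ := by
    intro θ
    refine ((hsm.dh' θ).sub ((hK.kk_θ hs0A).const_mul c4)).congr_deriv ?_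
    have := hRl θ
    linear_combination (1 / 12) * this
  have hlin := lin_of_ode hz hz'
  set A1 := hh K 0 - c4 * HH K 0 s0
  set B1 := h' 0 - c4 * kk K 0 s0
  refine hK.isEllipsoid (c := c4 * c1) (α := α) (β := β) (γ := γ) (a := c4 * a1 + A1)
    (b := c4 * b1 + B1) (by positivity) hα hβ (fun θ => ?_)
  have h1 := hlin θ
  have h2 := hH0 θ
  rw [h2] at h1
  linear_combination h1

/-- The planar homothety problem for the body of buoyancy. -/
theorem planar {K : Set (E 2)} (hconv : Convex ℝ K) (hcomp : IsCompact K)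
    (hint : (interior K).Nonempty) {δ : ℝ} (hδ0 : 0 < δ) (hδ1 : ENNReal.ofReal δ < volume K)
    (h : Homothetic K (buoyancyBody K δ)) : IsEllipsoid K := by
  have hK : Body K := ⟨hconv, hcomp, hint⟩
  have hδ : δ ∈ Ioo 0 (tot K) := by
    refine ⟨hδ0, ?_⟩
    have h1 := (ENNReal.toReal_lt_toReal ENNReal.ofReal_ne_top hK.vol_lt.ne).2 hδ1
    rwa [ENNReal.toReal_ofReal hδ0.le] at h1
  obtain ⟨c, a, b, hc, hhom⟩ := hK.homothety hδ h
  exact hK.main hδ hc hhom

end Pool.Agent.Helper16.Buoy
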