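import Pool.Agent.Helper16.Buoy.Defs

/-!
# G1. Planar coordinates
-/

open MeasureTheory Set Metric Filter Topology
open Real (cos sin)

namespace Pool.Agent.Helper16.Buoy

theorem uu_zero (θ : ℝ) : uu θ 0 = cos θ := by simp [uu]
theorem uu_one (θ : ℝ) : uu θ 1 = sin θ := by simp [uu]
theorem vv_zero (θ : ℝ) : vv θ 0 = -sin θ := by simp [vv]
theorem vv_one (θ : ℝ) : vv θ 1 = cos θ := by simp [vv]

theorem inner_eq (x y : E 2) : inner ℝ x y = x 0 * y 0 + x 1 * y 1 := by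
  simp [PiLp.inner_apply, Fin.sum_univ_two, mul_comm]

theorem inner_uu (θ : ℝ) (x : E 2) : inner ℝ (uu θ) x = cos θ * x 0 + sin θ * x 1 := by
  rw [inner_eq, uu_zero, uu_one]

theorem inner_vv (θ : ℝ) (x : E 2) : inner ℝ (vv θ) x = -sin θ * x 0 + cos θ * x 1 := by
  rw [inner_eq, vv_zero, vv_one]

theorem pt_zero (θ r y : ℝ) : pt θ r y 0 = r * cos θ - y * sin θ := by
  simp [pt, uu, vv]; ring

theorem pt_one (θ r y : ℝ) : pt θ r y 1 = r * sin θ + y * cos θ := by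
  simp [pt, uu, vv]

theorem inner_uu_pt' (θ' θ r y : ℝ) :
    inner ℝ (uu θ') (pt θ r y) = r * cos (θ' - θ) + y * sin (θ' - θ) := by
  rw [inner_uu, pt_zero, pt_one, Real.cos_sub, Real.sin_sub]; ring

theorem inner_vv_pt' (θ' θ r y : ℝ) :
    inner ℝ (vv θ') (pt θ r y) = -r * sin (θ' - θ) + y * cos (θ' - θ) := by
  rw [inner_vv, pt_zero, pt_one, Real.cos_sub, Real.sin_sub]; ring

theorem inner_uu_pt (θ r y : ℝ) : inner ℝ (uu θ) (pt θ r y) = r := by
  rw [inner_uu_pt']; simp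

theorem inner_vv_pt (θ r y : ℝ) : inner ℝ (vv θ) (pt θ r y) = y := by
  rw [inner_vv_pt']; simp

theorem ext2 {x y : E 2} (h0 : x 0 = y 0) (h1 : x 1 = y 1) : x = y := by
  ext i; fin_cases i
  · exact h0
  · exact h1

theorem pt_inner (θ : ℝ) (x : E 2) : pt θ (inner ℝ (uu θ) x) (inner ℝ (vv θ) x) = x := by
  have h := Real.sin_sq_add_cos_sq θ
  apply ext2
  · rw [pt_zero, inner_uu, inner_vv]; linear_combination (x 0) * h
  · rw [pt_one, inner_uu, inner_vv]; linear_combination (x 1) * h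

theorem norm_sq_eq (x : E 2) : ‖x‖ ^ 2 = x 0 ^ 2 + x 1 ^ 2 := by
  rw [EuclideanSpace.norm_sq_eq]; simp [Fin.sum_univ_two]

theorem norm_pt_sq (θ r y : ℝ) : ‖pt θ r y‖ ^ 2 = r ^ 2 + y ^ 2 := by
  rw [norm_sq_eq, pt_zero, pt_one]
  have h := Real.sin_sq_add_cos_sq θ
  linear_combination (r ^ 2 + y ^ 2) * h

theorem norm_uu (θ : ℝ) : ‖uu θ‖ = 1 := by
  have : ‖uu θ‖ ^ 2 = 1 := by rw [norm_sq_eq, uu_zero, uu_one]; exact Real.cos_sq_add_sin_sq θ
  nlinarith [norm_nonneg (uu θ)]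

theorem norm_vv (θ : ℝ) : ‖vv θ‖ = 1 := by
  have : ‖vv θ‖ ^ 2 = 1 := by
    rw [norm_sq_eq, vv_zero, vv_one]; nlinarith [Real.cos_sq_add_sin_sq θ]
  nlinarith [norm_nonneg (vv θ)]

theorem abs_inner_uu_le (θ : ℝ) (x : E 2) : |inner ℝ (uu θ) x| ≤ ‖x‖ := by
  have := abs_real_inner_le_norm (uu θ) x
  rwa [norm_uu, one_mul] at this

theorem abs_inner_vv_le (θ : ℝ) (x : E 2) : |inner ℝ (vv θ) x| ≤ ‖x‖ := by
  have := abs_real_inner_le_norm (vv θ) x
  rwa [norm_vv, one_mul] at this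

theorem continuous_pt : Continuous (fun p : ℝ × ℝ × ℝ => pt p.1 p.2.1 p.2.2) := by
  have h : ∀ p : ℝ × ℝ × ℝ, pt p.1 p.2.1 p.2.2
      = !₂[p.2.1 * cos p.1 - p.2.2 * sin p.1, p.2.1 * sin p.1 + p.2.2 * cos p.1] := by
    intro p; apply ext2
    · rw [pt_zero]; simp
    · rw [pt_one]; simp
  simp_rw [h]
  apply (PiLp.continuous_toLp 2 _).comp
  apply continuous_pi
  intro i; fin_cases i
  · simp; fun_prop
  · simp; fun_prop

theorem continuous_uu : Continuous uu := by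
  have h : ∀ θ, uu θ = pt θ 1 0 := by intro θ; simp [pt]
  have : uu = fun θ => pt θ 1 0 := funext h
  rw [this]
  exact continuous_pt.comp (by fun_prop : Continuous fun θ : ℝ => (θ, (1:ℝ), (0:ℝ)))

theorem continuous_vv : Continuous vv := by
  have h : ∀ θ, vv θ = pt θ 0 1 := by intro θ; simp [pt]
  have : vv = fun θ => pt θ 0 1 := funext h
  rw [this]
  exact continuous_pt.comp (by fun_prop : Continuous fun θ : ℝ => (θ, (0:ℝ), (1:ℝ)))

theorem uu_add_pi (θ : ℝ) : uu (θ + Real.pi) = - uu θ := by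
  apply ext2 <;> simp [uu]

theorem vv_add_pi (θ : ℝ) : vv (θ + Real.pi) = - vv θ := by
  apply ext2 <;> simp [vv]

theorem uu_add_two_pi (θ : ℝ) : uu (θ + 2 * Real.pi) = uu θ := by
  apply ext2 <;> simp [uu]

theorem vv_add_two_pi (θ : ℝ) : vv (θ + 2 * Real.pi) = vv θ := by
  apply ext2 <;> simp [vv]

theorem exists_uu {u : E 2} (hu : ‖u‖ = 1) : ∃ θ, u = uu θ := by
  have h : u 0 ^ 2 + u 1 ^ 2 = 1 := by rw [← norm_sq_eq, hu]; norm_num
  set z : ℂ := ⟨u 0, u 1⟩ with hz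
  have hz1 : ‖z‖ = 1 := by
    rw [Complex.norm_def, Complex.normSq_mk, ← pow_two, ← pow_two, h, Real.sqrt_one]
  refine ⟨z.arg, ?_⟩
  have hz0 : z ≠ 0 := by intro h0; rw [h0, norm_zero] at hz1; exact zero_ne_one hz1
  apply ext2
  · rw [uu_zero, Complex.cos_arg hz0, hz1, div_one]
  · rw [uu_one, Complex.sin_arg, hz1, div_one]

/-- The frame as a linear isometry equivalence. -/
noncomputable def frame (θ : ℝ) : E 2 ≃ₗᵢ[ℝ] E 2 :=
  LinearIsometryEquiv.mk
    { toFun := fun x => pt θ (x 0) (x 1)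
      map_add' := by
        intro x y; apply ext2
        · simp [pt_zero]; ring
        · simp [pt_one]; ring
      map_smul' := by
        intro c x; apply ext2
        · simp [pt_zero]; ring
        · simp [pt_one]; ring
      invFun := fun x => !₂[inner ℝ (uu θ) x, inner ℝ (vv θ) x]
      left_inv := by
        intro x; apply ext2
        · simp [inner_uu_pt]
        · simp [inner_vv_pt]
      right_inv := by
        intro x; simp [pt_inner] }
    (by
      intro x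
      have h1 : ‖pt θ (x 0) (x 1)‖ ^ 2 = ‖x‖ ^ 2 := by rw [norm_pt_sq, norm_sq_eq]
      have h2 := norm_nonneg (pt θ (x 0) (x 1))
      have h3 := norm_nonneg x
      have : ‖pt θ (x 0) (x 1)‖ = ‖x‖ := by nlinarith
      exact this)

theorem measurePreserving_pt (θ : ℝ) :
    MeasurePreserving (fun p : ℝ × ℝ => pt θ p.1 p.2) volume volume := by
  have h1 : MeasurePreserving (MeasurableEquiv.finTwoArrow (α := ℝ)).symm volume volume :=
    (volume_preserving_finTwoArrow ℝ).symm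
  have h2 := (EuclideanSpace.volume_preserving_symm_measurableEquiv_toLp (Fin 2)).symm
  have h3 := (frame θ).measurePreserving
  have h4 := h3.comp (h2.comp h1)
  have : (fun p : ℝ × ℝ => pt θ p.1 p.2) = (⇑(frame θ) ∘ (⇑(MeasurableEquiv.toLp 2 (Fin 2 → ℝ)) ∘ ⇑(MeasurableEquiv.finTwoArrow (α := ℝ)).symm)) := by
    funext p
    simp [frame]
  rw [this]
  exact h4

end Pool.Agent.Helper16.Buoy
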