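import Pool.Agent.Helper16.Buoy.G1

/-!
# G2. Sections of a planar convex body
-/

open MeasureTheory Set Metric Filter Topology
open Real (cos sin)

namespace Pool.Agent.Helper16.Buoy

variable {K : Set (E 2)}

theorem mem_sec {θ r y : ℝ} : y ∈ sec K θ r ↔ pt θ r y ∈ K := Iff.rfl

theorem abs_le_norm_pt (θ r y : ℝ) : |y| ≤ ‖pt θ r y‖ := by
  have h := abs_inner_vv_le θ (pt θ r y)
  rwa [inner_vv_pt] at h

theorem abs_le_norm_pt' (θ r y : ℝ) : |r| ≤ ‖pt θ r y‖ := by
  have h := abs_inner_uu_le θ (pt θ r y)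
  rwa [inner_uu_pt] at h

theorem Body.sec_convex (hK : Body K) (θ r : ℝ) : Convex ℝ (sec K θ r) := by
  intro y1 h1 y2 h2 a b ha hb hab
  have h := hK.conv h1 h2 ha hb hab
  have e : a • pt θ r y1 + b • pt θ r y2 = pt θ r (a • y1 + b • y2) := by
    apply ext2
    · simp only [PiLp.add_apply, PiLp.smul_apply, pt_zero, smul_eq_mul]
      linear_combination (r * cos θ) * hab
    · simp only [PiLp.add_apply, PiLp.smul_apply, pt_one, smul_eq_mul]
      linear_combination (r * sin θ) * hab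
  show pt θ r (a • y1 + b • y2) ∈ K
  rw [← e]; exact h

theorem continuous_pt_y (θ r : ℝ) : Continuous (fun y => pt θ r y) :=
  continuous_pt.comp (by fun_prop : Continuous fun y : ℝ => (θ, r, y))

theorem Body.exists_bound (hK : Body K) : ∃ D : ℝ, 0 < D ∧ K ⊆ closedBall 0 D := by
  obtain ⟨D, hD⟩ := hK.comp.isBounded.subset_closedBall 0
  exact ⟨max D 1, by positivity, hD.trans (closedBall_subset_closedBall (le_max_left _ _))⟩

theorem Body.sec_compact (hK : Body K) (θ r : ℝ) : IsCompact (sec K θ r) := by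
  obtain ⟨D, -, hD⟩ := hK.exists_bound
  have hcl : IsClosed (sec K θ r) := hK.comp.isClosed.preimage (continuous_pt_y θ r)
  refine (isCompact_Icc (a := -D) (b := D)).of_isClosed_subset hcl ?_
  intro y hy
  have h1 := hD hy
  rw [mem_closedBall_zero_iff] at h1
  have := (abs_le_norm_pt θ r y).trans h1
  exact abs_le.1 this

/-- A crossing line meets `K` in the segment between `ym` and `yp`. -/
theorem Body.sec_eq (hK : Body K) {θ r : ℝ} (h : (sec K θ r).Nonempty) :
    sec K θ r = Icc (ym K θ r) (yp K θ r) :=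
  eq_Icc_of_connected_compact ⟨h, (hK.sec_convex θ r).isPreconnected⟩ (hK.sec_compact θ r)

theorem cross.exists_pt {θ r : ℝ} (h : cross K θ r) : ∃ y, pt θ r y ∈ interior K := by
  obtain ⟨x, hx, hr⟩ := h
  refine ⟨inner ℝ (vv θ) x, ?_⟩
  rw [← hr, pt_inner]; exact hx

theorem Body.sec_nonempty (_hK : Body K) {θ r : ℝ} (h : cross K θ r) : (sec K θ r).Nonempty := by
  obtain ⟨y, hy⟩ := h.exists_pt
  exact ⟨y, mem_sec.2 (interior_subset hy)⟩

theorem Body.exists_mem_Ioo (hK : Body K) {θ r : ℝ} (h : cross K θ r) :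
    ∃ y, pt θ r y ∈ interior K ∧ y ∈ Ioo (ym K θ r) (yp K θ r) := by
  obtain ⟨y, hy⟩ := h.exists_pt
  refine ⟨y, hy, ?_⟩
  have hn : (fun y => pt θ r y) ⁻¹' (interior K) ∈ 𝓝 y :=
    (continuous_pt_y θ r).continuousAt.preimage_mem_nhds (isOpen_interior.mem_nhds hy)
  obtain ⟨ε, hε, hb⟩ := Metric.mem_nhds_iff.1 hn
  have h1 : y + ε / 2 ∈ sec K θ r := by
    apply mem_sec.2
    apply interior_subset
    apply hb
    rw [mem_ball, Real.dist_eq]; rw [add_sub_cancel_left, abs_of_pos (by positivity)]; linarith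
  have h2 : y - ε / 2 ∈ sec K θ r := by
    apply mem_sec.2
    apply interior_subset
    apply hb
    rw [mem_ball, Real.dist_eq]
    rw [show y - ε / 2 - y = -(ε / 2) by ring, abs_neg, abs_of_pos (by positivity)]; linarith
  rw [hK.sec_eq (hK.sec_nonempty h)] at h1 h2
  constructor
  · linarith [h2.1]
  · linarith [h1.2]

theorem Body.ym_lt_yp (hK : Body K) {θ r : ℝ} (h : cross K θ r) : ym K θ r < yp K θ r := by
  obtain ⟨y, -, hy⟩ := hK.exists_mem_Ioo h
  exact hy.1.trans hy.2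

theorem Body.yp_mem (hK : Body K) {θ r : ℝ} (h : cross K θ r) : pt θ r (yp K θ r) ∈ K := by
  have h1 := hK.sec_eq (hK.sec_nonempty h)
  have h2 : yp K θ r ∈ sec K θ r := by rw [h1]; exact ⟨(hK.ym_lt_yp h).le, le_refl _⟩
  exact h2

theorem Body.ym_mem (hK : Body K) {θ r : ℝ} (h : cross K θ r) : pt θ r (ym K θ r) ∈ K := by
  have h1 := hK.sec_eq (hK.sec_nonempty h)
  have h2 : ym K θ r ∈ sec K θ r := by rw [h1]; exact ⟨le_refl _, (hK.ym_lt_yp h).le⟩
  exact h2

/-- Inner points of a crossing chord are interior points of `K`. -/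
theorem Body.pt_mem_interior (hK : Body K) {θ r y : ℝ} (h : cross K θ r)
    (hy : y ∈ Ioo (ym K θ r) (yp K θ r)) : pt θ r y ∈ interior K := by
  obtain ⟨y0, hy0, hy0'⟩ := hK.exists_mem_Ioo h
  rcases lt_trichotomy y0 y with hlt | heq | hgt
  · apply hK.conv.openSegment_interior_self_subset_interior hy0 (hK.yp_mem h)
    have hd : 0 < yp K θ r - y0 := by linarith [hy0'.2]
    refine ⟨(yp K θ r - y) / (yp K θ r - y0), (y - y0) / (yp K θ r - y0),
      div_pos (by linarith [hy.2]) hd, div_pos (by linarith) hd, ?_, ?_⟩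
    · field_simp; ring
    · apply ext2
      · simp only [PiLp.add_apply, PiLp.smul_apply, pt_zero, smul_eq_mul]
        field_simp; ring
      · simp only [PiLp.add_apply, PiLp.smul_apply, pt_one, smul_eq_mul]
        field_simp; ring
  · rw [← heq]; exact hy0
  · apply hK.conv.openSegment_interior_self_subset_interior hy0 (hK.ym_mem h)
    have hd : 0 < y0 - ym K θ r := by linarith [hy0'.1]
    refine ⟨(y - ym K θ r) / (y0 - ym K θ r), (y0 - y) / (y0 - ym K θ r),
      div_pos (by linarith [hy.1]) hd, div_pos (by linarith) hd, ?_, ?_⟩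
    · field_simp; ring
    · apply ext2
      · simp only [PiLp.add_apply, PiLp.smul_apply, pt_zero, smul_eq_mul]
        field_simp; ring
      · simp only [PiLp.add_apply, PiLp.smul_apply, pt_one, smul_eq_mul]
        field_simp; ring

theorem continuous_pt_θr (y : ℝ) : Continuous (fun p : ℝ × ℝ => pt p.1 p.2 y) :=
  continuous_pt.comp (by fun_prop : Continuous fun p : ℝ × ℝ => (p.1, p.2, y))

/-- Crossing is an open condition. -/
theorem cross_eventually {θ r : ℝ} (h : cross K θ r) :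
    ∀ᶠ p : ℝ × ℝ in 𝓝 (θ, r), cross K p.1 p.2 := by
  obtain ⟨y, hy⟩ := h.exists_pt
  have hn : ∀ᶠ p : ℝ × ℝ in 𝓝 (θ, r), pt p.1 p.2 y ∈ interior K :=
    (continuous_pt_θr y).continuousAt.preimage_mem_nhds (isOpen_interior.mem_nhds hy)
  filter_upwards [hn] with p hp
  exact ⟨_, hp, inner_uu_pt _ _ _⟩

theorem Body.yp_continuousAt (hK : Body K) {θ r : ℝ} (h : cross K θ r) :
    ContinuousAt (fun p : ℝ × ℝ => yp K p.1 p.2) (θ, r) := by
  have hin : ∀ y ∈ Ioo (ym K θ r) (yp K θ r), ∀ᶠ p : ℝ × ℝ in 𝓝 (θ, r),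
      y ∈ sec K p.1 p.2 := by
    intro y hy
    have : ∀ᶠ p : ℝ × ℝ in 𝓝 (θ, r), pt p.1 p.2 y ∈ interior K :=
      (continuous_pt_θr y).continuousAt.preimage_mem_nhds
        (isOpen_interior.mem_nhds (hK.pt_mem_interior h hy))
    filter_upwards [this] with p hp
    exact mem_sec.2 (interior_subset hp)
  rw [ContinuousAt, tendsto_order]
  constructor
  · intro a ha
    obtain ⟨y, hy1, hy2⟩ := exists_between (max_lt ha (hK.ym_lt_yp h))
    filter_upwards [hin y ⟨(le_max_right _ _).trans_lt hy1, hy2⟩, cross_eventually h] with p hp hc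
    rw [hK.sec_eq (hK.sec_nonempty hc)] at hp
    exact ((le_max_left _ _).trans_lt hy1).trans_le hp.2
  · intro a ha
    obtain ⟨y0, -, hy0⟩ := hK.exists_mem_Ioo h
    have hout : pt θ r a ∉ K := by
      intro hmem
      have : a ∈ sec K θ r := hmem
      rw [hK.sec_eq (hK.sec_nonempty h)] at this
      exact absurd this.2 (not_le.2 ha)
    have hev : ∀ᶠ p : ℝ × ℝ in 𝓝 (θ, r), pt p.1 p.2 a ∈ Kᶜ :=
      (continuous_pt_θr a).continuousAt.preimage_mem_nhds
        (hK.comp.isClosed.isOpen_compl.mem_nhds hout)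
    filter_upwards [hin y0 hy0, hev, cross_eventually h] with p hp hq hc
    by_contra hcon
    push Not at hcon
    rw [hK.sec_eq (hK.sec_nonempty hc)] at hp
    apply hq
    have h2 : a ∈ sec K p.1 p.2 := by
      rw [hK.sec_eq (hK.sec_nonempty hc)]
      exact ⟨by linarith [hp.1, hy0.2], hcon⟩
    exact h2

theorem Body.ym_continuousAt (hK : Body K) {θ r : ℝ} (h : cross K θ r) :
    ContinuousAt (fun p : ℝ × ℝ => ym K p.1 p.2) (θ, r) := by
  have hin : ∀ y ∈ Ioo (ym K θ r) (yp K θ r), ∀ᶠ p : ℝ × ℝ in 𝓝 (θ, r),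
      y ∈ sec K p.1 p.2 := by
    intro y hy
    have : ∀ᶠ p : ℝ × ℝ in 𝓝 (θ, r), pt p.1 p.2 y ∈ interior K :=
      (continuous_pt_θr y).continuousAt.preimage_mem_nhds
        (isOpen_interior.mem_nhds (hK.pt_mem_interior h hy))
    filter_upwards [this] with p hp
    exact mem_sec.2 (interior_subset hp)
  rw [ContinuousAt, tendsto_order]
  constructor
  · intro a ha
    obtain ⟨y0, -, hy0⟩ := hK.exists_mem_Ioo h
    have hout : pt θ r a ∉ K := by
      intro hmem
      have : a ∈ sec K θ r := hmem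
      rw [hK.sec_eq (hK.sec_nonempty h)] at this
      exact absurd this.1 (not_le.2 ha)
    have hev : ∀ᶠ p : ℝ × ℝ in 𝓝 (θ, r), pt p.1 p.2 a ∈ Kᶜ :=
      (continuous_pt_θr a).continuousAt.preimage_mem_nhds
        (hK.comp.isClosed.isOpen_compl.mem_nhds hout)
    filter_upwards [hin y0 hy0, hev, cross_eventually h] with p hp hq hc
    by_contra hcon
    push Not at hcon
    rw [hK.sec_eq (hK.sec_nonempty hc)] at hp
    apply hq
    have h2 : a ∈ sec K p.1 p.2 := by
      rw [hK.sec_eq (hK.sec_nonempty hc)]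
      exact ⟨hcon, by linarith [hp.2, hy0.1]⟩
    exact h2
  · intro a ha
    obtain ⟨y, hy1, hy2⟩ := exists_between (lt_min ha (hK.ym_lt_yp h))
    filter_upwards [hin y ⟨hy1, hy2.trans_le (min_le_right _ _)⟩, cross_eventually h] with p hp hc
    rw [hK.sec_eq (hK.sec_nonempty hc)] at hp
    exact hp.1.trans_lt (hy2.trans_le (min_le_left _ _))

theorem Body.abs_yp_le (hK : Body K) {D : ℝ} (hD : K ⊆ closedBall 0 D) {θ r : ℝ}
    (h : cross K θ r) : |yp K θ r| ≤ D ∧ |ym K θ r| ≤ D ∧ |r| ≤ D := by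
  have h1 := hD (hK.yp_mem h)
  have h2 := hD (hK.ym_mem h)
  rw [mem_closedBall_zero_iff] at h1 h2
  exact ⟨(abs_le_norm_pt _ _ _).trans h1, (abs_le_norm_pt _ _ _).trans h2,
    (abs_le_norm_pt' _ _ _).trans h1⟩

end Pool.Agent.Helper16.Buoy
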