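import Pool.Agent.Helper16.Buoy.G2

/-!
# G3. The chord lemma: derivative of cap moments with respect to the cutting line
-/

set_option autoImplicit false

open MeasureTheory Set Metric Filter Topology
open Real (cos sin)

namespace Pool.Agent.Helper16.Buoy

variable {K : Set (E 2)}

/-- The function `f` on `K`, zero outside, in the coordinates of the frame `θ0`. -/
noncomputable def GG (K : Set (E 2)) (f : E 2 → ℝ) (θ0 y r : ℝ) : ℝ := K.indicator f (pt θ0 r y)

theorem Body.measurableSet (hK : Body K) : MeasurableSet K := hK.comp.isClosed.measurableSet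

theorem Body.measurable_GG (hK : Body K) {f : E 2 → ℝ} (hf : Continuous f) (θ0 : ℝ) :
    Measurable (fun p : ℝ × ℝ => GG K f θ0 p.1 p.2) := by
  have h1 : Measurable (K.indicator f) := hf.measurable.indicator hK.measurableSet
  have h2 : Measurable (fun p : ℝ × ℝ => pt θ0 p.2 p.1) :=
    (continuous_pt.comp (by fun_prop : Continuous fun p : ℝ × ℝ => (θ0, p.2, p.1))).measurable
  exact h1.comp h2

theorem GG_abs_le {f : E 2 → ℝ} {M : ℝ} (hM : ∀ x ∈ K, |f x| ≤ M) (hM0 : 0 ≤ M) (θ0 y r : ℝ) :
    |GG K f θ0 y r| ≤ M := by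
  unfold GG
  by_cases h : pt θ0 r y ∈ K
  · rw [indicator_of_mem h]; exact hM _ h
  · rw [indicator_of_notMem h, abs_zero]; exact hM0

theorem GG_eq_zero {f : E 2 → ℝ} {D : ℝ} (hD : K ⊆ closedBall 0 D) {θ0 y r : ℝ}
    (h : D < |y| ∨ D < |r|) : GG K f θ0 y r = 0 := by
  unfold GG
  refine indicator_of_notMem (fun hmem => ?_) f
  have h1 : ‖pt θ0 r y‖ ≤ D := by simpa using hD hmem
  have h2 := abs_inner_uu_le θ0 (pt θ0 r y)
  have h3 := abs_inner_vv_le θ0 (pt θ0 r y)
  rw [inner_uu_pt] at h2
  rw [inner_vv_pt] at h3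
  rcases h with h | h <;> linarith

/-- Integrability on the plane of a bounded measurable function vanishing outside a square. -/
theorem integrable_of_box {g : ℝ × ℝ → ℝ} (hg : Measurable g) {M D : ℝ}
    (hM : ∀ p, |g p| ≤ M) (h0 : ∀ p : ℝ × ℝ, (D < |p.1| ∨ D < |p.2|) → g p = 0) :
    Integrable g (volume.prod volume) := by
  have hsub : Function.support g ⊆ Icc (-D) D ×ˢ Icc (-D) D := by
    intro p hp
    by_contra hn
    apply hp
    apply h0
    by_contra hcon
    push Not at hcon
    exact hn ⟨abs_le.1 hcon.1, abs_le.1 hcon.2⟩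
  rw [← integrableOn_iff_integrable_of_support_subset hsub]
  refine Measure.integrableOn_of_bounded (M := M) ?_ hg.aestronglyMeasurable ?_
  · rw [Measure.prod_prod]
    exact (ENNReal.mul_lt_top (by simp) (by simp)).ne
  · exact Eventually.of_forall fun p => by rw [Real.norm_eq_abs]; exact hM p

/-- Integrability on the line. -/
theorem integrable_of_interval {g : ℝ → ℝ} (hg : Measurable g) {M D : ℝ}
    (hM : ∀ p, |g p| ≤ M) (h0 : ∀ p : ℝ, D < |p| → g p = 0) :
    Integrable g volume := by
  have hsub : Function.support g ⊆ Icc (-D) D := by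
    intro p hp
    by_contra hn
    apply hp
    apply h0
    by_contra hcon
    push Not at hcon
    exact hn (abs_le.1 hcon)
  rw [← integrableOn_iff_integrable_of_support_subset hsub]
  refine Measure.integrableOn_of_bounded (M := M) ?_ hg.aestronglyMeasurable ?_
  · simp
  · exact Eventually.of_forall fun p => by rw [Real.norm_eq_abs]; exact hM p

/-- The cap moment in the coordinates of the frame `θ0`, for `θ` near `θ0`. -/
theorem Body.mom_eq (hK : Body K) {f : E 2 → ℝ} (hf : Continuous f) {θ0 θ t : ℝ}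
    (hc : 0 < cos (θ - θ0)) :
    mom K f θ t = ∫ y, ∫ r in Ici (t / cos (θ - θ0) - y * (sin (θ - θ0) / cos (θ - θ0))),
      GG K f θ0 y r := by
  obtain ⟨D, hD0, hD⟩ := hK.comp.isBounded.subset_closedBall_lt 0 (0 : E 2)
  obtain ⟨M, hM⟩ := hK.comp.exists_bound_of_continuousOn hf.continuousOn
  have hM' : ∀ x ∈ K, |f x| ≤ max M 0 := fun x hx => (hM x hx).trans (le_max_left _ _)
  have hcapm : MeasurableSet (cap K (uu θ) t) :=
    hK.measurableSet.inter (measurableSet_le measurable_const
      (continuous_const.inner continuous_id).measurable)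
  have hptc : Continuous (fun p : ℝ × ℝ => pt θ0 p.1 p.2) :=
    continuous_pt.comp (by fun_prop : Continuous fun p : ℝ × ℝ => (θ0, p.1, p.2))
  set b : ℝ → ℝ := fun y => t / cos (θ - θ0) - y * (sin (θ - θ0) / cos (θ - θ0)) with hb
  have hiff : ∀ y r : ℝ, t ≤ inner ℝ (uu θ) (pt θ0 r y) ↔ b y ≤ r := by
    intro y r
    rw [inner_uu_pt', hb]
    simp only
    have : t / cos (θ - θ0) - y * (sin (θ - θ0) / cos (θ - θ0)) =
      (t - y * sin (θ - θ0)) / cos (θ - θ0) := by ring
    rw [this, div_le_iff₀ hc]
    constructor <;> intro h <;> linarith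
  have h1 : mom K f θ t = ∫ p : ℝ × ℝ, (cap K (uu θ) t).indicator f (pt θ0 p.1 p.2) := by
    unfold mom
    rw [← integral_indicator hcapm]
    have hmp := measurePreserving_pt θ0
    conv_lhs => rw [← hmp.map_eq]
    rw [integral_map hmp.measurable.aemeasurable]
    exact (hf.measurable.indicator hcapm).aestronglyMeasurable
  have h2 : ∀ p : ℝ × ℝ, (cap K (uu θ) t).indicator f (pt θ0 p.1 p.2) =
      (Ici (b p.2)).indicator (GG K f θ0 p.2) p.1 := by
    intro p
    unfold GG
    by_cases hk : pt θ0 p.1 p.2 ∈ K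
    · by_cases ht : b p.2 ≤ p.1
      · rw [indicator_of_mem (show p.1 ∈ Ici (b p.2) from ht), indicator_of_mem hk,
          indicator_of_mem]
        exact ⟨hk, (hiff _ _).2 ht⟩
      · rw [indicator_of_notMem (show p.1 ∉ Ici (b p.2) from ht), indicator_of_notMem]
        exact fun h => ht ((hiff _ _).1 h.2)
    · rw [indicator_of_notMem (fun h => hk h.1)]
      by_cases ht : b p.2 ≤ p.1
      · rw [indicator_of_mem (show p.1 ∈ Ici (b p.2) from ht), indicator_of_notMem hk]
      · rw [indicator_of_notMem (show p.1 ∉ Ici (b p.2) from ht)]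
  rw [h1]
  have hint : Integrable (fun p : ℝ × ℝ => (cap K (uu θ) t).indicator f (pt θ0 p.1 p.2))
      (volume.prod volume) := by
    refine integrable_of_box (M := max M 0) (D := D)
      ((hf.measurable.indicator hcapm).comp hptc.measurable) ?_ ?_
    · intro p
      rw [h2 p]
      by_cases ht : b p.2 ≤ p.1
      · rw [indicator_of_mem (show p.1 ∈ Ici (b p.2) from ht)]
        exact GG_abs_le hM' (le_max_right _ _) _ _ _
      · rw [indicator_of_notMem (show p.1 ∉ Ici (b p.2) from ht), abs_zero]
        exact le_max_right _ _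
    · intro p hp
      rw [h2 p]
      have : GG K f θ0 p.2 p.1 = 0 := GG_eq_zero hD (hp.symm)
      by_cases ht : b p.2 ≤ p.1
      · rw [indicator_of_mem (show p.1 ∈ Ici (b p.2) from ht), this]
      · rw [indicator_of_notMem (show p.1 ∉ Ici (b p.2) from ht)]
  rw [Measure.volume_eq_prod, integral_prod_symm _ hint]
  congr 1
  ext y
  rw [← integral_indicator measurableSet_Ici]
  congr 1
  ext r
  exact h2 (r, y)

/-- Derivative of `∫_{x ∈ K, T(x) ≤ ⟨uu Θ(x), ·⟩} f` along a differentiable path of lines. -/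
theorem Body.hasDerivAt_mom (hK : Body K) {f : E 2 → ℝ} (hf : Continuous f) {Θ T : ℝ → ℝ}
    {x0 α c : ℝ} (hΘ : HasDerivAt Θ α x0) (hT : HasDerivAt T c x0)
    (hcr : cross K (Θ x0) (T x0)) :
    HasDerivAt (fun x => mom K f (Θ x) (T x))
      (∫ y in (ym K (Θ x0) (T x0))..(yp K (Θ x0) (T x0)),
        f (pt (Θ x0) (T x0) y) * (α * y - c)) x0 := by
  obtain ⟨D, hD0, hD⟩ := hK.comp.isBounded.subset_closedBall_lt 0 (0 : E 2)
  obtain ⟨M', hM'⟩ := hK.comp.exists_bound_of_continuousOn hf.continuousOn
  obtain ⟨M, hM0, hM⟩ : ∃ M : ℝ, 0 ≤ M ∧ ∀ x ∈ K, |f x| ≤ M :=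
    ⟨max M' 0, le_max_right _ _, fun x hx => (hM' x hx).trans (le_max_left _ _)⟩
  set θ0 := Θ x0 with hθ0
  set r0 := T x0 with hr0
  set A : ℝ → ℝ := fun x => T x / cos (Θ x - θ0) with hA
  set B : ℝ → ℝ := fun x => sin (Θ x - θ0) / cos (Θ x - θ0) with hB
  have hΘ' : HasDerivAt (fun x => Θ x - θ0) α x0 := hΘ.sub_const θ0
  have hcos : HasDerivAt (fun x => cos (Θ x - θ0)) 0 x0 := by
    have := hΘ'.cos
    simpa [hθ0] using this
  have hsin : HasDerivAt (fun x => sin (Θ x - θ0)) α x0 := by
    have := hΘ'.sin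
    simpa [hθ0] using this
  have hcne : cos (Θ x0 - θ0) ≠ 0 := by rw [← hθ0, sub_self, Real.cos_zero]; exact one_ne_zero
  have hA' : HasDerivAt A c x0 := by
    have := hT.div hcos hcne
    refine this.congr_deriv ?_
    rw [← hθ0, sub_self, Real.cos_zero]
    ring
  have hB' : HasDerivAt B α x0 := by
    have := hsin.div hcos hcne
    refine this.congr_deriv ?_
    rw [← hθ0, sub_self, Real.cos_zero]
    ring
  have hA0 : A x0 = r0 := by simp only [hA]; rw [← hθ0, sub_self, Real.cos_zero, div_one]
  have hB0 : B x0 = 0 := by simp only [hB]; rw [← hθ0, sub_self, Real.sin_zero, zero_div]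
  set b : ℝ → ℝ → ℝ := fun x y => A x - y * B x with hb
  have hb0 : ∀ y, b x0 y = r0 := by intro y; simp only [hb]; rw [hA0, hB0]; ring
  have hb' : ∀ y, HasDerivAt (fun x => b x y) (c - y * α) x0 := fun y =>
    hA'.sub (hB'.const_mul y)
  -- the integrand
  set F : ℝ → ℝ → ℝ := fun x y => ∫ r in Ici (b x y), GG K f θ0 y r with hF
  have hGm := hK.measurable_GG hf θ0
  have hGint : ∀ y, Integrable (GG K f θ0 y) volume := by
    intro y
    exact integrable_of_interval (hGm.comp (measurable_const.prodMk measurable_id))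
      (fun r => GG_abs_le hM hM0 θ0 y r) (fun r hr => GG_eq_zero hD (Or.inr hr))
  -- measurability and integrability of `F x`
  have hFprod : ∀ x, Integrable (fun p : ℝ × ℝ => (Ici (b x p.1)).indicator (GG K f θ0 p.1) p.2)
      (volume.prod volume) := by
    intro x
    have hset : MeasurableSet {p : ℝ × ℝ | b x p.1 ≤ p.2} :=
      measurableSet_le (by simp only [hb]; fun_prop) measurable_snd
    have heq : (fun p : ℝ × ℝ => (Ici (b x p.1)).indicator (GG K f θ0 p.1) p.2) =
        {p : ℝ × ℝ | b x p.1 ≤ p.2}.indicator (fun p => GG K f θ0 p.1 p.2) := by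
      ext p
      by_cases ht : b x p.1 ≤ p.2
      · rw [indicator_of_mem (show p.2 ∈ Ici (b x p.1) from ht), indicator_of_mem]
        exact ht
      · rw [indicator_of_notMem (show p.2 ∉ Ici (b x p.1) from ht), indicator_of_notMem]
        exact ht
    rw [heq]
    refine integrable_of_box (M := M) (D := D) (hGm.indicator hset) ?_ ?_
    · intro p
      by_cases ht : p ∈ {p : ℝ × ℝ | b x p.1 ≤ p.2}
      · rw [indicator_of_mem ht]; exact GG_abs_le hM hM0 _ _ _
      · rw [indicator_of_notMem ht, abs_zero]; exact hM0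
    · intro p hp
      by_cases ht : p ∈ {p : ℝ × ℝ | b x p.1 ≤ p.2}
      · rw [indicator_of_mem ht]; exact GG_eq_zero hD hp
      · rw [indicator_of_notMem ht]
  have hFint : ∀ x, Integrable (F x) volume := by
    intro x
    have := (hFprod x).integral_prod_left
    refine this.congr (Eventually.of_forall fun y => ?_)
    simp only [hF]
    rw [← integral_indicator measurableSet_Ici]
  -- differences
  have hdiff : ∀ x x' y, F x y - F x' y = ∫ r in (b x y)..(b x' y), GG K f θ0 y r := by
    intro x x' y
    simp only [hF]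
    exact intervalIntegral.integral_Ici_sub_Ici' (hGint y).integrableOn (hGint y).integrableOn
  have hout : ∀ x y, D < |y| → F x y = 0 := by
    intro x y hy
    simp only [hF]
    have : ∀ r, GG K f θ0 y r = 0 := fun r => GG_eq_zero hD (Or.inl hy)
    simp [this]
  -- Lipschitz bound
  obtain ⟨C1, hC1⟩ := hA'.isBigO_sub.bound
  obtain ⟨C2, hC2⟩ := hB'.isBigO_sub.bound
  have hcpos : ∀ᶠ x in 𝓝 x0, 0 < cos (Θ x - θ0) := by
    have h1 : Tendsto (fun x => cos (Θ x - θ0)) (𝓝 x0) (𝓝 (cos (Θ x0 - θ0))) :=
      hcos.continuousAt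
    rw [← hθ0, sub_self, Real.cos_zero] at h1
    exact h1.eventually (lt_mem_nhds one_pos)
  set bound : ℝ → ℝ := (Icc (-D) D).indicator (fun _ => M * (|C1| + D * |C2|)) with hbound
  have hmain := hasFDerivAt_integral_of_dominated_loc_of_lip' (μ := (volume : Measure ℝ))
    (F := F) (x₀ := x0) (bound := bound)
    (F' := fun y => ContinuousLinearMap.toSpanSingleton ℝ (GG K f θ0 y r0 * (α * y - c)))
    (s := {x | ‖A x - A x0‖ ≤ C1 * ‖x - x0‖ ∧ ‖B x - B x0‖ ≤ C2 * ‖x - x0‖})
    (hC1.and hC2) (fun x _ => (hFint x).aestronglyMeasurable) (hFint x0) ?_ ?_ ?_ ?_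
  · obtain ⟨hi, hd⟩ := hmain
    have hd1 := hd.hasDerivAt
    rw [ContinuousLinearMap.integral_apply hi] at hd1
    have hval : ∫ y, (ContinuousLinearMap.toSpanSingleton ℝ (GG K f θ0 y r0 * (α * y - c))) 1 =
        ∫ y in (ym K θ0 r0)..(yp K θ0 r0), f (pt θ0 r0 y) * (α * y - c) := by
      rw [intervalIntegral.integral_of_le (hK.ym_lt_yp hcr).le, ← integral_Icc_eq_integral_Ioc,
        ← integral_indicator measurableSet_Icc]
      congr 1
      ext y
      have hsec := hK.sec_eq (hK.sec_nonempty hcr)
      simp only [ContinuousLinearMap.toSpanSingleton_apply, one_smul]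
      unfold GG
      by_cases hy : y ∈ Icc (ym K θ0 r0) (yp K θ0 r0)
      · have : pt θ0 r0 y ∈ K := by rw [← hsec] at hy; exact hy
        rw [indicator_of_mem this, indicator_of_mem hy]
      · have : pt θ0 r0 y ∉ K := by rw [← hsec] at hy; exact hy
        rw [indicator_of_notMem this, indicator_of_notMem hy, zero_mul]
    rw [hval] at hd1
    refine hd1.congr_of_eventuallyEq ?_
    filter_upwards [hcpos] with x hx
    rw [hK.mom_eq hf hx]
  · -- measurability of the derivative
    have h1 : Measurable (fun y => GG K f θ0 y r0 * (α * y - c)) :=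
      (hGm.comp (measurable_id.prodMk measurable_const)).mul (by fun_prop)
    have h2 : Continuous (fun z : ℝ => ContinuousLinearMap.toSpanSingleton ℝ z) :=
      (ContinuousLinearMap.toSpanSingletonCLE (𝕜 := ℝ) (E := ℝ)).continuous
    exact (h2.measurable.comp h1).aestronglyMeasurable
  · -- Lipschitz
    refine Eventually.of_forall fun y x hx => ?_
    obtain ⟨hx1, hx2⟩ := hx
    by_cases hy : y ∈ Icc (-D) D
    · rw [hbound, indicator_of_mem hy, hdiff, Real.norm_eq_abs]
      have h1 : ‖∫ r in (b x y)..(b x0 y), GG K f θ0 y r‖ ≤ M * |b x0 y - b x y| :=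
        intervalIntegral.norm_integral_le_of_norm_le_const fun r _ => by
          rw [Real.norm_eq_abs]; exact GG_abs_le hM hM0 _ _ _
      rw [Real.norm_eq_abs] at h1
      refine h1.trans ?_
      rw [mul_assoc]
      refine mul_le_mul_of_nonneg_left ?_ hM0
      have h2 : b x0 y - b x y = -(A x - A x0) + y * (B x - B x0) := by simp only [hb]; ring
      have hyD : |y| ≤ D := abs_le.2 hy
      rw [Real.norm_eq_abs, Real.norm_eq_abs] at hx1 hx2
      rw [h2]
      calc |-(A x - A x0) + y * (B x - B x0)| ≤ |-(A x - A x0)| + |y * (B x - B x0)| :=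
            abs_add_le _ _
        _ = |A x - A x0| + |y| * |B x - B x0| := by rw [abs_neg, abs_mul]
        _ ≤ |C1| * |x - x0| + D * (|C2| * |x - x0|) := by
            refine add_le_add (hx1.trans ?_) (mul_le_mul hyD (hx2.trans ?_) (abs_nonneg _) hD0.le)
            · exact mul_le_mul_of_nonneg_right (le_abs_self _) (abs_nonneg _)
            · exact mul_le_mul_of_nonneg_right (le_abs_self _) (abs_nonneg _)
        _ = (|C1| + D * |C2|) * ‖x - x0‖ := by rw [Real.norm_eq_abs]; ring
    · have hyD : D < |y| := by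
        by_contra hcon
        push Not at hcon
        exact hy (abs_le.1 hcon)
      rw [hout x y hyD, hout x0 y hyD, hbound, indicator_of_notMem hy]
      simp
  · -- the bound is integrable
    rw [hbound, integrable_indicator_iff measurableSet_Icc]
    exact integrableOn_const (by simp)
  · -- differentiability
    have hae : ∀ᵐ y : ℝ, y ∉ ({ym K θ0 r0, yp K θ0 r0} : Set ℝ) := by
      have : volume ({ym K θ0 r0, yp K θ0 r0} : Set ℝ) = 0 :=
        (Set.toFinite _).measure_zero _
      exact measure_eq_zero_iff_ae_notMem.1 this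
    filter_upwards [hae] with y hy
    have hcont : ContinuousAt (GG K f θ0 y) r0 := by
      have hptc : Continuous (fun r : ℝ => pt θ0 r y) :=
        continuous_pt.comp (by fun_prop : Continuous fun r : ℝ => (θ0, r, y))
      by_cases hy2 : y ∈ Ioo (ym K θ0 r0) (yp K θ0 r0)
      · have hint := hK.pt_mem_interior hcr hy2
        have hev : ∀ᶠ r in 𝓝 r0, pt θ0 r y ∈ K := by
          have : ∀ᶠ r in 𝓝 r0, pt θ0 r y ∈ interior K :=
            hptc.continuousAt.eventually (isOpen_interior.mem_nhds hint)
          exact this.mono fun r hr => interior_subset hr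
        have h1 : ContinuousAt (fun r => f (pt θ0 r y)) r0 := (hf.comp hptc).continuousAt
        refine h1.congr ?_
        filter_upwards [hev] with r hr
        unfold GG
        rw [indicator_of_mem hr]
      · have hnot : pt θ0 r0 y ∉ K := by
          intro hmem
          have hsec := hK.sec_eq (hK.sec_nonempty hcr)
          have : y ∈ Icc (ym K θ0 r0) (yp K θ0 r0) := by rw [← hsec]; exact hmem
          apply hy
          by_contra hcon
          simp only [mem_insert_iff, mem_singleton_iff, not_or] at hcon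
          exact hy2 ⟨lt_of_le_of_ne this.1 (Ne.symm hcon.1), lt_of_le_of_ne this.2 hcon.2⟩
        have hev : ∀ᶠ r in 𝓝 r0, pt θ0 r y ∉ K :=
          hptc.continuousAt.eventually (hK.comp.isClosed.isOpen_compl.mem_nhds hnot)
        have h1 : ContinuousAt (fun _ : ℝ => (0 : ℝ)) r0 := continuousAt_const
        refine h1.congr ?_
        filter_upwards [hev] with r hr
        unfold GG
        rw [indicator_of_notMem hr]
    -- primitive
    have hprim : HasDerivAt (fun z => ∫ r in z..(b x0 y), GG K f θ0 y r)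
        (-(GG K f θ0 y r0)) r0 := by
      have hm : StronglyMeasurableAtFilter (GG K f θ0 y) (𝓝 r0) volume :=
        ((hGm.comp (measurable_const.prodMk measurable_id)).stronglyMeasurable).stronglyMeasurableAtFilter
      have h := intervalIntegral.integral_hasDerivAt_left (f := GG K f θ0 y) (a := r0)
        (b := b x0 y) ((hGint y).intervalIntegrable) hm hcont
      exact h
    have hcomp : HasDerivAt (fun x => ∫ r in (b x y)..(b x0 y), GG K f θ0 y r)
        (-(GG K f θ0 y r0) * (c - y * α)) x0 := by
      have h1 := hb' y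
      have h2 : HasDerivAt (fun z => ∫ r in z..(b x0 y), GG K f θ0 y r)
        (-(GG K f θ0 y r0)) (b x0 y) := by
        have := hprim
        rw [← hb0 y] at this
        convert this using 1
        rw [hb0 y]
      exact h2.comp x0 h1
    have hF' : HasDerivAt (fun x => F x y) (GG K f θ0 y r0 * (α * y - c)) x0 := by
      have h3 : (fun x => F x y) = fun x => F x0 y + ∫ r in (b x y)..(b x0 y), GG K f θ0 y r := by
        ext x
        rw [← hdiff x x0 y]
        ring
      rw [h3]
      refine (hcomp.const_add (F x0 y)).congr_deriv ?_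
      ring
    exact hF'.hasFDerivAt

end Pool.Agent.Helper16.Buoy
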