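import Pool.Agent.Helper16.Buoy.G3

/-!
# G4. The level `tau θ s` and the moments of the `s`-cap
-/

open MeasureTheory Set Metric Filter Topology
open Real (cos sin)

namespace Pool.Agent.Helper16.Buoy

variable {K : Set (E 2)}

/-- Total area. -/
noncomputable def tot (K : Set (E 2)) : ℝ := (volume K).toReal

theorem Body.vol_lt (hK : Body K) : volume K < ⊤ := hK.comp.measure_lt_top

theorem Body.tot_pos (hK : Body K) : 0 < tot K := by
  apply ENNReal.toReal_pos _ hK.vol_lt.ne
  have h := isOpen_interior.measure_pos volume hK.int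
  exact (h.trans_le (measure_mono interior_subset)).ne'

theorem Body.cap_closed (hK : Body K) (u : E 2) (t : ℝ) : IsClosed (cap K u t) :=
  hK.comp.isClosed.inter (isClosed_le continuous_const (by fun_prop))

theorem Body.cap_meas (hK : Body K) (u : E 2) (t : ℝ) : MeasurableSet (cap K u t) :=
  (hK.cap_closed u t).measurableSet

theorem cap_sub (u : E 2) (t : ℝ) : cap K u t ⊆ K := inter_subset_left

theorem Body.cap_lt (hK : Body K) (u : E 2) (t : ℝ) : volume (cap K u t) < ⊤ :=
  (measure_mono (cap_sub u t)).trans_lt hK.vol_lt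

theorem Body.area_eq_mom (_hK : Body K) (θ t : ℝ) : area K θ t = mom K (fun _ => 1) θ t := by
  simp [area, mom, measureReal_def]

theorem Body.area_antitone (hK : Body K) (θ : ℝ) : Antitone (area K θ) := by
  intro t t' h
  apply ENNReal.toReal_mono (hK.cap_lt _ _).ne
  apply measure_mono
  intro x hx
  exact ⟨hx.1, h.trans hx.2⟩

theorem Body.area_le_tot (hK : Body K) (θ t : ℝ) : area K θ t ≤ tot K :=
  ENNReal.toReal_mono hK.vol_lt.ne (measure_mono (cap_sub _ _))

/-- Measure of a slab. -/
theorem slab_le {D : ℝ} (hD : K ⊆ closedBall 0 D) (θ : ℝ)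
    {t t' : ℝ} (htt : t ≤ t') :
    volume (K ∩ {x | inner ℝ (uu θ) x ∈ Icc t t'}) ≤ ENNReal.ofReal ((t' - t) * (2 * D)) := by
  have hm : MeasurableSet ({x : E 2 | inner ℝ (uu θ) x ∈ Icc t t'} ∩ closedBall 0 D) := by
    apply IsClosed.measurableSet
    apply IsClosed.inter _ isClosed_closedBall
    exact isClosed_Icc.preimage (by fun_prop)
  calc volume (K ∩ {x | inner ℝ (uu θ) x ∈ Icc t t'})
      ≤ volume ({x : E 2 | inner ℝ (uu θ) x ∈ Icc t t'} ∩ closedBall 0 D) :=
        measure_mono (fun x hx => ⟨hx.2, hD hx.1⟩)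
    _ = volume ((fun p : ℝ × ℝ => pt θ p.1 p.2) ⁻¹'
          ({x : E 2 | inner ℝ (uu θ) x ∈ Icc t t'} ∩ closedBall 0 D)) :=
        ((measurePreserving_pt θ).measure_preimage hm.nullMeasurableSet).symm
    _ ≤ volume (Icc t t' ×ˢ Icc (-D) D) := by
        apply measure_mono
        rintro ⟨r, y⟩ ⟨h1, h2⟩
        simp only [mem_ofPred_eq, inner_uu_pt] at h1
        rw [mem_closedBall_zero_iff] at h2
        exact ⟨h1, abs_le.1 ((abs_le_norm_pt θ r y).trans h2)⟩
    _ = ENNReal.ofReal ((t' - t) * (2 * D)) := by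
        rw [Measure.volume_eq_prod, Measure.prod_prod, Real.volume_Icc, Real.volume_Icc,
          ← ENNReal.ofReal_mul (by linarith)]
        congr 1; ring

theorem line_null {D : ℝ} (hD : K ⊆ closedBall 0 D) (θ t : ℝ) :
    volume (K ∩ {x | inner ℝ (uu θ) x = t}) = 0 := by
  have h := slab_le hD θ (le_refl t)
  simp only [sub_self, zero_mul, ENNReal.ofReal_zero, nonpos_iff_eq_zero, Icc_self,
    mem_singleton_iff] at h
  exact h

theorem Body.area_lip (hK : Body K) {D : ℝ} (hD : K ⊆ closedBall 0 D) (hD0 : 0 ≤ D) (θ : ℝ)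
    {t t' : ℝ} (htt : t ≤ t') : area K θ t - area K θ t' ≤ (t' - t) * (2 * D) := by
  have h1 : volume (cap K (uu θ) t) ≤ volume (cap K (uu θ) t')
      + ENNReal.ofReal ((t' - t) * (2 * D)) := by
    refine le_trans (measure_mono ?_) (le_trans (measure_union_le _ _)
      (add_le_add (le_refl _) (slab_le hD θ htt)))
    intro x hx
    rcases le_total t' (inner ℝ (uu θ) x) with h | h
    · left; exact ⟨hx.1, h⟩
    · right; exact ⟨hx.1, hx.2, h⟩
  have h2 := ENNReal.toReal_mono
    (ENNReal.add_lt_top.2 ⟨hK.cap_lt (uu θ) t', ENNReal.ofReal_lt_top⟩).ne h1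
  rw [ENNReal.toReal_add (hK.cap_lt (uu θ) t').ne ENNReal.ofReal_ne_top,
    ENNReal.toReal_ofReal (by nlinarith)] at h2
  unfold area; linarith

theorem Body.area_cont (hK : Body K) (θ : ℝ) : Continuous (area K θ) := by
  obtain ⟨D, hD0, hD⟩ := hK.exists_bound
  have : LipschitzWith (Real.toNNReal (2 * D)) (area K θ) := by
    apply LipschitzWith.of_dist_le_mul
    intro t t'
    rw [Real.coe_toNNReal _ (by positivity), Real.dist_eq, Real.dist_eq]
    rcases le_total t t' with h | h
    · have h1 := hK.area_lip hD hD0.le θ h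
      have h2 := hK.area_antitone θ h
      rw [abs_of_nonneg (by linarith), abs_of_nonpos (by linarith)]; linarith
    · have h1 := hK.area_lip hD hD0.le θ h
      have h2 := hK.area_antitone θ h
      rw [abs_of_nonpos (by linarith), abs_of_nonneg (by linarith)]; linarith
  exact this.continuous

/-- A line that cuts off an area strictly between `0` and the total area meets the interior. -/
theorem Body.cross_of_area (hK : Body K) {θ t : ℝ} (h0 : 0 < area K θ t) (h1 : area K θ t < tot K) :
    cross K θ t := by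
  have hfr : volume (frontier K) = 0 := hK.conv.addHaar_frontier volume
  have hsub : K ⊆ interior K ∪ frontier K := by
    intro x hx
    rw [← closure_eq_interior_union_frontier]; exact subset_closure hx
  have hx1 : ∃ x ∈ interior K, t ≤ inner ℝ (uu θ) x := by
    by_contra hcon
    push Not at hcon
    have : cap K (uu θ) t ⊆ frontier K := by
      intro x hx
      rcases hsub hx.1 with h | h
      · exact absurd hx.2 (not_le.2 (hcon x h))
      · exact h
    have h2 : volume (cap K (uu θ) t) = 0 := measure_mono_null this hfr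
    unfold area at h0; rw [h2] at h0; simp at h0
  have hx2 : ∃ x ∈ interior K, inner ℝ (uu θ) x < t := by
    by_contra hcon
    push Not at hcon
    have : K ⊆ cap K (uu θ) t ∪ frontier K := by
      intro x hx
      rcases hsub hx with h | h
      · left; exact ⟨hx, hcon x h⟩
      · right; exact h
    have h2 : volume K ≤ volume (cap K (uu θ) t) := by
      refine (measure_mono this).trans ((measure_union_le _ _).trans ?_)
      rw [hfr, add_zero]
    have h3 := ENNReal.toReal_mono (hK.cap_lt _ _).ne h2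
    unfold area tot at h1; linarith
  obtain ⟨x1, hx1, h1⟩ := hx1
  obtain ⟨x2, hx2, h2⟩ := hx2
  set a1 := inner ℝ (uu θ) x1
  set a2 := inner ℝ (uu θ) x2
  have hd : 0 < a1 - a2 := by linarith
  refine ⟨((a1 - t) / (a1 - a2)) • x2 + ((t - a2) / (a1 - a2)) • x1,
    hK.conv.interior hx2 hx1 (div_nonneg (by linarith) hd.le) (div_nonneg (by linarith) hd.le)
      (by field_simp; ring), ?_⟩
  rw [inner_add_right, inner_smul_right, inner_smul_right]
  show (a1 - t) / (a1 - a2) * a2 + (t - a2) / (a1 - a2) * a1 = t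
  field_simp; ring

theorem Body.exists_area_eq (hK : Body K) (θ : ℝ) {s : ℝ} (hs : s ∈ Ioo 0 (tot K)) :
    ∃ t, area K θ t = s := by
  obtain ⟨D, hD0, hD⟩ := hK.exists_bound
  have h1 : area K θ (D + 1) = 0 := by
    have : cap K (uu θ) (D + 1) = ∅ := by
      apply eq_empty_of_forall_notMem
      intro x hx
      have h2 := hD hx.1
      rw [mem_closedBall_zero_iff] at h2
      have h3 := (le_abs_self _).trans (abs_inner_uu_le θ x)
      have h4 : D + 1 ≤ inner ℝ (uu θ) x := hx.2
      linarith
    unfold area; rw [this]; simp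
  have h2 : area K θ (-D) = tot K := by
    have : cap K (uu θ) (-D) = K := by
      apply inter_eq_left.2
      intro x hx
      have h2 := hD hx
      rw [mem_closedBall_zero_iff] at h2
      have h3 := (neg_abs_le _).trans' (neg_le_neg (abs_inner_uu_le θ x))
      show -D ≤ inner ℝ (uu θ) x
      linarith
    unfold area tot; rw [this]
  have h3 : ∃ a, area K θ a ≤ s := ⟨D + 1, by rw [h1]; exact hs.1.le⟩
  have h4 : ∃ a, s ≤ area K θ a := ⟨-D, by rw [h2]; exact hs.2.le⟩
  exact mem_range_of_exists_le_of_exists_ge (hK.area_cont θ) h3 h4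

theorem Body.area_hasDerivAt (hK : Body K) {Θ T : ℝ → ℝ}
    {x0 α c : ℝ} (hΘ : HasDerivAt Θ α x0) (hT : HasDerivAt T c x0)
    (hcr : cross K (Θ x0) (T x0)) :
    HasDerivAt (fun x => area K (Θ x) (T x))
      ((yp K (Θ x0) (T x0) - ym K (Θ x0) (T x0)) *
        (α * ((yp K (Θ x0) (T x0) + ym K (Θ x0) (T x0)) / 2) - c)) x0 := by
  have h := hK.hasDerivAt_mom (f := fun _ => 1) continuous_const hΘ hT hcr
  simp_rw [← hK.area_eq_mom] at h
  convert h using 1
  simp only [one_mul]
  rw [intervalIntegral.integral_sub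
    (Continuous.intervalIntegrable (by fun_prop) _ _) (Continuous.intervalIntegrable (by fun_prop) _ _),
    intervalIntegral.integral_const_mul, integral_id, intervalIntegral.integral_const, smul_eq_mul]
  ring

theorem Body.unique_level (hK : Body K) {θ s t1 t2 : ℝ} (hs : s ∈ Ioo 0 (tot K))
    (h1 : area K θ t1 = s) (h2 : area K θ t2 = s) (hlt : t1 < t2) : False := by
  have hc : cross K θ t2 := hK.cross_of_area (by rw [h2]; exact hs.1) (by rw [h2]; exact hs.2)
  have hd := hK.area_hasDerivAt (Θ := fun _ => θ) (T := fun t => t) (x0 := t2)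
    (hasDerivAt_const _ _) (hasDerivAt_id' _) hc
  rw [hasDerivAt_iff_tendsto_slope] at hd
  have hneg : (yp K θ t2 - ym K θ t2) * (0 * ((yp K θ t2 + ym K θ t2) / 2) - 1) < 0 := by
    have := hK.ym_lt_yp hc
    nlinarith
  have he := hd.eventually (gt_mem_nhds hneg)
  have he2 : ∀ᶠ t in 𝓝[<] t2, slope (fun x => area K θ x) t2 t < 0 :=
    he.filter_mono (nhdsWithin_mono _ (fun x hx => ne_of_lt hx))
  have he3 : ∀ᶠ t in 𝓝[<] t2, t1 < t := by
    apply mem_nhdsWithin_of_mem_nhds
    exact Ioi_mem_nhds hlt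
  obtain ⟨t, ⟨ht1, ht2⟩, ht3⟩ := ((he2.and he3).and self_mem_nhdsWithin).exists
  have hA1 := hK.area_antitone θ ht2.le
  have hA2 := hK.area_antitone θ (le_of_lt ht3 : t ≤ t2)
  have hA : area K θ t = area K θ t2 := by rw [h1] at hA1; rw [h2] at hA2 ⊢; linarith
  rw [slope_def_field] at ht1
  simp only [hA, sub_self, zero_div, lt_self_iff_false] at ht1

theorem Body.tau_spec (hK : Body K) {θ s t : ℝ} (hs : s ∈ Ioo 0 (tot K)) (h : area K θ t = s) :
    tau K θ s = t := by
  have : {t | s ≤ area K θ t} = Iic t := by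
    ext t'
    simp only [mem_ofPred_eq, mem_Iic]
    constructor
    · intro h'
      by_contra hcon
      push Not at hcon
      have h2 := hK.area_antitone θ hcon.le
      exact hK.unique_level hs h (le_antisymm (h2.trans h.le) h') hcon
    · intro h'
      rw [← h]; exact hK.area_antitone θ h'
  unfold tau; rw [this]; exact csSup_Iic

theorem Body.area_tau (hK : Body K) {θ s : ℝ} (hs : s ∈ Ioo 0 (tot K)) :
    area K θ (tau K θ s) = s := by
  obtain ⟨t, ht⟩ := hK.exists_area_eq θ hs
  rw [hK.tau_spec hs ht]; exact ht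

theorem Body.cross_tau (hK : Body K) {θ s : ℝ} (hs : s ∈ Ioo 0 (tot K)) :
    cross K θ (tau K θ s) :=
  hK.cross_of_area (by rw [hK.area_tau hs]; exact hs.1) (by rw [hK.area_tau hs]; exact hs.2)

theorem Body.eq_tau (hK : Body K) {θ s t : ℝ} (hs : s ∈ Ioo 0 (tot K)) (h : area K θ t = s) :
    t = tau K θ s := (hK.tau_spec hs h).symm

theorem Body.area_lt_iff (hK : Body K) {θ s t : ℝ} (hs : s ∈ Ioo 0 (tot K)) :
    area K θ t < s ↔ tau K θ s < t := by
  constructor
  · intro h
    by_contra hcon
    push Not at hcon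
    have := hK.area_antitone θ hcon
    rw [hK.area_tau hs] at this; linarith
  · intro h
    have h1 := hK.area_antitone θ h.le
    rw [hK.area_tau hs] at h1
    rcases lt_or_eq_of_le h1 with h2 | h2
    · exact h2
    · exact absurd (hK.eq_tau hs h2) h.ne'

theorem Body.lt_area_iff (hK : Body K) {θ s t : ℝ} (hs : s ∈ Ioo 0 (tot K)) :
    s < area K θ t ↔ t < tau K θ s := by
  constructor
  · intro h
    by_contra hcon
    push Not at hcon
    have := hK.area_antitone θ hcon
    rw [hK.area_tau hs] at this; linarith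
  · intro h
    have h1 := hK.area_antitone θ h.le
    rw [hK.area_tau hs] at h1
    rcases lt_or_eq_of_le h1 with h2 | h2
    · exact h2
    · exact absurd (hK.eq_tau hs h2.symm) h.ne

theorem Body.cross_near (hK : Body K) {θ s : ℝ} (hs : s ∈ Ioo 0 (tot K)) :
    ∀ᶠ t in 𝓝 (tau K θ s), cross K θ t := by
  have h := cross_eventually (hK.cross_tau (θ := θ) hs)
  have hc : Tendsto (fun t : ℝ => (θ, t)) (𝓝 (tau K θ s)) (𝓝 (θ, tau K θ s)) :=
    (by fun_prop : Continuous fun t : ℝ => (θ, t)).tendsto _
  exact hc.eventually h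

theorem Body.area_cont_θ (hK : Body K) {θ t : ℝ} (h : cross K θ t) :
    ContinuousAt (fun θ => area K θ t) θ :=
  (hK.area_hasDerivAt (Θ := fun x => x) (T := fun _ => t) (hasDerivAt_id' θ)
    (hasDerivAt_const _ _) h).continuousAt

theorem Body.tau_contAt (hK : Body K) {θ s : ℝ} (hs : s ∈ Ioo 0 (tot K)) :
    ContinuousAt (fun p : ℝ × ℝ => tau K p.1 p.2) (θ, s) := by
  have hev : ∀ᶠ p : ℝ × ℝ in 𝓝 (θ, s), p.2 ∈ Ioo 0 (tot K) :=
    (continuous_snd.continuousAt (x := (θ, s))).preimage_mem_nhds (isOpen_Ioo.mem_nhds hs)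
  rw [ContinuousAt, tendsto_order]
  constructor
  · intro a ha
    have ha' : a < tau K θ s := ha
    have h1 : ∀ᶠ t in 𝓝[<] (tau K θ s), cross K θ t ∧ a < t :=
      ((hK.cross_near hs).filter_mono nhdsWithin_le_nhds).and
        (mem_nhdsWithin_of_mem_nhds (Ioi_mem_nhds ha'))
    obtain ⟨t, ⟨hct, hat⟩, htt⟩ := (h1.and self_mem_nhdsWithin).exists
    have htt' : t < tau K θ s := htt
    have h2 := (hK.lt_area_iff hs).2 htt'
    have h3 : ContinuousAt (fun p : ℝ × ℝ => area K p.1 t - p.2) (θ, s) :=
      (ContinuousAt.comp (f := fun p : ℝ × ℝ => p.1) (x := (θ, s)) (hK.area_cont_θ hct)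
        continuous_fst.continuousAt).sub continuous_snd.continuousAt
    have h4 : ∀ᶠ p : ℝ × ℝ in 𝓝 (θ, s), 0 < area K p.1 t - p.2 :=
      h3.eventually (lt_mem_nhds (by simpa using h2))
    filter_upwards [hev, h4] with p hp h5
    exact hat.trans ((hK.lt_area_iff hp).1 (by linarith))
  · intro a ha
    have ha' : tau K θ s < a := ha
    have h1 : ∀ᶠ t in 𝓝[>] (tau K θ s), cross K θ t ∧ t < a :=
      ((hK.cross_near hs).filter_mono nhdsWithin_le_nhds).and
        (mem_nhdsWithin_of_mem_nhds (Iio_mem_nhds ha'))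
    obtain ⟨t, ⟨hct, hat⟩, htt⟩ := (h1.and self_mem_nhdsWithin).exists
    have htt' : tau K θ s < t := htt
    have h2 := (hK.area_lt_iff hs).2 htt'
    have h3 : ContinuousAt (fun p : ℝ × ℝ => p.2 - area K p.1 t) (θ, s) :=
      continuous_snd.continuousAt.sub
      (ContinuousAt.comp (f := fun p : ℝ × ℝ => p.1) (x := (θ, s)) (hK.area_cont_θ hct)
        continuous_fst.continuousAt)
    have h4 : ∀ᶠ p : ℝ × ℝ in 𝓝 (θ, s), 0 < p.2 - area K p.1 t :=
      h3.eventually (lt_mem_nhds (by simpa using h2))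
    filter_upwards [hev, h4] with p hp h5
    exact ((hK.area_lt_iff hp).1 (by linarith)).trans hat

theorem Body.tau_cont (hK : Body K) :
    ContinuousOn (fun p : ℝ × ℝ => tau K p.1 p.2) (univ ×ˢ Ioo 0 (tot K)) := by
  rintro ⟨θ, s⟩ ⟨-, hs⟩
  exact (hK.tau_contAt hs).continuousWithinAt

theorem Body.len_pos (hK : Body K) {θ s : ℝ} (hs : s ∈ Ioo 0 (tot K)) : 0 < len K θ s :=
  sub_pos.2 (hK.ym_lt_yp (hK.cross_tau hs))

theorem Body.tau_cont_s (hK : Body K) {θ s : ℝ} (hs : s ∈ Ioo 0 (tot K)) :
    ContinuousAt (fun s => tau K θ s) s :=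
  ContinuousAt.comp (f := fun s : ℝ => (θ, s)) (g := fun p : ℝ × ℝ => tau K p.1 p.2)
    (hK.tau_contAt hs) (by fun_prop)

theorem Body.tau_s (hK : Body K) {θ s : ℝ} (hs : s ∈ Ioo 0 (tot K)) :
    HasDerivAt (fun s => tau K θ s) (-1 / len K θ s) s := by
  have hl := hK.len_pos (θ := θ) hs
  have hd := hK.area_hasDerivAt (Θ := fun _ => θ) (T := fun t => t) (x0 := tau K θ s)
    (hasDerivAt_const _ _) (hasDerivAt_id' _) (hK.cross_tau hs)
  have hd2 : HasDerivAt (fun t => area K θ t) (-len K θ s) (tau K θ s) := by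
    convert hd using 1; unfold len; ring
  have h := HasDerivAt.of_local_left_inverse (hK.tau_cont_s hs) hd2 (by linarith [hl] : -len K θ s ≠ 0)
    (by
      filter_upwards [isOpen_Ioo.mem_nhds hs] with s' hs'
      exact hK.area_tau hs')
  have e : -1 / len K θ s = (-len K θ s)⁻¹ := by rw [inv_neg, neg_div, one_div]
  rw [e]; exact h

theorem Body.tau_θ (hK : Body K) {θ s : ℝ} (hs : s ∈ Ioo 0 (tot K)) :
    HasDerivAt (fun θ => tau K θ s) (mid K θ s) θ := by
  have hl := hK.len_pos (θ := θ) hs
  have hcr := hK.cross_tau (θ := θ) hs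
  -- the comparison function
  have key : ∀ c : ℝ, HasDerivAt (fun x => area K x (tau K θ s + c * (x - θ)))
      (len K θ s * (mid K θ s - c)) θ := by
    intro c
    have hT : HasDerivAt (fun x => tau K θ s + c * (x - θ)) c θ := by
      simpa using (((hasDerivAt_id' θ).sub_const θ).const_mul c).const_add (tau K θ s)
    have h := hK.area_hasDerivAt (Θ := fun x => x) (T := fun x => tau K θ s + c * (x - θ))
      (x0 := θ) (hasDerivAt_id' _) hT (by simpa using hcr)
    convert h using 1
    simp only [sub_self, mul_zero, add_zero, one_mul]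
    rfl
  have key0 : ∀ c : ℝ, area K θ (tau K θ s + c * (θ - θ)) = s := by
    intro c; simp only [sub_self, mul_zero, add_zero]; exact hK.area_tau hs
  rw [hasDerivAt_iff_tendsto_slope, tendsto_order]
  constructor
  · intro c hc
    have h1 := key c
    rw [hasDerivAt_iff_tendsto_slope] at h1
    have hpos : 0 < len K θ s * (mid K θ s - c) := mul_pos hl (by linarith)
    have h2 := h1.eventually (lt_mem_nhds hpos)
    filter_upwards [h2, self_mem_nhdsWithin] with x hx hne
    have hne' : x ≠ θ := hne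
    rw [slope_def_field] at hx ⊢
    rw [key0] at hx
    rcases lt_or_gt_of_ne hne' with hlt | hgt
    · have h3 : area K x (tau K θ s + c * (x - θ)) < s := by
        by_contra hcon
        push Not at hcon
        have := div_nonpos_of_nonneg_of_nonpos (sub_nonneg.2 hcon) (by linarith : x - θ ≤ 0)
        linarith
      have h4 := (hK.area_lt_iff hs).1 h3
      rw [lt_div_iff_of_neg (by linarith)]; linarith
    · have h3 : s < area K x (tau K θ s + c * (x - θ)) := by
        by_contra hcon
        push Not at hcon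
        have := div_nonpos_of_nonpos_of_nonneg (sub_nonpos.2 hcon) (by linarith : 0 ≤ x - θ)
        linarith
      have h4 := (hK.lt_area_iff hs).1 h3
      rw [lt_div_iff₀ (by linarith)]; linarith
  · intro c hc
    have h1 := key c
    rw [hasDerivAt_iff_tendsto_slope] at h1
    have hneg : len K θ s * (mid K θ s - c) < 0 := mul_neg_of_pos_of_neg hl (by linarith)
    have h2 := h1.eventually (gt_mem_nhds hneg)
    filter_upwards [h2, self_mem_nhdsWithin] with x hx hne
    have hne' : x ≠ θ := hne
    rw [slope_def_field] at hx ⊢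
    rw [key0] at hx
    rcases lt_or_gt_of_ne hne' with hlt | hgt
    · have h3 : s < area K x (tau K θ s + c * (x - θ)) := by
        by_contra hcon
        push Not at hcon
        have := div_nonneg_of_nonpos (sub_nonpos.2 hcon) (by linarith : x - θ ≤ 0)
        linarith
      have h4 := (hK.lt_area_iff hs).1 h3
      rw [div_lt_iff_of_neg (by linarith)]; linarith
    · have h3 : area K x (tau K θ s + c * (x - θ)) < s := by
        by_contra hcon
        push Not at hcon
        have := div_nonneg (sub_nonneg.2 hcon) (by linarith : 0 ≤ x - θ)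
        linarith
      have h4 := (hK.area_lt_iff hs).1 h3
      rw [div_lt_iff₀ (by linarith)]; linarith

end Pool.Agent.Helper16.Buoy
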