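import Pool.Agent.Helper16.Buoy.G4

/-!
# G4b. Moments of the `s`-cap
-/

open MeasureTheory Set Metric Filter Topology
open Real (cos sin)

namespace Pool.Agent.Helper16.Buoy

variable {K : Set (E 2)}

theorem continuous_inner_uu (θ : ℝ) : Continuous (fun x : E 2 => inner ℝ (uu θ) x) := by fun_prop
theorem continuous_inner_vv (θ : ℝ) : Continuous (fun x : E 2 => inner ℝ (vv θ) x) := by fun_prop

/-- `s`-derivative of a moment of the `s`-cap: the average over the chord. -/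
theorem Body.mom_s (hK : Body K) {f : E 2 → ℝ} (hf : Continuous f) {θ s : ℝ}
    (hs : s ∈ Ioo 0 (tot K)) :
    HasDerivAt (fun s => mom K f θ (tau K θ s))
      (∫ y in (ym K θ (tau K θ s))..(yp K θ (tau K θ s)),
        f (pt θ (tau K θ s) y) * (1 / len K θ s)) s := by
  have h := hK.hasDerivAt_mom hf (Θ := fun _ => θ) (T := fun s => tau K θ s) (x0 := s)
    (hasDerivAt_const _ _) (hK.tau_s hs) (hK.cross_tau hs)
  refine h.congr_deriv ?_
  congr 1; funext y
  rw [zero_mul, zero_sub, neg_div, neg_neg]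

/-- `θ`-derivative of a moment of the `s`-cap. -/
theorem Body.mom_θ (hK : Body K) {f : E 2 → ℝ} (hf : Continuous f) {θ s : ℝ}
    (hs : s ∈ Ioo 0 (tot K)) :
    HasDerivAt (fun θ => mom K f θ (tau K θ s))
      (∫ y in (ym K θ (tau K θ s))..(yp K θ (tau K θ s)),
        f (pt θ (tau K θ s) y) * (y - mid K θ s)) θ := by
  have h := hK.hasDerivAt_mom hf (Θ := fun x => x) (T := fun θ => tau K θ s) (x0 := θ)
    (hasDerivAt_id' _) (hK.tau_θ hs) (hK.cross_tau hs)
  refine h.congr_deriv ?_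
  congr 1; funext y
  rw [one_mul]

theorem Body.HH_s (hK : Body K) {θ s : ℝ} (hs : s ∈ Ioo 0 (tot K)) :
    HasDerivAt (fun s => HH K θ s) (tau K θ s) s := by
  have h := hK.mom_s (continuous_inner_uu θ) (θ := θ) hs
  refine h.congr_deriv ?_
  simp_rw [inner_uu_pt]
  rw [intervalIntegral.integral_const, smul_eq_mul]
  have hl := hK.len_pos (θ := θ) hs
  have : yp K θ (tau K θ s) - ym K θ (tau K θ s) = len K θ s := rfl
  rw [this]; field_simp

theorem Body.kk_s (hK : Body K) {θ s : ℝ} (hs : s ∈ Ioo 0 (tot K)) :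
    HasDerivAt (fun s => kk K θ s) (mid K θ s) s := by
  have h := hK.mom_s (continuous_inner_vv θ) (θ := θ) hs
  refine h.congr_deriv ?_
  simp_rw [inner_vv_pt]
  rw [intervalIntegral.integral_mul_const, integral_id]
  have hl := hK.len_pos (θ := θ) hs
  have : yp K θ (tau K θ s) - ym K θ (tau K θ s) = len K θ s := rfl
  unfold mid
  field_simp
  rw [← this]; ring

theorem cubic_int (p q a b : ℝ) :
    ∫ y in a..b, (p + q * y) * (y - (b + a) / 2) = q * (b - a) ^ 3 / 12 := by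
  have h : ∀ y ∈ uIcc a b, HasDerivAt
      (fun y => q * y ^ 3 / 3 + (p - q * ((b + a) / 2)) * y ^ 2 / 2 - p * ((b + a) / 2) * y)
      ((p + q * y) * (y - (b + a) / 2)) y := by
    intro y _
    have h1 := ((((hasDerivAt_pow 3 y).const_mul q).div_const 3).add
      (((hasDerivAt_pow 2 y).const_mul (p - q * ((b + a) / 2))).div_const 2)).sub
      ((hasDerivAt_id' y).const_mul (p * ((b + a) / 2)))
    refine h1.congr_deriv ?_
    push_cast; ring
  rw [intervalIntegral.integral_eq_sub_of_hasDerivAt h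
    (Continuous.intervalIntegrable (by fun_prop) _ _)]
  ring

/-- Coordinate moments. -/
noncomputable def MM (K : Set (E 2)) (i : Fin 2) (θ s : ℝ) : ℝ :=
  mom K (fun x => x i) θ (tau K θ s)

theorem Body.MM0_θ (hK : Body K) {θ s : ℝ} (hs : s ∈ Ioo 0 (tot K)) :
    HasDerivAt (fun θ => MM K 0 θ s) (-sin θ * len K θ s ^ 3 / 12) θ := by
  have h := hK.mom_θ (f := fun x => x 0) (by fun_prop) (θ := θ) hs
  refine h.congr_deriv ?_
  simp_rw [pt_zero]
  have e : ∀ y, (tau K θ s * cos θ - y * sin θ) * (y - mid K θ s)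
      = (tau K θ s * cos θ + -sin θ * y)
        * (y - (yp K θ (tau K θ s) + ym K θ (tau K θ s)) / 2) := by
    intro y; unfold mid; ring
  simp_rw [e]
  rw [cubic_int]; rfl

theorem Body.MM1_θ (hK : Body K) {θ s : ℝ} (hs : s ∈ Ioo 0 (tot K)) :
    HasDerivAt (fun θ => MM K 1 θ s) (cos θ * len K θ s ^ 3 / 12) θ := by
  have h := hK.mom_θ (f := fun x => x 1) (by fun_prop) (θ := θ) hs
  refine h.congr_deriv ?_
  simp_rw [pt_one]
  have e : ∀ y, (tau K θ s * sin θ + y * cos θ) * (y - mid K θ s)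
      = (tau K θ s * sin θ + cos θ * y)
        * (y - (yp K θ (tau K θ s) + ym K θ (tau K θ s)) / 2) := by
    intro y; unfold mid; ring
  simp_rw [e]
  rw [cubic_int]; rfl

theorem Body.integrableOn (hK : Body K) {f : E 2 → ℝ} (hf : Continuous f) : IntegrableOn f K :=
  hf.continuousOn.integrableOn_compact hK.comp

theorem Body.HH_eq (hK : Body K) (θ s : ℝ) :
    HH K θ s = cos θ * MM K 0 θ s + sin θ * MM K 1 θ s := by
  unfold HH MM mom
  simp_rw [inner_uu]
  have h0 : IntegrableOn (fun x : E 2 => x 0) (cap K (uu θ) (tau K θ s)) :=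
    (hK.integrableOn (by fun_prop)).mono_set (cap_sub _ _)
  have h1 : IntegrableOn (fun x : E 2 => x 1) (cap K (uu θ) (tau K θ s)) :=
    (hK.integrableOn (by fun_prop)).mono_set (cap_sub _ _)
  rw [integral_add (h0.const_mul _) (h1.const_mul _), integral_const_mul, integral_const_mul]

theorem Body.kk_eq (hK : Body K) (θ s : ℝ) :
    kk K θ s = -sin θ * MM K 0 θ s + cos θ * MM K 1 θ s := by
  unfold kk MM mom
  simp_rw [inner_vv]
  have h0 : IntegrableOn (fun x : E 2 => x 0) (cap K (uu θ) (tau K θ s)) :=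
    (hK.integrableOn (by fun_prop)).mono_set (cap_sub _ _)
  have h1 : IntegrableOn (fun x : E 2 => x 1) (cap K (uu θ) (tau K θ s)) :=
    (hK.integrableOn (by fun_prop)).mono_set (cap_sub _ _)
  rw [integral_add (h0.const_mul _) (h1.const_mul _), integral_const_mul, integral_const_mul]

theorem Body.HH_θ (hK : Body K) {θ s : ℝ} (hs : s ∈ Ioo 0 (tot K)) :
    HasDerivAt (fun θ => HH K θ s) (kk K θ s) θ := by
  simp_rw [hK.HH_eq]
  have h := ((Real.hasDerivAt_cos θ).mul (hK.MM0_θ (θ := θ) hs)).add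
    ((Real.hasDerivAt_sin θ).mul (hK.MM1_θ (θ := θ) hs))
  refine h.congr_deriv ?_
  rw [hK.kk_eq]; ring

theorem Body.kk_θ (hK : Body K) {θ s : ℝ} (hs : s ∈ Ioo 0 (tot K)) :
    HasDerivAt (fun θ => kk K θ s) (len K θ s ^ 3 / 12 - HH K θ s) θ := by
  simp_rw [hK.kk_eq]
  have h := (((Real.hasDerivAt_sin θ).neg).mul (hK.MM0_θ (θ := θ) hs)).add
    ((Real.hasDerivAt_cos θ).mul (hK.MM1_θ (θ := θ) hs))
  refine h.congr_deriv ?_
  rw [hK.HH_eq]
  have h1 := Real.sin_sq_add_cos_sq θ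
  simp only [Pi.neg_apply]
  linear_combination (len K θ s ^ 3 / 12) * h1

theorem Body.yp_tau_contAt (hK : Body K) {θ s : ℝ} (hs : s ∈ Ioo 0 (tot K)) :
    ContinuousAt (fun p : ℝ × ℝ => yp K p.1 (tau K p.1 p.2)) (θ, s) :=
  ContinuousAt.comp (f := fun p : ℝ × ℝ => (p.1, tau K p.1 p.2))
    (g := fun p : ℝ × ℝ => yp K p.1 p.2) (x := (θ, s))
    (hK.yp_continuousAt (hK.cross_tau hs)) (continuousAt_fst.prodMk (hK.tau_contAt hs))

theorem Body.ym_tau_contAt (hK : Body K) {θ s : ℝ} (hs : s ∈ Ioo 0 (tot K)) :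
    ContinuousAt (fun p : ℝ × ℝ => ym K p.1 (tau K p.1 p.2)) (θ, s) :=
  ContinuousAt.comp (f := fun p : ℝ × ℝ => (p.1, tau K p.1 p.2))
    (g := fun p : ℝ × ℝ => ym K p.1 p.2) (x := (θ, s))
    (hK.ym_continuousAt (hK.cross_tau hs)) (continuousAt_fst.prodMk (hK.tau_contAt hs))

theorem Body.len_cont (hK : Body K) :
    ContinuousOn (fun p : ℝ × ℝ => len K p.1 p.2) (univ ×ˢ Ioo 0 (tot K)) := by
  rintro ⟨θ, s⟩ ⟨-, hs⟩
  exact ((hK.yp_tau_contAt hs).sub (hK.ym_tau_contAt hs)).continuousWithinAt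

theorem Body.mid_cont (hK : Body K) :
    ContinuousOn (fun p : ℝ × ℝ => mid K p.1 p.2) (univ ×ˢ Ioo 0 (tot K)) := by
  rintro ⟨θ, s⟩ ⟨-, hs⟩
  exact (((hK.yp_tau_contAt hs).add (hK.ym_tau_contAt hs)).div_const 2).continuousWithinAt

theorem Body.mom_bound (hK : Body K) {D : ℝ} {f : E 2 → ℝ} (hf : ∀ x ∈ K, |f x| ≤ D)
    {θ s : ℝ} (hs : s ∈ Ioo 0 (tot K)) : |mom K f θ (tau K θ s)| ≤ D * s := by
  have h := norm_setIntegral_le_of_norm_le_const (μ := volume) (f := f)
    (hK.cap_lt (uu θ) (tau K θ s)) (C := D) (fun x hx => hf x hx.1)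
  rw [Real.norm_eq_abs, measureReal_def] at h
  have h2 : (volume (cap K (uu θ) (tau K θ s))).toReal = s := hK.area_tau hs
  rw [h2] at h; exact h

/-- Bounds. -/
theorem Body.bounds (hK : Body K) {D : ℝ} (hD : K ⊆ closedBall 0 D) {θ s : ℝ}
    (hs : s ∈ Ioo 0 (tot K)) : |tau K θ s| ≤ D ∧ |mid K θ s| ≤ D ∧ len K θ s ≤ 2 * D ∧
      |HH K θ s| ≤ D * s ∧ |kk K θ s| ≤ D * s := by
  obtain ⟨h1, h2, h3⟩ := hK.abs_yp_le hD (hK.cross_tau (θ := θ) hs)
  have hn : ∀ x ∈ K, ‖x‖ ≤ D := fun x hx => by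
    have := hD hx; rwa [mem_closedBall_zero_iff] at this
  refine ⟨h3, ?_, ?_, ?_, ?_⟩
  · unfold mid; rw [abs_le] at h1 h2 ⊢; constructor <;> linarith [h1.1, h1.2, h2.1, h2.2]
  · unfold len; rw [abs_le] at h1 h2; linarith [h1.1, h1.2, h2.1, h2.2]
  · exact hK.mom_bound (fun x hx => (abs_inner_uu_le θ x).trans (hn x hx)) hs
  · exact hK.mom_bound (fun x hx => (abs_inner_vv_le θ x).trans (hn x hx)) hs

theorem Body.mom_compl (hK : Body K) {f : E 2 → ℝ} (hf : Continuous f) (θ t : ℝ) :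
    mom K f θ t + mom K f (θ + Real.pi) (-t) = ∫ x in K, f x := by
  obtain ⟨D, hD0, hD⟩ := hK.exists_bound
  have hnull : volume (K ∩ {x | inner ℝ (uu θ) x = t}) = 0 := line_null hD θ t
  have hcap : cap K (uu (θ + Real.pi)) (-t) = K ∩ {x | inner ℝ (uu θ) x ≤ t} := by
    ext x
    unfold cap
    rw [uu_add_pi]
    simp only [inner_neg_left, neg_le_neg_iff]
  unfold mom
  rw [hcap, ← setIntegral_union₀]
  · congr 2
    ext x
    simp only [cap, mem_union, mem_inter_iff, mem_ofPred_eq]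
    constructor
    · rintro (h | h) <;> exact h.1
    · intro h
      rcases le_total t (inner ℝ (uu θ) x) with h1 | h1
      · left; exact ⟨h, h1⟩
      · right; exact ⟨h, h1⟩
  · apply measure_mono_null _ hnull
    rintro x ⟨⟨h1, h2⟩, ⟨_, h3⟩⟩
    exact ⟨h1, le_antisymm h3 h2⟩
  · exact (hK.comp.isClosed.inter (isClosed_le (by fun_prop) continuous_const)).measurableSet.nullMeasurableSet
  · exact (hK.integrableOn hf).mono_set (cap_sub _ _)
  · exact (hK.integrableOn hf).mono_set inter_subset_left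

theorem Body.tau_symm (hK : Body K) {θ s : ℝ} (hs : s ∈ Ioo 0 (tot K)) :
    tau K (θ + Real.pi) (tot K - s) = -tau K θ s := by
  have h := hK.mom_compl (f := fun _ => 1) continuous_const θ (tau K θ s)
  rw [← hK.area_eq_mom, ← hK.area_eq_mom, hK.area_tau hs] at h
  have h2 : ∫ _ in K, (1:ℝ) = tot K := by simp [tot, measureReal_def]
  rw [h2] at h
  exact hK.tau_spec ⟨by linarith [hs.2], by linarith [hs.1]⟩ (by linarith)

/-- Symmetry `s ↔ tot - s`. -/
theorem Body.HH_symm (hK : Body K) : ∃ a b : ℝ, ∀ θ, ∀ s ∈ Ioo 0 (tot K),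
    HH K (θ + Real.pi) (tot K - s) = HH K θ s - (a * cos θ + b * sin θ) := by
  refine ⟨∫ x in K, x 0, ∫ x in K, x 1, ?_⟩
  intro θ s hs
  have h := hK.mom_compl (continuous_inner_uu θ) θ (tau K θ s)
  have h2 : ∫ x in K, inner ℝ (uu θ) x = (∫ x in K, x 0) * cos θ + (∫ x in K, x 1) * sin θ := by
    simp_rw [inner_uu]
    rw [integral_add ((hK.integrableOn (by fun_prop)).const_mul _)
      ((hK.integrableOn (by fun_prop)).const_mul _), integral_const_mul, integral_const_mul]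
    ring
  rw [h2] at h
  have h3 : HH K (θ + Real.pi) (tot K - s)
      = -mom K (fun x => inner ℝ (uu θ) x) (θ + Real.pi) (-tau K θ s) := by
    unfold HH
    rw [hK.tau_symm hs]
    unfold mom
    rw [← integral_neg]
    congr 1; funext x
    simp only [uu_add_pi, inner_neg_left]
  rw [h3]; unfold HH; linarith

theorem tau_per (K : Set (E 2)) (θ s : ℝ) : tau K (θ + 2 * Real.pi) s = tau K θ s := by
  unfold tau area; rw [uu_add_two_pi]

theorem HH_per (K : Set (E 2)) (θ s : ℝ) : HH K (θ + 2 * Real.pi) s = HH K θ s := by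
  unfold HH mom; rw [tau_per, uu_add_two_pi]

theorem kk_per (K : Set (E 2)) (θ s : ℝ) : kk K (θ + 2 * Real.pi) s = kk K θ s := by
  unfold kk mom; rw [tau_per, uu_add_two_pi, vv_add_two_pi]

end Pool.Agent.Helper16.Buoy
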