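import Pool.Agent.Helper16.Buoy.G4b

/-!
# G5. Support function of the body of buoyancy, and the homothety relation
-/

set_option autoImplicit false

open MeasureTheory Set Metric Filter Topology
open Real (cos sin)

namespace Pool.Agent.Helper16.Buoy

variable {K : Set (E 2)}

theorem Body.nonempty (hK : Body K) : K.Nonempty := hK.int.mono interior_subset

/-- `hh K θ` is attained. -/
theorem Body.hh_isGreatest (hK : Body K) (θ : ℝ) :
    IsGreatest ((fun x => inner ℝ (uu θ) x) '' K) (hh K θ) := by
  have hc : IsCompact ((fun x => inner ℝ (uu θ) x) '' K) :=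
    hK.comp.image (continuous_const.inner continuous_id)
  exact hc.isGreatest_sSup (hK.nonempty.image _)

theorem cap_subset (K : Set (E 2)) (u : E 2) (t : ℝ) : cap K u t ⊆ K := inter_subset_left

theorem Body.measurableSet_cap (hK : Body K) (u : E 2) (t : ℝ) : MeasurableSet (cap K u t) :=
  hK.comp.isClosed.measurableSet.inter (measurableSet_le measurable_const
      (continuous_const.inner continuous_id).measurable)

theorem Body.integrableOn_sub (hK : Body K) {f : E 2 → ℝ} (hf : Continuous f) {C : Set (E 2)}
    (hC : C ⊆ K) : IntegrableOn f C volume :=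
  (hf.continuousOn.integrableOn_compact hK.comp).mono_set hC

/-- The cap of area `s` maximises the first moment among subsets of `K` of area `s`. -/
theorem Body.bathtub (hK : Body K) {θ s : ℝ} (hs : s ∈ Ioo 0 (tot K)) {C : Set (E 2)}
    (hC : C ⊆ K) (hCm : MeasurableSet C) (hCs : (volume C).toReal = s) :
    ∫ x in C, inner ℝ (uu θ) x ≤ HH K θ s := by
  set t := tau K θ s with ht
  set u := uu θ with hu
  have hfc : Continuous (fun x : E 2 => inner ℝ u x - t) :=
    (continuous_const.inner continuous_id).sub continuous_const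
  have hic : Continuous (fun x : E 2 => inner ℝ u x) := continuous_const.inner continuous_id
  have hcapK : cap K u t ⊆ K := cap_subset K u t
  have hcapm := hK.measurableSet_cap u t
  have hcapa : (volume (cap K u t)).toReal = s := hK.area_tau hs
  have hKfin : volume K ≠ ⊤ := hK.comp.measure_lt_top.ne
  have e1 : ∀ {B : Set (E 2)}, B ⊆ K → (volume B).toReal = s →
      ∫ x in B, (inner ℝ u x - t) = (∫ x in B, inner ℝ u x) - t * s := by
    intro B hB hBs
    have hBfin : volume B ≠ ⊤ := measure_ne_top_of_subset hB hKfin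
    rw [integral_sub (hK.integrableOn_sub hic hB) (integrableOn_const hBfin)]
    simp only [integral_const, smul_eq_mul, MeasurableSet.univ, measureReal_restrict_apply,
      univ_inter]
    rw [measureReal_def, hBs]
    ring
  have h1 : ∫ x in C, (inner ℝ u x - t) ≤ ∫ x in cap K u t, (inner ℝ u x - t) := by
    -- both compared with `∫_{C ∩ cap}`
    have hsub1 : C ∩ cap K u t ⊆ K := fun x hx => hC hx.1
    have s1 : ∫ x in C, (inner ℝ u x - t) ≤ ∫ x in C ∩ cap K u t, (inner ℝ u x - t) := by
      rw [← integral_inter_add_sdiff hcapm (hK.integrableOn_sub hfc hC)]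
      have : ∫ x in C \ cap K u t, (inner ℝ u x - t) ≤ 0 := by
        refine setIntegral_nonpos (hCm.diff hcapm) fun x hx => ?_
        have : ¬ t ≤ inner ℝ u x := fun h => hx.2 ⟨hC hx.1, h⟩
        linarith
      linarith
    have s2 : ∫ x in C ∩ cap K u t, (inner ℝ u x - t) ≤ ∫ x in cap K u t, (inner ℝ u x - t) := by
      refine setIntegral_mono_set (hK.integrableOn_sub hfc hcapK) ?_
        (Eventually.of_forall fun x hx => hx.2)
      rw [EventuallyLE, ae_restrict_iff' hcapm]
      refine Eventually.of_forall fun x hx => ?_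
      have : t ≤ inner ℝ u x := hx.2
      simp only [Pi.zero_apply]
      linarith
    exact s1.trans s2
  rw [e1 hC hCs, e1 hcapK hcapa] at h1
  have h2 : HH K θ s = ∫ x in cap K u t, inner ℝ u x := rfl
  rw [h2]
  linarith

theorem inner_centroid {C : Set (E 2)} (u : E 2) (hint : IntegrableOn (fun x => x) C volume) :
    inner ℝ u (centroid C) = (volume C).toReal⁻¹ * ∫ x in C, inner ℝ u x := by
  unfold centroid
  rw [inner_smul_right, integral_inner hint]

/-- The support function of the body of buoyancy is `HH K θ s / s`. -/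
theorem Body.buoyancy_isGreatest (hK : Body K) {θ s : ℝ} (hs : s ∈ Ioo 0 (tot K)) :
    IsGreatest ((fun x => inner ℝ (uu θ) x) '' buoyancyBody K s) (HH K θ s / s) := by
  have hint : ∀ {C : Set (E 2)}, C ⊆ K → IntegrableOn (fun x : E 2 => x) C volume := fun hC =>
    (continuous_id.continuousOn.integrableOn_compact hK.comp).mono_set hC
  constructor
  · refine ⟨centroid (cap K (uu θ) (tau K θ s)), subset_convexHull _ _ ?_, ?_⟩
    · refine ⟨uu θ, norm_uu θ, tau K θ s, ?_, rfl⟩
      have h1 : (volume (cap K (uu θ) (tau K θ s))).toReal = s := hK.area_tau hs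
      have h2 : volume (cap K (uu θ) (tau K θ s)) ≠ ⊤ :=
        measure_ne_top_of_subset (cap_subset _ _ _) (hK.comp.measure_lt_top (μ := volume)).ne
      rw [← ENNReal.ofReal_toReal h2, h1]
    · show inner ℝ (uu θ) (centroid (cap K (uu θ) (tau K θ s))) = _
      rw [inner_centroid _ (hint (cap_subset _ _ _))]
      have h1 : (volume (cap K (uu θ) (tau K θ s))).toReal = s := hK.area_tau hs
      rw [h1]
      have h2 : HH K θ s = ∫ x in cap K (uu θ) (tau K θ s), inner ℝ (uu θ) x := rfl
      rw [h2]
      ring
  · rintro _ ⟨x, hx, rfl⟩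
    have hsub : buoyancyBody K s ⊆ {x | inner ℝ (uu θ) x ≤ HH K θ s / s} := by
      refine convexHull_min ?_ ?_
      · rintro c ⟨u, hu, t, ht, rfl⟩
        show inner ℝ (uu θ) (centroid (cap K u t)) ≤ _
        have h1 : (volume (cap K u t)).toReal = s := by
          rw [ht, ENNReal.toReal_ofReal hs.1.le]
        rw [inner_centroid _ (hint (cap_subset _ _ _)), h1, le_div_iff₀ hs.1]
        have h2 := hK.bathtub (θ := θ) hs (C := cap K u t) (cap_subset _ _ _)
          (hK.measurableSet_cap u t) h1
        have h3 : s⁻¹ * (∫ x in cap K u t, inner ℝ (uu θ) x) * s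
            = ∫ x in cap K u t, inner ℝ (uu θ) x := by
          have := hs.1.ne'
          field_simp
        rw [h3]
        exact h2
      · exact convex_halfSpace_le (f := fun x => inner ℝ (uu θ) x)
          ⟨fun x y => inner_add_right _ _ _, fun c x => by simp [inner_smul_right]⟩ _
    exact hsub hx

/-- The homothety relation. -/
theorem Body.homothety (hK : Body K) {s : ℝ} (hs : s ∈ Ioo 0 (tot K))
    (h : Homothetic K (buoyancyBody K s)) :
    ∃ c a b : ℝ, 0 < c ∧ ∀ θ, HH K θ s = c * hh K θ + (a * cos θ + b * sin θ) := by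
  obtain ⟨p, c, hc, hB⟩ := h
  refine ⟨s * c, s * (1 - c) * p 0, s * (1 - c) * p 1, mul_pos hs.1 hc, fun θ => ?_⟩
  have h1 := hK.buoyancy_isGreatest (θ := θ) hs
  have h2 : IsGreatest ((fun x => inner ℝ (uu θ) x) '' buoyancyBody K s)
      ((1 - c) * inner ℝ (uu θ) p + c * hh K θ) := by
    obtain ⟨⟨x, hx, hxh⟩, hub⟩ := hK.hh_isGreatest θ
    rw [← hB]
    have hval : ∀ y : E 2, inner ℝ (uu θ) (p + c • (y - p)) =
        (1 - c) * inner ℝ (uu θ) p + c * inner ℝ (uu θ) y := by
      intro y
      rw [inner_add_right, inner_smul_right, inner_sub_right]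
      ring
    constructor
    · refine ⟨p + c • (x - p), ⟨x, hx, rfl⟩, ?_⟩
      show inner ℝ (uu θ) (p + c • (x - p)) = _
      rw [hval]
      have : inner ℝ (uu θ) x = hh K θ := hxh
      rw [this]
    · rintro _ ⟨_, ⟨y, hy, rfl⟩, rfl⟩
      show inner ℝ (uu θ) (p + c • (y - p)) ≤ _
      rw [hval]
      have : inner ℝ (uu θ) y ≤ hh K θ := hub ⟨y, hy, rfl⟩
      have := mul_le_mul_of_nonneg_left this hc.le
      linarith
  have h3 := h1.unique h2
  have hs0 := hs.1.ne'
  rw [div_eq_iff hs0] at h3
  rw [h3, inner_uu]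
  ring

end Pool.Agent.Helper16.Buoy
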