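import Mathlib

/-!
# Body of buoyancy: definitions (MP_a2630c_gt)

`E n` is Euclidean space. For a set `K`, a direction `u` and a level `t`, `cap K u t` is the part
of `K` where `t ≤ ⟨u,x⟩`. `buoyancyBody K d` is the convex hull of the centroids of all caps of
volume `d`. Two sets are homothetic if a dilation `x ↦ p + c (x - p)`, `c > 0`, maps one onto the other.
-/

open MeasureTheory Set Metric
open scoped RealInnerProductSpace

namespace Pool.Agent.Helper16.Buoy

/-- Euclidean space of dimension `n`. -/
abbrev E (n : ℕ) := EuclideanSpace ℝ (Fin n)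

/-- The cap `{x ∈ K : t ≤ ⟨u, x⟩}`. -/
def cap {n : ℕ} (K : Set (E n)) (u : E n) (t : ℝ) : Set (E n) := K ∩ {x | t ≤ inner ℝ u x}

/-- The centroid of a set. -/
noncomputable def centroid {n : ℕ} (C : Set (E n)) : E n :=
  (volume C).toReal⁻¹ • ∫ x in C, x

/-- The body of buoyancy `B_d(K)`: the convex hull of the centroids of the caps of volume `d`. -/
noncomputable def buoyancyBody {n : ℕ} (K : Set (E n)) (d : ℝ) : Set (E n) :=
  convexHull ℝ {c | ∃ u : E n, ‖u‖ = 1 ∧ ∃ t : ℝ,
    volume (cap K u t) = ENNReal.ofReal d ∧ c = centroid (cap K u t)}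

/-- `A` and `B` are homothetic: a dilation with a positive factor maps `A` onto `B`. -/
def Homothetic {n : ℕ} (A B : Set (E n)) : Prop :=
  ∃ (p : E n) (c : ℝ), 0 < c ∧ (fun x => p + c • (x - p)) '' A = B

/-- An ellipsoid: the image of the closed unit ball under an invertible affine map. -/
def IsEllipsoid {n : ℕ} (K : Set (E n)) : Prop :=
  ∃ T : E n ≃ᵃ[ℝ] E n, T '' closedBall (0 : E n) 1 = K

end Pool.Agent.Helper16.Buoy
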